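import Pool.Agent.Lib.MP_391708_nt.U.R.SpecR

/-!
# Project U (MP_391708), part R, module CO1: one modulus
-/

set_option autoImplicit false

namespace Pool.Agent.Lib.MP391708.U.R

open Finset Filter Topology Pool.Agent.Lib.MP391708.QPA Pool.Agent.Lib.MP391708.U
open scoped Classical

namespace CO1M

lemma mnf_nonneg (L P : ℕ) (y : ℤ) : 0 ≤ mnf L P y := by
  unfold mnf
  split_ifs
  · positivity
  · exact le_min (by positivity) (by positivity)

/-- The bound for the Fejér kernel. -/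
lemma fej_le (hF : SpecFBD) (L P m : ℕ) (z y : ℤ) (hL : 1 ≤ L) (hm : 1 ≤ m) (hmP : m ≤ 2 * P)
    (hzy : (m : ℤ) ∣ z - y) (hy : 2 * |y| ≤ m) :
    0 ≤ fej L ((z : ℝ) / m) ∧ fej L ((z : ℝ) / m) ≤ mnf L P y := by
  obtain ⟨h1, h2, h3, h4⟩ := hF L hL
  refine ⟨(h1 _).1, ?_⟩
  rw [h3 m z y hm hzy]
  unfold mnf
  split_ifs with h0
  · exact (h1 _).2
  · refine le_min (h1 _).2 ((h4 m y hm h0 hy).trans ?_)
    have hL0 : (0 : ℝ) < L := by exact_mod_cast hL
    have hy0 : (0 : ℝ) < (y : ℝ) ^ 2 := by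
      have : (y : ℝ) ≠ 0 := by exact_mod_cast h0
      positivity
    have hmP' : (m : ℝ) ≤ 2 * P := by exact_mod_cast hmP
    have hm0 : (0 : ℝ) ≤ m := Nat.cast_nonneg m
    rw [div_le_div_iff₀ (by positivity) (by positivity)]
    have e1 : (m : ℝ) ^ 2 ≤ 4 * (P : ℝ) ^ 2 := by nlinarith
    calc (m : ℝ) ^ 2 * (L * (y : ℝ) ^ 2) ≤ (4 * (P : ℝ) ^ 2) * (L * (y : ℝ) ^ 2) :=
          mul_le_mul_of_nonneg_right e1 (by positivity)
      _ = (P : ℝ) ^ 2 * (4 * L * (y : ℝ) ^ 2) := by ring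

lemma bmod_two (z : ℤ) (m : ℕ) (hm : 0 < m) : 2 * |Int.bmod z m| ≤ m := by
  have h1 := Int.le_bmod (x := z) hm
  have h2 := Int.bmod_lt (x := z) hm
  have h3 : |Int.bmod z m| ≤ max (Int.bmod z m) (-(Int.bmod z m)) := le_of_eq rfl
  rcases le_total 0 (Int.bmod z m) with h | h
  · rw [abs_of_nonneg h]; omega
  · rw [abs_of_nonpos h]; omega

lemma bmod_dvd (z : ℤ) (m : ℕ) : (m : ℤ) ∣ z - Int.bmod z m := by
  have h := Int.bmod_add_bdiv z m
  exact ⟨Int.bdiv z m, by linarith⟩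

/-- The number of the solutions of a linear congruence. -/
lemma count (m : ℕ) (hm : 1 ≤ m) (β η : ℤ) (s : Finset ℕ) (hs : ∀ ν ∈ s, ν < m)
    (hs2 : ∀ ν ∈ s, (m : ℤ) ∣ β * ν - η) : s.card ≤ Int.gcd β m := by
  set g := Int.gcd β m with hg
  have hg0 : 0 < g := by
    rw [hg]
    exact Int.gcd_pos_of_ne_zero_right _ (by exact_mod_cast (by omega : m ≠ 0))
  obtain ⟨β', hβ'⟩ : (g : ℤ) ∣ β := Int.gcd_dvd_left _ _
  obtain ⟨m', hm'⟩ : (g : ℤ) ∣ (m : ℤ) := Int.gcd_dvd_right _ _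
  have hgz : (0 : ℤ) < g := by exact_mod_cast hg0
  have hm'0 : 0 < m' := by
    have : (0 : ℤ) < m := by exact_mod_cast hm
    rw [hm'] at this
    by_contra hneg
    push Not at hneg
    have := mul_nonpos_of_nonneg_of_nonpos hgz.le hneg
    omega
  have hcop : IsCoprime β' m' := by
    rw [Int.isCoprime_iff_gcd_eq_one]
    have h1 : Int.gcd ((g : ℤ) * β') ((g : ℤ) * m') = g := by
      rw [← hβ', ← hm']
    rw [Int.gcd_mul_left, Int.natAbs_natCast] at h1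
    exact Nat.eq_of_mul_eq_mul_left hg0 (by rw [h1, mul_one])
  have hcong : ∀ ν ∈ s, ∀ ν' ∈ s, m' ∣ (ν : ℤ) - ν' := by
    intro ν hν ν' hν'
    have h1 := dvd_sub (hs2 ν hν) (hs2 ν' hν')
    have h2 : β * (ν : ℤ) - η - (β * (ν' : ℤ) - η) = (g : ℤ) * (β' * ((ν : ℤ) - ν')) := by
      rw [hβ']; ring
    rw [h2, hm'] at h1
    have h3 : m' ∣ β' * ((ν : ℤ) - ν') := Int.dvd_of_mul_dvd_mul_left (by exact hgz.ne') h1
    exact hcop.symm.dvd_of_dvd_mul_left h3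
  have hinj : Set.InjOn (fun ν : ℕ => (ν : ℤ) / m') (s : Set ℕ) := by
    intro ν hν ν' hν' h
    have h1 := hcong ν (Finset.mem_coe.1 hν) ν' (Finset.mem_coe.1 hν')
    have h2 : (ν : ℤ) / m' = (ν' : ℤ) / m' := h
    have h4 : (ν' : ℤ) % m' = (ν : ℤ) % m' := Int.modEq_iff_dvd.2 h1
    have h5 := Int.emod_add_mul_ediv (ν : ℤ) m'
    have h6 := Int.emod_add_mul_ediv (ν' : ℤ) m'
    rw [h2, ← h4] at h5
    have : (ν : ℤ) = ν' := by linarith
    exact_mod_cast this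
  have hmaps : ∀ ν ∈ s, (fun ν : ℕ => (ν : ℤ) / m') ν ∈ Finset.Ico (0 : ℤ) g := by
    intro ν hν
    have h1 : (ν : ℤ) < g * m' := by
      rw [← hm']
      exact_mod_cast hs ν hν
    rw [Finset.mem_Ico]
    refine ⟨Int.ediv_nonneg (Int.natCast_nonneg ν) hm'0.le, ?_⟩
    exact Int.ediv_lt_of_lt_mul hm'0 h1
  have hcard := Finset.card_le_card_of_injOn _ hmaps hinj
  rw [Int.card_Ico, sub_zero, Int.toNat_natCast] at hcard
  exact hcard

/-- The residues. -/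
def phi (m : ℕ) (p : ℕ × ℕ) : ℤ × ℤ := (Int.bmod p.2 m, Int.bmod ((p.2 : ℤ) * p.1) m)

end CO1M

open CO1M in
theorem specCO1 (hFBD : SpecFBD) : SpecCO1 := by
  intro a X Y P m hX hY hPm hmP
  have hm : 1 ≤ m := by omega
  -- the majorant
  have hG : ∀ q : ℤ × ℤ, 0 ≤ mnf Y P q.1 * mnf X P q.2 := fun q =>
    mul_nonneg (mnf_nonneg _ _ _) (mnf_nonneg _ _ _)
  set T : Finset (ℤ × ℤ) := (((Icc (-(P : ℤ)) P).filter (fun β : ℤ => β ≠ 0)) ×ˢ
    (Icc (-(P : ℤ)) P)).filter (fun q : ℤ × ℤ =>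
      (m : ℤ) ∣ q.2 ^ 2 + a * q.1 ^ 2 ∧ (Int.gcd q.1 m : ℤ) ∣ q.2) with hT
  have hcov : cov a X Y P m = ∑ q ∈ T, (Int.gcd q.1 m : ℝ) * (mnf Y P q.1 * mnf X P q.2) := by
    unfold cov
    rw [hT, Finset.sum_filter (s := ((Icc (-(P : ℤ)) P).filter (fun β : ℤ => β ≠ 0)) ×ˢ
      (Icc (-(P : ℤ)) P)), Finset.sum_product]
    refine Finset.sum_congr rfl fun β _ => ?_
    rw [Finset.sum_filter]
    refine Finset.sum_congr rfl fun η _ => ?_
    simp only [mul_assoc]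
  rw [hcov, ← Finset.sum_product']
  have hstep : ∑ p ∈ rt a m ×ˢ Ioo 0 m,
      fej Y ((p.2 : ℝ) / m) * fej X ((p.2 : ℝ) * p.1 / m) ≤
      ∑ p ∈ rt a m ×ˢ Ioo 0 m, mnf Y P (phi m p).1 * mnf X P (phi m p).2 := by
    refine Finset.sum_le_sum fun p _ => ?_
    have e1 := fej_le hFBD Y P m (p.2 : ℤ) (phi m p).1 hY hm hmP (bmod_dvd _ _)
      (bmod_two _ _ hm)
    have e2 := fej_le hFBD X P m ((p.2 : ℤ) * p.1) (phi m p).2 hX hm hmP (bmod_dvd _ _)
      (bmod_two _ _ hm)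
    push_cast at e1 e2
    exact mul_le_mul e1.2 e2.2 e2.1 (mnf_nonneg _ _ _)
  refine hstep.trans ?_
  have hmaps : ∀ p ∈ rt a m ×ˢ Ioo 0 m, phi m p ∈ T := by
    rintro ⟨ν, k⟩ hp
    rw [Finset.mem_product] at hp
    obtain ⟨hν, hk⟩ := hp
    simp only [rt, Finset.mem_filter, Finset.mem_range] at hν
    rw [Finset.mem_Ioo] at hk
    have b1 := bmod_two (k : ℤ) m hm
    have b2 := bmod_two ((k : ℤ) * ν) m hm
    have d1 := bmod_dvd (k : ℤ) m
    have d2 := bmod_dvd ((k : ℤ) * ν) m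
    set β := Int.bmod (k : ℤ) m with hβ
    set η := Int.bmod ((k : ℤ) * ν) m with hη
    have hmP' : (m : ℤ) ≤ 2 * P := by exact_mod_cast hmP
    rw [hT, Finset.mem_filter, Finset.mem_product, Finset.mem_filter, Finset.mem_Icc,
      Finset.mem_Icc]
    show (((-(P : ℤ) ≤ β ∧ β ≤ P) ∧ β ≠ 0) ∧ (-(P : ℤ) ≤ η ∧ η ≤ P)) ∧
      (m : ℤ) ∣ η ^ 2 + a * β ^ 2 ∧ (Int.gcd β m : ℤ) ∣ η
    have c1 : |β| ≤ P := by omega
    have c2 : |η| ≤ P := by omega
    have hβ0 : β ≠ 0 := by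
      intro h0
      rw [h0, sub_zero] at d1
      have h1 : m ∣ k := by exact_mod_cast d1
      have h2 := Nat.le_of_dvd hk.1 h1
      omega
    have hd3 : (m : ℤ) ∣ β * ν - η := by
      have h1 : β * ν - η = ((k : ℤ) * ν - η) - ((k : ℤ) - β) * ν := by ring
      rw [h1]
      exact dvd_sub d2 (Dvd.dvd.mul_right d1 _)
    refine ⟨⟨⟨abs_le.1 c1, hβ0⟩, abs_le.1 c2⟩, ?_, ?_⟩
    · have h1 : η ^ 2 + a * β ^ 2 = (k : ℤ) ^ 2 * ((ν : ℤ) ^ 2 + a) -
          (((k : ℤ) * ν - η) * ((k : ℤ) * ν + η) + a * (((k : ℤ) - β) * ((k : ℤ) + β))) := by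
        ring
      rw [h1]
      refine dvd_sub (Dvd.dvd.mul_left hν.2 _) (dvd_add (Dvd.dvd.mul_right d2 _)
        (Dvd.dvd.mul_left (Dvd.dvd.mul_right d1 _) _))
    · have h1 : (Int.gcd β m : ℤ) ∣ β * ν - η := (Int.gcd_dvd_right _ _).trans hd3
      have h2 : (Int.gcd β m : ℤ) ∣ β * ν := Dvd.dvd.mul_right (Int.gcd_dvd_left _ _) _
      have h3 := dvd_sub h2 h1
      rwa [sub_sub_cancel] at h3
  rw [← Finset.sum_fiberwise_of_maps_to hmaps]
  refine Finset.sum_le_sum fun q _ => ?_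
  have hfib : ∑ p ∈ (rt a m ×ˢ Ioo 0 m).filter (fun p => phi m p = q),
      mnf Y P (phi m p).1 * mnf X P (phi m p).2 =
      (((rt a m ×ˢ Ioo 0 m).filter (fun p => phi m p = q)).card : ℝ) *
        (mnf Y P q.1 * mnf X P q.2) := by
    rw [Finset.sum_congr rfl (g := fun _ => mnf Y P q.1 * mnf X P q.2), Finset.sum_const,
      nsmul_eq_mul]
    intro p hp
    rw [(Finset.mem_filter.1 hp).2]
  rw [hfib]
  refine mul_le_mul_of_nonneg_right ?_ (hG q)
  have hcard : ((rt a m ×ˢ Ioo 0 m).filter (fun p => phi m p = q)).card ≤ Int.gcd q.1 m := by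
    have hinj : Set.InjOn Prod.fst
        (((rt a m ×ˢ Ioo 0 m).filter (fun p => phi m p = q) : Finset (ℕ × ℕ)) :
          Set (ℕ × ℕ)) := by
      rintro ⟨ν, k⟩ h ⟨ν', k'⟩ h' hνν
      have hνν' : ν = ν' := hνν
      rw [Finset.mem_coe, Finset.mem_filter, Finset.mem_product] at h h'
      have hk := Finset.mem_Ioo.1 h.1.2
      have hk' := Finset.mem_Ioo.1 h'.1.2
      have e1 : Int.bmod (k : ℤ) m = Int.bmod (k' : ℤ) m := by
        have := congrArg Prod.fst (h.2.trans h'.2.symm)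
        exact this
      have d1 := bmod_dvd (k : ℤ) m
      have d2 := bmod_dvd (k' : ℤ) m
      rw [e1] at d1
      have d3 := dvd_sub d1 d2
      rw [sub_sub_sub_cancel_right] at d3
      have hkk : (k : ℤ) - k' = 0 := by
        apply Int.eq_zero_of_abs_lt_dvd d3
        have g1 : (k : ℤ) < m := by exact_mod_cast hk.2
        have g2 : (k' : ℤ) < m := by exact_mod_cast hk'.2
        have g3 : (0 : ℤ) < k := by exact_mod_cast hk.1
        have g4 : (0 : ℤ) < k' := by exact_mod_cast hk'.1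
        rw [abs_lt]
        constructor <;> linarith
      have hkk' : k = k' := by
        have : (k : ℤ) = k' := by linarith
        exact_mod_cast this
      rw [hνν', hkk']
    rw [← Finset.card_image_of_injOn hinj]
    refine count m hm q.1 q.2 _ ?_ ?_
    · intro ν hν
      obtain ⟨p, hp, rfl⟩ := Finset.mem_image.1 hν
      have h := (Finset.mem_product.1 (Finset.mem_filter.1 hp).1).1
      simp only [rt, Finset.mem_filter, Finset.mem_range] at h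
      exact h.1
    · intro ν hν
      obtain ⟨⟨ν', k⟩, hp, rfl⟩ := Finset.mem_image.1 hν
      have hq := (Finset.mem_filter.1 hp).2
      have d1 := bmod_dvd (k : ℤ) m
      have d2 := bmod_dvd ((k : ℤ) * ν') m
      have e1 : Int.bmod (k : ℤ) m = q.1 := congrArg Prod.fst hq
      have e2 : Int.bmod ((k : ℤ) * ν') m = q.2 := congrArg Prod.snd hq
      rw [e1] at d1
      rw [e2] at d2
      show (m : ℤ) ∣ q.1 * ν' - q.2
      have h1 : q.1 * (ν' : ℤ) - q.2 = ((k : ℤ) * ν' - q.2) - ((k : ℤ) - q.1) * ν' := by ring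
      rw [h1]
      exact dvd_sub d2 (Dvd.dvd.mul_right d1 _)
  exact_mod_cast hcard

end Pool.Agent.Lib.MP391708.U.R
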