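import Pool.Agent.Lib.MP_391708_nt.U.R.SpecR

/-!
# Project U (MP_391708), part R: module CO2 (the sum over the moduli)
-/

set_option autoImplicit false

namespace Pool.Agent.Lib.MP391708.U.R

open Finset Filter Topology Pool.Agent.Lib.MP391708.QPA Pool.Agent.Lib.MP391708.U
open Pool.Agent.Lib.MP_1446ad_nt.SM (tau uu vv kc SpecKLB SpecDEC)
open scoped Classical

noncomputable section

namespace CO2M

lemma mnf_nonneg (L P : ℕ) (y : ℤ) : 0 ≤ mnf L P y := by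
  unfold mnf
  split_ifs
  · positivity
  · exact le_min (by positivity) (by positivity)

lemma card_div (T : ℝ) (a : ℤ) (P : ℕ) (ha : ¬ IsSquare (-a))
    (hT : TB T (4 * P ^ 2 * (a.natAbs + 1))) (β η : ℤ) (hβ0 : β ≠ 0)
    (hβ : β ∈ Icc (-(P : ℤ)) P) (hη : η ∈ Icc (-(P : ℤ)) P) :
    (((Ioc P (2 * P)).filter (fun m : ℕ => (m : ℤ) ∣ η ^ 2 + a * β ^ 2)).card : ℝ) ≤ T := by
  have hne := nsq ha hβ0 (y := η)
  set n := (η ^ 2 + a * β ^ 2).natAbs with hn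
  have hn0 : 0 < n := Int.natAbs_pos.2 hne
  have hnB : n ≤ 4 * P ^ 2 * (a.natAbs + 1) := by
    rw [mem_Icc] at hβ hη
    have h1 : β ^ 2 ≤ (P : ℤ) ^ 2 := by nlinarith
    have h2 : η ^ 2 ≤ (P : ℤ) ^ 2 := by nlinarith
    have h3 : |η ^ 2 + a * β ^ 2| ≤ η ^ 2 + |a| * β ^ 2 := by
      refine (abs_add_le _ _).trans (le_of_eq ?_)
      rw [abs_mul, abs_of_nonneg (sq_nonneg η), abs_of_nonneg (sq_nonneg β)]
    have h4 : |a| * β ^ 2 ≤ |a| * (P : ℤ) ^ 2 := mul_le_mul_of_nonneg_left h1 (abs_nonneg a)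
    have h5 : (n : ℤ) ≤ 4 * (P : ℤ) ^ 2 * (|a| + 1) := by
      rw [hn, Int.natCast_natAbs]
      nlinarith [abs_nonneg a, sq_nonneg (P : ℤ), mul_nonneg (abs_nonneg a) (sq_nonneg (P : ℤ))]
    have h6 : ((4 * P ^ 2 * (a.natAbs + 1) : ℕ) : ℤ) = 4 * (P : ℤ) ^ 2 * (|a| + 1) := by
      push_cast
      rw [Int.abs_eq_natAbs]
    exact_mod_cast h5.trans_eq h6.symm
  refine le_trans ?_ ((hT.2 n hn0 hnB).1)
  unfold tau
  have : ((Ioc P (2 * P)).filter (fun m : ℕ => (m : ℤ) ∣ η ^ 2 + a * β ^ 2)).card ≤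
      n.divisors.card := by
    refine card_le_card (fun m hm => ?_)
    rw [mem_filter] at hm
    rw [Nat.mem_divisors]
    exact ⟨Int.natCast_dvd.1 hm.2, hn0.ne'⟩
  exact_mod_cast this

/-- the `β` and the `η` -/
def Bs (P g : ℕ) : Finset ℤ := (Icc (-(P : ℤ)) P).filter (fun β : ℤ => β ≠ 0 ∧ (g : ℤ) ∣ β)

def Es (P g : ℕ) : Finset ℤ := (Icc (-(P : ℤ)) P).filter (fun η : ℤ => (g : ℤ) ∣ η)

lemma cov_le (a : ℤ) (X Y P m : ℕ) : cov a X Y P m ≤
    ∑ g ∈ Icc 1 P, ∑ β ∈ Bs P g, ∑ η ∈ Es P g,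
      if (m : ℤ) ∣ η ^ 2 + a * β ^ 2 then (g : ℝ) * mnf Y P β * mnf X P η else 0 := by
  rw [sum_comm' (t' := (Icc (-(P : ℤ)) P).filter (fun β : ℤ => β ≠ 0))
    (s' := fun β => (Icc 1 P).filter (fun g : ℕ => (g : ℤ) ∣ β))]
  · unfold cov
    refine sum_le_sum (fun β hβ => ?_)
    rw [mem_filter, mem_Icc] at hβ
    have hg1 : 1 ≤ Int.gcd β m := by
      rw [Nat.one_le_iff_ne_zero, Ne, Int.gcd_eq_zero_iff]
      exact fun h => hβ.2 h.1
    have hg2 : Int.gcd β m ≤ P := by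
      have h1 : Int.gcd β m ≤ β.natAbs :=
        Nat.le_of_dvd (Int.natAbs_pos.2 hβ.2) (Nat.gcd_dvd_left _ _)
      have h2 : β.natAbs ≤ P := by omega
      exact h1.trans h2
    have hmem : Int.gcd β m ∈ (Icc 1 P).filter (fun g : ℕ => (g : ℤ) ∣ β) := by
      rw [mem_filter, mem_Icc]
      exact ⟨⟨hg1, hg2⟩, Int.gcd_dvd_left _ _⟩
    refine le_trans (le_of_eq ?_) (single_le_sum (f := fun g : ℕ => ∑ η ∈ Es P g,
      if (m : ℤ) ∣ η ^ 2 + a * β ^ 2 then (g : ℝ) * mnf Y P β * mnf X P η else 0)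
      (fun g _ => sum_nonneg (fun η _ => ?_)) hmem)
    · rw [← sum_filter]
      refine sum_congr ?_ (fun _ _ => rfl)
      unfold Es
      rw [filter_filter]
      refine filter_congr (fun η _ => ?_)
      exact and_comm
    · split_ifs
      · exact mul_nonneg (mul_nonneg (Nat.cast_nonneg _) (mnf_nonneg _ _ _)) (mnf_nonneg _ _ _)
      · exact le_rfl
  · intro g β
    unfold Bs
    simp only [mem_filter]
    tauto

lemma sum_Es (hMNS : SpecMNS) (X P g : ℕ) (hX : 1 ≤ X) (hP : 1 ≤ P) (hg : 1 ≤ g) :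
    ∑ η ∈ Es P g, mnf X P η ≤ X + 6 * ((P : ℝ) / g) := by
  have h0 : (0 : ℤ) ∈ Es P g := by
    unfold Es
    rw [mem_filter, mem_Icc]
    exact ⟨⟨by omega, by omega⟩, dvd_zero _⟩
  rw [← add_sum_erase _ _ h0]
  have h1 : (Es P g).erase 0 = (Icc (-(P : ℤ)) P).filter (fun β : ℤ => β ≠ 0 ∧ (g : ℤ) ∣ β) := by
    ext η
    unfold Es
    simp only [mem_erase, mem_filter]
    tauto
  rw [h1]
  have h2 := hMNS X P g hX hP hg
  have h3 : mnf X P 0 = X := by simp [mnf]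
  rw [h3]
  have h4 : 6 * ((P : ℝ) / g) * min 1 ((P : ℝ) / (g * X)) ≤ 6 * ((P : ℝ) / g) := by
    have : (0 : ℝ) ≤ 6 * ((P : ℝ) / g) := by positivity
    calc _ ≤ 6 * ((P : ℝ) / g) * 1 := mul_le_mul_of_nonneg_left (min_le_left _ _) this
      _ = _ := mul_one _
  linarith

lemma one_g (hMNS : SpecMNS) (X Y P g : ℕ) (hX : 1 ≤ X) (hXY : X ≤ Y) (hP : 1 ≤ P) (hg : 1 ≤ g) :
    (g : ℝ) * (∑ β ∈ Bs P g, mnf Y P β) * (∑ η ∈ Es P g, mnf X P η) ≤
      42 * (P : ℝ) ^ 2 * (1 / g) := by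
  have hY : 1 ≤ Y := hX.trans hXY
  have hg' : (0 : ℝ) < g := by exact_mod_cast hg
  have hY' : (0 : ℝ) < Y := by exact_mod_cast hY
  have hP' : (0 : ℝ) < P := by exact_mod_cast hP
  have hXY' : (X : ℝ) ≤ Y := by exact_mod_cast hXY
  have hb : ∑ β ∈ Bs P g, mnf Y P β ≤ 6 * ((P : ℝ) / g) * min 1 ((P : ℝ) / (g * Y)) :=
    hMNS Y P g hY hP hg
  have he := sum_Es hMNS X P g hX hP hg
  have hmin0 : (0 : ℝ) ≤ min 1 ((P : ℝ) / (g * Y)) := le_min zero_le_one (by positivity)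
  have he0 : 0 ≤ ∑ η ∈ Es P g, mnf X P η := sum_nonneg (fun _ _ => mnf_nonneg _ _ _)
  calc (g : ℝ) * (∑ β ∈ Bs P g, mnf Y P β) * (∑ η ∈ Es P g, mnf X P η)
      ≤ (g : ℝ) * (6 * ((P : ℝ) / g) * min 1 ((P : ℝ) / (g * Y))) * (X + 6 * ((P : ℝ) / g)) := by
        refine mul_le_mul (mul_le_mul_of_nonneg_left hb hg'.le) he he0 (by positivity)
    _ = 6 * P * (min 1 ((P : ℝ) / (g * Y)) * X) +
          36 * P * ((P : ℝ) / g) * min 1 ((P : ℝ) / (g * Y)) := by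
        field_simp
        ring
    _ ≤ 6 * P * ((P : ℝ) / (g * Y) * Y) + 36 * P * ((P : ℝ) / g) * 1 := by
        refine add_le_add ?_ ?_
        · refine mul_le_mul_of_nonneg_left ?_ (by positivity)
          exact mul_le_mul (min_le_right _ _) hXY' (by positivity) (by positivity)
        · exact mul_le_mul_of_nonneg_left (min_le_left _ _) (by positivity)
    _ = 42 * (P : ℝ) ^ 2 * (1 / g) := by
        field_simp
        ring

lemma harm (P : ℕ) : ∑ g ∈ Icc 1 P, (1 : ℝ) / g ≤ 1 + Real.log P := by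
  have h := harmonic_le_one_add_log P
  rw [harmonic_eq_sum_Icc] at h
  push_cast at h
  simpa [one_div] using h

end CO2M

open CO2M in
theorem specCO2 (hMNS : SpecMNS) : SpecCO2 := by
  intro T a X Y P ha hX hXY hP hT
  have hT1 : 1 ≤ T := hT.1
  have hlog : 1 + Real.log P ≤ T := (hT.2 P hP (by nlinarith [Nat.zero_le a.natAbs])).2
  calc ∑ m ∈ Ioc P (2 * P), cov a X Y P m
      ≤ ∑ m ∈ Ioc P (2 * P), ∑ g ∈ Icc 1 P, ∑ β ∈ Bs P g, ∑ η ∈ Es P g,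
          if (m : ℤ) ∣ η ^ 2 + a * β ^ 2 then (g : ℝ) * mnf Y P β * mnf X P η else 0 :=
        sum_le_sum (fun m _ => cov_le a X Y P m)
    _ = ∑ g ∈ Icc 1 P, ∑ β ∈ Bs P g, ∑ η ∈ Es P g, ∑ m ∈ Ioc P (2 * P),
          if (m : ℤ) ∣ η ^ 2 + a * β ^ 2 then (g : ℝ) * mnf Y P β * mnf X P η else 0 := by
        rw [sum_comm]
        refine sum_congr rfl (fun g _ => ?_)
        rw [sum_comm]
        refine sum_congr rfl (fun β _ => ?_)
        rw [sum_comm]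
    _ ≤ ∑ g ∈ Icc 1 P, ∑ β ∈ Bs P g, ∑ η ∈ Es P g, T * ((g : ℝ) * mnf Y P β * mnf X P η) := by
        refine sum_le_sum (fun g _ => sum_le_sum (fun β hβ => sum_le_sum (fun η hη => ?_)))
        rw [← sum_filter, sum_const, nsmul_eq_mul]
        unfold Bs at hβ
        unfold Es at hη
        rw [mem_filter] at hβ hη
        exact mul_le_mul_of_nonneg_right (card_div T a P ha hT β η hβ.2.1 hβ.1 hη.1)
          (mul_nonneg (mul_nonneg (Nat.cast_nonneg _) (mnf_nonneg _ _ _)) (mnf_nonneg _ _ _))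
    _ = T * ∑ g ∈ Icc 1 P, (g : ℝ) * (∑ β ∈ Bs P g, mnf Y P β) * (∑ η ∈ Es P g, mnf X P η) := by
        rw [mul_sum]
        refine sum_congr rfl (fun g _ => ?_)
        rw [mul_assoc, sum_mul_sum, mul_sum, mul_sum]
        refine sum_congr rfl (fun β _ => ?_)
        rw [mul_sum, mul_sum]
        refine sum_congr rfl (fun η _ => ?_)
        ring
    _ ≤ T * ∑ g ∈ Icc 1 P, 42 * (P : ℝ) ^ 2 * (1 / g) := by
        refine mul_le_mul_of_nonneg_left (sum_le_sum (fun g hg => ?_)) (by linarith)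
        exact one_g hMNS X Y P g hX hXY hP (mem_Icc.1 hg).1
    _ = T * (42 * (P : ℝ) ^ 2 * ∑ g ∈ Icc 1 P, (1 : ℝ) / g) := by rw [← mul_sum]
    _ ≤ T * (42 * (P : ℝ) ^ 2 * T) := by
        refine mul_le_mul_of_nonneg_left ?_ (by linarith)
        exact mul_le_mul_of_nonneg_left ((harm P).trans hlog) (by positivity)
    _ ≤ 50 * T ^ 2 * (P : ℝ) ^ 2 := by
        nlinarith [mul_nonneg (sq_nonneg T) (sq_nonneg (P : ℝ))]

end

end Pool.Agent.Lib.MP391708.U.R
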