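import Pool.Agent.Lib.MP_391708_nt.U.R.SpecR

/-!
# Project U (MP_391708), part R: module DYA
-/

set_option autoImplicit false

namespace Pool.Agent.Lib.MP391708.U.R

open Finset Filter Topology Pool.Agent.Lib.MP391708.QPA Pool.Agent.Lib.MP391708.U
open Pool.Agent.Lib.MP_1446ad_nt.SM (tau uu vv kc SpecKLB SpecDEC)
open scoped Classical

noncomputable section

namespace DYAM

/-- `x ≤ y` from `x ^ 2 ≤ y ^ 2`. -/
theorem le_of_sq {x y : ℝ} (hy : 0 ≤ y) (h : x ^ 2 ≤ y ^ 2) : x ≤ y :=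
  le_of_sq_le_sq' h hy
where
  le_of_sq_le_sq' (h : x ^ 2 ≤ y ^ 2) (hy : 0 ≤ y) : x ≤ y := by
    by_contra hc
    push Not at hc
    nlinarith

/-- Powers of `t`. -/
theorem pw {t c : ℝ} {i j k : ℕ} (ht : 1 ≤ t) (hc : c ≤ t) (hk : j + 1 ≤ k) (h : i = j) :
    c * t ^ i ≤ t ^ k := by
  subst h
  have h1 : (0 : ℝ) < t ^ i := by positivity
  calc c * t ^ i ≤ t * t ^ i := mul_le_mul_of_nonneg_right hc h1.le
    _ = t ^ (i + 1) := by ring
    _ ≤ t ^ k := pow_le_pow_right₀ ht hk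

theorem pw' {t c : ℝ} {i k : ℕ} (ht : 1 ≤ t) (hc : c ≤ t) (hk : i + 1 ≤ k) :
    c * t ^ i ≤ t ^ k := pw ht hc hk rfl

/-- The numerical part. -/
theorem num {t P D A H q : ℝ} (ht : 21600 ≤ t) (hP0 : t ^ 3960 ≤ 2 * P) (hP1 : P ≤ t ^ 4020)
    (hD0 : 1 ≤ D) (hD1 : D ≤ 2 * t ^ 2200) (hH0 : 0 ≤ H) (hH : H ≤ t ^ 20) (hq0 : 1 ≤ q)
    (hq : q ≤ t ^ 20) (hA : A = √(t ^ 80 * P / D)) :
    56 * (t ^ 4) ^ 2 * P / t ^ 80 + 2520 * (t ^ 4) ^ 2 * H * (D * A) +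
      1800 * q * (t ^ 4) ^ 6 * √H * (P / √A + D * A * √A) ≤ t ^ 3956 := by
  have ht1 : 1 ≤ t := by linarith
  have ht0 : 0 < t := by linarith
  have hD : 0 < D := by linarith
  have hPp : 0 < P := by
    have : 0 < t ^ 3960 := by positivity
    linarith
  have hq1 : 0 < q := by linarith
  have hRP : 0 < t ^ 80 * P / D := by positivity
  have hA2 : A ^ 2 = t ^ 80 * P / D := by
    rw [hA, Real.sq_sqrt hRP.le]
  have hA0 : 0 < A := by rw [hA]; exact Real.sqrt_pos.2 hRP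
  have hsA0 : 0 < √A := Real.sqrt_pos.2 hA0
  have hsA2 : √A ^ 2 = A := Real.sq_sqrt hA0.le
  -- lower bound for `A`
  have hAlow : t ^ 920 / 2 ≤ A := by
    apply le_of_sq hA0.le
    rw [hA2, le_div_iff₀ hD]
    have h1 : (t ^ 920 / 2) ^ 2 * D ≤ (t ^ 920 / 2) ^ 2 * (2 * t ^ 2200) :=
      mul_le_mul_of_nonneg_left hD1 (by positivity)
    have h2 : (t ^ 920 / 2) ^ 2 * (2 * t ^ 2200) = t ^ 80 * (t ^ 3960 / 2) := by
      ring
    have h3 : t ^ 80 * (t ^ 3960 / 2) ≤ t ^ 80 * P :=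
      mul_le_mul_of_nonneg_left (by linarith) (by positivity)
    linarith
  have hsAlow : t ^ 460 / 2 ≤ √A := by
    apply le_of_sq hsA0.le
    rw [hsA2]
    have h1 : (t ^ 460 / 2) ^ 2 = t ^ 920 / 4 := by ring
    have h2 : 0 < t ^ 920 := by positivity
    linarith
  -- `D A ≤ 2 t ^ 3150`
  have hDA : D * A ≤ 2 * t ^ 3150 := by
    apply le_of_sq (by positivity)
    have h1 : (D * A) ^ 2 = D * (t ^ 80 * P) := by
      rw [mul_pow, hA2]
      field_simp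
    rw [h1]
    have h2 : D * (t ^ 80 * P) ≤ (2 * t ^ 2200) * (t ^ 80 * t ^ 4020) := by
      apply mul_le_mul hD1 _ (by positivity) (by positivity)
      exact mul_le_mul_of_nonneg_left hP1 (by positivity)
    have h3 : (2 * t ^ 2200) * (t ^ 80 * t ^ 4020) = 2 * t ^ 6300 := by ring
    have h4 : (2 * t ^ 3150) ^ 2 = 4 * t ^ 6300 := by ring
    have h5 : 0 < t ^ 6300 := by positivity
    linarith
  -- `D A √A ≤ 2 t ^ 3625`
  have hDAA : D * A * √A ≤ 2 * t ^ 3625 := by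
    apply le_of_sq (by positivity)
    apply le_of_sq (by positivity)
    have h1 : ((D * A * √A) ^ 2) ^ 2 = D * (t ^ 80 * P) ^ 3 := by
      have e1 : ((D * A * √A) ^ 2) ^ 2 = D ^ 4 * (A ^ 2) ^ 2 * (√A ^ 2) ^ 2 := by ring
      rw [e1, hsA2]
      have e2 : D ^ 4 * (A ^ 2) ^ 2 * A ^ 2 = D ^ 4 * (A ^ 2) ^ 3 := by ring
      rw [e2, hA2]
      field_simp
    rw [h1]
    have h2 : D * (t ^ 80 * P) ^ 3 ≤ (2 * t ^ 2200) * (t ^ 80 * t ^ 4020) ^ 3 := by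
      apply mul_le_mul hD1 _ (by positivity) (by positivity)
      apply pow_le_pow_left₀ (by positivity)
      exact mul_le_mul_of_nonneg_left hP1 (by positivity)
    have h3 : (2 * t ^ 2200) * (t ^ 80 * t ^ 4020) ^ 3 = 2 * t ^ 14500 := by ring
    have h4 : ((2 * t ^ 3625) ^ 2) ^ 2 = 16 * t ^ 14500 := by ring
    have h5 : 0 < t ^ 14500 := by positivity
    linarith
  -- `P/√A ≤ 2 t ^ 3560`
  have hPA : P / √A ≤ 2 * t ^ 3560 := by
    rw [div_le_iff₀ hsA0]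
    have h1 : 2 * t ^ 3560 * (t ^ 460 / 2) ≤ 2 * t ^ 3560 * √A :=
      mul_le_mul_of_nonneg_left hsAlow (by positivity)
    have h2 : 2 * t ^ 3560 * (t ^ 460 / 2) = t ^ 4020 := by ring
    linarith
  have hsH : √H ≤ t ^ 10 := by
    rw [Real.sqrt_le_left (by positivity)]
    calc H ≤ t ^ 20 := hH
      _ = (t ^ 10) ^ 2 := by ring
  -- the three terms
  have hbig : 0 < t ^ 3956 := by positivity
  have T1 : 56 * (t ^ 4) ^ 2 * P / t ^ 80 ≤ t ^ 3956 / 3 := by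
    rw [div_le_iff₀ (by positivity)]
    have h1 : 56 * (t ^ 4) ^ 2 * P ≤ 56 * (t ^ 4) ^ 2 * t ^ 4020 :=
      mul_le_mul_of_nonneg_left hP1 (by positivity)
    have h2 : 56 * (t ^ 4) ^ 2 * t ^ 4020 = 56 * t ^ 4028 := by ring
    have h3 : (168 : ℝ) * t ^ 4028 ≤ t ^ 4036 := pw' ht1 (by linarith) (by norm_num)
    have h4 : t ^ 3956 / 3 * t ^ 80 = t ^ 4036 / 3 := by ring
    rw [h4]
    linarith
  have T2 : 2520 * (t ^ 4) ^ 2 * H * (D * A) ≤ t ^ 3956 / 3 := by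
    have h1 : 2520 * (t ^ 4) ^ 2 * H * (D * A) ≤ 2520 * (t ^ 4) ^ 2 * t ^ 20 * (2 * t ^ 3150) := by
      apply mul_le_mul _ hDA (by positivity) (by positivity)
      exact mul_le_mul_of_nonneg_left hH (by positivity)
    have h2 : 2520 * (t ^ 4) ^ 2 * t ^ 20 * (2 * t ^ 3150) = 5040 * t ^ 3178 := by ring
    have h3 : (15120 : ℝ) * t ^ 3178 ≤ t ^ 3956 := pw' ht1 (by linarith) (by norm_num)
    linarith
  have T3 : 1800 * q * (t ^ 4) ^ 6 * √H * (P / √A + D * A * √A) ≤ t ^ 3956 / 3 := by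
    have hmono : t ^ 3560 ≤ t ^ 3625 := pow_le_pow_right₀ ht1 (by norm_num)
    have h0 : P / √A + D * A * √A ≤ 4 * t ^ 3625 := by linarith
    have h1 : 1800 * q * (t ^ 4) ^ 6 * √H * (P / √A + D * A * √A) ≤
        1800 * t ^ 20 * (t ^ 4) ^ 6 * t ^ 10 * (4 * t ^ 3625) := by
      apply mul_le_mul _ h0 (by positivity) (by positivity)
      apply mul_le_mul _ hsH (by positivity) (by positivity)
      apply mul_le_mul_of_nonneg_right _ (by positivity)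
      exact mul_le_mul_of_nonneg_left hq (by norm_num)
    have h2 : 1800 * t ^ 20 * (t ^ 4) ^ 6 * t ^ 10 * (4 * t ^ 3625) = 7200 * t ^ 3679 := by ring
    have h3 : (21600 : ℝ) * t ^ 3679 ≤ t ^ 3956 := pw' ht1 ht (by norm_num)
    linarith
  linarith

end DYAM

open DYAM in
theorem specDYA (hDYB : SpecDYB) (hTBN : SpecTBN) : SpecDYA := by
  obtain ⟨N₁, hN₁⟩ := hTBN
  have hlim : Tendsto (fun N : ℕ => (N : ℝ) ^ (1 / 4000 : ℝ)) atTop atTop :=
    (tendsto_rpow_atTop (by norm_num : (0 : ℝ) < 1 / 4000)).comp tendsto_natCast_atTop_atTop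
  obtain ⟨N₂, hN₂⟩ := Filter.eventually_atTop.1
    ((hlim.eventually_ge_atTop 21600).and (eventually_ge_atTop 1))
  refine ⟨max N₁ N₂, fun N hN a ha haN q hq hqN h hh hhN P J hP0 hP1 hJ => ?_⟩
  obtain ⟨ht, hN1⟩ := hN₂ N (le_trans (le_max_right _ _) hN)
  have hTB := hN₁ N (le_trans (le_max_left _ _) hN)
  have hN0 : (0 : ℝ) ≤ N := by positivity
  set t : ℝ := (N : ℝ) ^ (1 / 4000 : ℝ) with htdef
  have ht1 : 1 ≤ t := by linarith
  have ht0 : 0 < t := by linarith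
  have hpow : ∀ (k : ℕ) (e : ℝ), e = k / 4000 → (N : ℝ) ^ e = t ^ k := by
    intro k e he
    rw [htdef, ← Real.rpow_natCast, ← Real.rpow_mul hN0, he]
    congr 1
    ring
  rw [hpow 4400 (11 / 10) (by norm_num)] at haN
  rw [hpow 20 (1 / 200) (by norm_num)] at hqN hhN
  rw [hpow 3960 (99 / 100) (by norm_num)] at hP0
  rw [hpow 4020 (1 + 1 / 200) (by norm_num)] at hP1
  rw [hpow 3956 (989 / 1000) (by norm_num)]
  rw [hpow 4 (1 / 1000) (by norm_num)] at hTB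
  simp only [hpow 16000 (4 : ℝ) (by norm_num)] at hTB
  -- `D`
  set D : ℕ := Nat.sqrt a.natAbs + 1 with hDdef
  have hD1 : 1 ≤ D := by omega
  have haD : a.natAbs ≤ D ^ 2 := by
    have := Nat.lt_succ_sqrt a.natAbs
    rw [hDdef, pow_two]
    exact this.le
  have hsq : ((Nat.sqrt a.natAbs : ℕ) : ℝ) ≤ t ^ 2200 := by
    apply le_of_sq (by positivity)
    have h1 : Nat.sqrt a.natAbs ^ 2 ≤ a.natAbs := Nat.sqrt_le' _
    have h2 : ((Nat.sqrt a.natAbs : ℕ) : ℝ) ^ 2 ≤ (a.natAbs : ℝ) := by exact_mod_cast h1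
    have h3 : (a.natAbs : ℝ) = |(a : ℝ)| := by
      rw [Nat.cast_natAbs]; push_cast; rfl
    have h4 : (t ^ 2200) ^ 2 = t ^ 4400 := by ring
    rw [h4]
    linarith
  have hDt : (D : ℝ) ≤ 2 * t ^ 2200 := by
    have h1 : (1 : ℝ) ≤ t ^ 2200 := one_le_pow₀ ht1
    rw [hDdef]
    push_cast
    linarith
  have hDr : (1 : ℝ) ≤ D := by exact_mod_cast hD1
  have hR : (1 : ℝ) ≤ t ^ 80 := one_le_pow₀ ht1
  have h16 : 16 * t ^ 80 * D ≤ P := by
    have h1 : 16 * t ^ 80 * (D : ℝ) ≤ 16 * t ^ 80 * (2 * t ^ 2200) :=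
      mul_le_mul_of_nonneg_left hDt (by positivity)
    have h2 : 16 * t ^ 80 * (2 * t ^ 2200) = 32 * t ^ 2280 := by ring
    have h3 : (64 : ℝ) * t ^ 2280 ≤ t ^ 3960 := pw' ht1 (by linarith) (by norm_num)
    linarith
  have hB : ((4 * P ^ 2 * (a.natAbs + 1) : ℕ) : ℝ) ≤ t ^ 16000 := by
    have h3 : (a.natAbs : ℝ) = |(a : ℝ)| := by
      rw [Nat.cast_natAbs]; push_cast; rfl
    push_cast
    rw [h3]
    have h4 : (1 : ℝ) ≤ t ^ 4400 := one_le_pow₀ ht1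
    have h5 : (P : ℝ) ^ 2 ≤ (t ^ 4020) ^ 2 := pow_le_pow_left₀ (by positivity) hP1 2
    have h6 : 4 * (P : ℝ) ^ 2 * (|(a : ℝ)| + 1) ≤ 4 * (t ^ 4020) ^ 2 * (2 * t ^ 4400) := by
      apply mul_le_mul _ (by linarith) (by positivity) (by positivity)
      exact mul_le_mul_of_nonneg_left h5 (by norm_num)
    have h7 : 4 * (t ^ 4020) ^ 2 * (2 * t ^ 4400) = 8 * t ^ 12440 := by ring
    have h8 : (8 : ℝ) * t ^ 12440 ≤ t ^ 16000 := pw' ht1 (by linarith) (by norm_num)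
    linarith
  have hmain := hDYB (t ^ 4) (t ^ 80) a h q P J D ha hh hq hD1 haD hR h16 hJ (hTB _ hB)
  refine hmain.trans ?_
  exact num ht hP0 hP1 hDr hDt (abs_nonneg _) hhN (by exact_mod_cast hq) hqN rfl

end

end Pool.Agent.Lib.MP391708.U.R
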