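import Pool.Agent.Lib.MP_391708_nt.U.R.SpecR

/-!
# Project U (MP_391708), part R, module DYB: the choice of `X` and `Y`
-/

set_option autoImplicit false

namespace Pool.Agent.Lib.MP391708.U.R

open Finset Filter Topology Pool.Agent.Lib.MP391708.QPA Pool.Agent.Lib.MP391708.U
open scoped Classical

noncomputable section

namespace DYBM

/-- the numerical part -/
lemma num {T R E x D P q h sh : ℝ} (hT : 1 ≤ T) (hR : 1 ≤ R) (hD : 1 ≤ D) (hP : 0 < P)
    (hq : 0 ≤ q) (hh : 0 ≤ h) (hsh : 0 ≤ sh) (hE : 4 ≤ E) (hx1 : E ≤ x) (hx2 : x ≤ 2 * E)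
    (hRP : R * P ≤ x * (D * x)) :
    50 * T ^ 2 * P ^ 2 / (x * (D * x)) + 3 * P / (x * (D * x)) *
      (2 * P * T + 420 * T ^ 2 * h * (x * (D * x) ^ 2) / P +
        200 * q * T ^ 6 * sh * ((D * x) * √x + (D * x) ^ 2 * (x * √x) / P)) ≤
    56 * T ^ 2 * P / R + 2520 * T ^ 2 * h * (D * E) +
      1800 * q * T ^ 6 * sh * (P / √E + D * E * √E) := by
  have hE0 : 0 < E := by linarith
  have hx0 : 0 < x := by linarith
  have hD0 : 0 < D := by linarith
  have hR0 : 0 < R := by linarith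
  have hT0 : 0 < T := by linarith
  have hsE : 0 < √E := Real.sqrt_pos.2 hE0
  have hsx : 0 < √x := Real.sqrt_pos.2 hx0
  have hsx2 : √x * √x = x := Real.mul_self_sqrt hx0.le
  have hw : 0 < x * (D * x) := by positivity
  have hsplit : 50 * T ^ 2 * P ^ 2 / (x * (D * x)) + 3 * P / (x * (D * x)) *
      (2 * P * T + 420 * T ^ 2 * h * (x * (D * x) ^ 2) / P +
        200 * q * T ^ 6 * sh * ((D * x) * √x + (D * x) ^ 2 * (x * √x) / P)) =
      (50 * T ^ 2 + 6 * T) * (P ^ 2 / (x * (D * x))) + 1260 * T ^ 2 * h * (D * x) +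
      600 * q * T ^ 6 * sh * (P * (√x / x)) + 600 * q * T ^ 6 * sh * ((D * x) * √x) := by
    field_simp
    ring
  rw [hsplit]
  have h1 : (50 * T ^ 2 + 6 * T) * (P ^ 2 / (x * (D * x))) ≤ 56 * T ^ 2 * P / R := by
    have h2 : P ^ 2 / (x * (D * x)) ≤ P / R := by
      rw [div_le_div_iff₀ hw hR0]
      nlinarith [mul_le_mul_of_nonneg_left hRP hP.le]
    have h3 : 50 * T ^ 2 + 6 * T ≤ 56 * T ^ 2 := by nlinarith
    calc (50 * T ^ 2 + 6 * T) * (P ^ 2 / (x * (D * x)))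
        ≤ (56 * T ^ 2) * (P / R) :=
          mul_le_mul h3 h2 (by positivity) (by positivity)
      _ = 56 * T ^ 2 * P / R := by ring
  have h4 : 1260 * T ^ 2 * h * (D * x) ≤ 2520 * T ^ 2 * h * (D * E) := by
    have h5 : D * x ≤ D * (2 * E) := mul_le_mul_of_nonneg_left hx2 hD0.le
    have h6 : 0 ≤ 1260 * T ^ 2 * h := by positivity
    have h7 := mul_le_mul_of_nonneg_left h5 h6
    linarith
  have hc : 0 ≤ 600 * q * T ^ 6 * sh := by positivity
  have h8 : P * (√x / x) ≤ P / √E := by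
    have h9 : √x / x = 1 / √x := by
      rw [div_eq_div_iff hx0.ne' hsx.ne', hsx2, one_mul]
    rw [h9, div_eq_mul_one_div P]
    apply mul_le_mul_of_nonneg_left _ hP.le
    exact one_div_le_one_div_of_le hsE (Real.sqrt_le_sqrt hx1)
  have h10 : (D * x) * √x ≤ 3 * (D * E * √E) := by
    have h11 : √x ≤ 3 / 2 * √E := by
      rw [Real.sqrt_le_iff]
      refine ⟨by positivity, ?_⟩
      rw [mul_pow, Real.sq_sqrt hE0.le]
      nlinarith
    have h12 : D * x ≤ D * (2 * E) := mul_le_mul_of_nonneg_left hx2 hD0.le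
    calc (D * x) * √x ≤ (D * (2 * E)) * (3 / 2 * √E) :=
          mul_le_mul h12 h11 hsx.le (by positivity)
      _ = 3 * (D * E * √E) := by ring
  have h13 := mul_le_mul_of_nonneg_left h8 hc
  have h14 := mul_le_mul_of_nonneg_left h10 hc
  have h15 : 0 ≤ 600 * q * T ^ 6 * sh * (P / √E) := by positivity
  have h16 : 1800 * q * T ^ 6 * sh * (P / √E + D * E * √E) =
      3 * (600 * q * T ^ 6 * sh * (P / √E)) + 600 * q * T ^ 6 * sh * (3 * (D * E * √E)) := by
    ring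
  rw [h16]
  linarith

end DYBM

theorem specDYB (hSBD : SpecSBD) : SpecDYB := by
  intro T R a h q P J D ha hh hq hD haD hR hRD hJ hTB
  have hT : 1 ≤ T := hTB.1
  obtain ⟨E, hE⟩ : ∃ E : ℝ, E = √(R * P / D) := ⟨_, rfl⟩
  rw [← hE]
  have hDr : (1 : ℝ) ≤ D := by exact_mod_cast hD
  have hD0 : (0 : ℝ) < D := by linarith
  have hR0 : 0 < R := by linarith
  have hRD1 : 1 ≤ R * D := by nlinarith
  have hP0 : (0 : ℝ) < P := by nlinarith
  have hE2 : E ^ 2 = R * P / D := by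
    rw [hE, Real.sq_sqrt]
    positivity
  have hE2' : D * E ^ 2 = R * P := by
    rw [hE2]
    field_simp
  have hE4 : 4 * R ≤ E := by
    rw [hE]
    apply Real.le_sqrt_of_sq_le
    rw [le_div_iff₀ hD0]
    nlinarith [mul_le_mul_of_nonneg_left hRD hR0.le]
  have hE40 : 4 ≤ E := by linarith
  have hE0 : 0 < E := by linarith
  obtain ⟨X, hX⟩ : ∃ X : ℕ, X = ⌈E⌉₊ := ⟨_, rfl⟩
  have hX1 : E ≤ X := by
    rw [hX]
    exact Nat.le_ceil E
  have hX2 : (X : ℝ) ≤ 2 * E := by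
    have := Nat.ceil_lt_add_one hE0.le
    rw [← hX] at this
    linarith
  have hXpos : 1 ≤ X := by
    have : (1 : ℝ) ≤ X := by linarith
    exact_mod_cast this
  have hX0 : (0 : ℝ) < X := by linarith
  have hRP : R * P ≤ (X : ℝ) * ((D : ℝ) * X) := by
    rw [← hE2']
    have h1 : E ^ 2 ≤ (X : ℝ) ^ 2 := pow_le_pow_left₀ hE0.le hX1 2
    nlinarith [mul_le_mul_of_nonneg_left h1 hD0.le]
  have hXY : X ≤ D * X := Nat.le_mul_of_pos_left X (by omega)
  have hYP : D * X ≤ P := by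
    have h1 : 2 * (D : ℝ) * E ≤ P := by
      have h2 : (2 * (D : ℝ) * E) ^ 2 ≤ (P : ℝ) ^ 2 := by
        have h3 : (2 * (D : ℝ) * E) ^ 2 = 4 * (D * R) * P := by
          have : (2 * (D : ℝ) * E) ^ 2 = 4 * D * (D * E ^ 2) := by ring
          rw [this, hE2']
          ring
        rw [h3]
        nlinarith [mul_le_mul_of_nonneg_right hRD hP0.le]
      exact (pow_le_pow_iff_left₀ (by positivity) hP0.le two_ne_zero).1 h2
    have h4 : ((D * X : ℕ) : ℝ) ≤ P := by
      push_cast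
      have := mul_le_mul_of_nonneg_left hX2 hD0.le
      linarith
    exact_mod_cast h4
  have hPXY : P ≤ X * (D * X) := by
    have h1 : (P : ℝ) ≤ ((X * (D * X) : ℕ) : ℝ) := by
      push_cast
      nlinarith
    exact_mod_cast h1
  have haXY : a.natAbs * X ^ 2 ≤ (D * X) ^ 2 := by
    rw [mul_pow]
    exact Nat.mul_le_mul_right _ haD
  have h1 := hSBD T a h q P J X (D * X) ha hh hq hXpos hXY hYP hPXY hJ haXY hTB
  refine h1.trans ?_
  have h2 := DYBM.num (T := T) (R := R) (E := E) (x := X) (D := D) (P := P) (q := q)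
    (h := |(h : ℝ)|) (sh := √|(h : ℝ)|) hT hR hDr hP0 (Nat.cast_nonneg q) (abs_nonneg _)
    (Real.sqrt_nonneg _) hE40 hX1 hX2 hRP
  unfold ubd
  push_cast
  exact h2

end

end Pool.Agent.Lib.MP391708.U.R
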