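import Pool.Agent.Lib.MP_391708_nt.U.R.SpecR

set_option autoImplicit false

namespace Pool.Agent.Lib.MP391708.U.R

open Finset Filter Topology Pool.Agent.Lib.MP391708.QPA Pool.Agent.Lib.MP391708.U
open scoped Classical

theorem specEXC (hWTI : SpecWTI) (hFBD : SpecFBD) (hCO1 : SpecCO1) (hCO2 : SpecCO2) : SpecEXC := by
  intro T a X Y P ha hX hXY hP hT
  have hY : 1 ≤ Y := hX.trans hXY
  have hX0 : (0 : ℝ) < X := by exact_mod_cast hX
  have hY0 : (0 : ℝ) < Y := by exact_mod_cast hY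
  have hXY0 : (0 : ℝ) < (X : ℝ) * Y := mul_pos hX0 hY0
  obtain ⟨hbX, hX00, -, -⟩ := hFBD X hX
  obtain ⟨hbY, hY00, -, -⟩ := hFBD Y hY
  have key : ∀ m : ℕ, 1 ≤ m → ∀ ν : ℕ, |(m : ℝ) * Wt X Y m ν / (X * Y) - 1| =
      (∑ k ∈ Ioo 0 m, fej Y ((k : ℝ) / m) * fej X ((k : ℝ) * ν / m)) / (X * Y) := by
    intro m hm ν
    have hm0 : (m : ℝ) ≠ 0 := by
      have : (0 : ℝ) < m := by exact_mod_cast hm
      exact this.ne'
    have h1 : (m : ℝ) * Wt X Y m ν =
        ∑ k ∈ range m, fej Y ((k : ℝ) / m) * fej X ((k : ℝ) * ν / m) := by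
      rw [hWTI X Y m ν hX hY hm, ← mul_assoc, mul_one_div_cancel hm0, one_mul]
    have h2 : range m = insert 0 (Ioo 0 m) := by
      ext k; simp only [mem_range, mem_insert, mem_Ioo]; omega
    have h3 : (0 : ℕ) ∉ Ioo 0 m := by simp
    rw [h1, h2, Finset.sum_insert h3]
    have h4 : fej Y (((0 : ℕ) : ℝ) / m) * fej X (((0 : ℕ) : ℝ) * ν / m) = (X : ℝ) * Y := by
      simp only [Nat.cast_zero, zero_div, zero_mul]
      rw [hX00, hY00]; ring
    rw [h4, add_div, div_self hXY0.ne', add_sub_cancel_left]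
    apply abs_of_nonneg
    apply div_nonneg _ hXY0.le
    exact Finset.sum_nonneg (fun k _ => mul_nonneg (hbY _).1 (hbX _).1)
  have h5 : ∑ m ∈ Ioc P (2 * P), ∑ ν ∈ rt a m, |(m : ℝ) * Wt X Y m ν / (X * Y) - 1| ≤
      ∑ m ∈ Ioc P (2 * P), cov a X Y P m / (X * Y) := by
    apply Finset.sum_le_sum
    intro m hm
    rw [mem_Ioc] at hm
    have hm1 : 1 ≤ m := by omega
    rw [Finset.sum_congr rfl (fun ν _ => key m hm1 ν), ← Finset.sum_div]
    exact div_le_div_of_nonneg_right (hCO1 a X Y P m hX hY hm.1 hm.2) hXY0.le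
  refine h5.trans ?_
  rw [← Finset.sum_div]
  exact div_le_div_of_nonneg_right (hCO2 T a X Y P ha hX hXY hP hT) hXY0.le

end Pool.Agent.Lib.MP391708.U.R
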