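import Pool.Agent.Lib.MP_391708_nt.U.R.SpecR

/-!
# Project U (MP_391708), part R: bounds for the Fejér kernel (FBD)
-/

set_option autoImplicit false

namespace Pool.Agent.Lib.MP391708.U.R

open Finset Filter Topology Pool.Agent.Lib.MP391708.QPA Pool.Agent.Lib.MP391708.U
open scoped Classical

noncomputable section

namespace FBDM

theorem ex_mul_nat (j : ℕ) (t : ℝ) : ex ((j : ℝ) * t) = ex t ^ j := by
  unfold ex
  rw [← Complex.exp_nat_mul]
  congr 1
  push_cast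
  ring

theorem norm_ex_sub_one (t : ℝ) : ‖ex t - 1‖ = 2 * |Real.sin (Real.pi * t)| := by
  have h : ex t = Complex.exp (Complex.I * ((2 * Real.pi * t : ℝ) : ℂ)) := by
    unfold ex
    congr 1
    push_cast
    ring
  rw [h, Complex.norm_exp_I_mul_ofReal_sub_one, Real.norm_eq_abs, abs_mul, abs_two]
  congr 3
  ring

theorem four_mul_le {t : ℝ} (h : |t| ≤ 1 / 2) : 4 * |t| ≤ ‖ex t - 1‖ := by
  rw [norm_ex_sub_one]
  have h0 : 0 ≤ |t| := abs_nonneg t
  have hpi := Real.pi_pos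
  have h1 : 2 / Real.pi * (Real.pi * |t|) ≤ Real.sin (Real.pi * |t|) :=
    Real.mul_le_sin (by positivity) (by nlinarith)
  have h2 : 2 / Real.pi * (Real.pi * |t|) = 2 * |t| := by
    field_simp
  rw [h2] at h1
  have h3 : Real.sin (Real.pi * |t|) ≤ |Real.sin (Real.pi * t)| := by
    rcases abs_cases t with ⟨h4, _⟩ | ⟨h4, _⟩
    · rw [h4]
      exact le_abs_self _
    · rw [h4, mul_neg, Real.sin_neg]
      exact neg_le_abs _
  linarith

theorem sum_le {L : ℕ} {t : ℝ} (h : |t| ≤ 1 / 2) :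
    ‖∑ j ∈ range L, ex ((j : ℝ) * t)‖ * (2 * |t|) ≤ 1 := by
  have h1 : (∑ j ∈ range L, ex ((j : ℝ) * t)) * (ex t - 1) = ex t ^ L - 1 := by
    rw [← geom_sum_mul]
    congr 1
    exact Finset.sum_congr rfl fun j _ => ex_mul_nat j t
  have h2 : ‖ex t ^ L - 1‖ ≤ 2 := by
    calc ‖ex t ^ L - 1‖ ≤ ‖ex t ^ L‖ + ‖(1 : ℂ)‖ := norm_sub_le _ _
      _ = 2 := by rw [norm_pow, norm_ex, one_pow, norm_one]; norm_num
  rw [← h1, norm_mul] at h2
  have h3 := four_mul_le h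
  have h4 : 0 ≤ ‖∑ j ∈ range L, ex ((j : ℝ) * t)‖ := norm_nonneg _
  nlinarith

end FBDM

open FBDM

theorem specFBD : SpecFBD := by
  intro L hL
  have hL0 : (0 : ℝ) < L := by exact_mod_cast hL
  refine ⟨fun t => ⟨by unfold fej; positivity, ?_⟩, ?_, ?_, ?_⟩
  · unfold fej
    rw [div_le_iff₀ hL0]
    have h1 : ‖∑ j ∈ range L, ex ((j : ℝ) * t)‖ ≤ L := by
      calc ‖∑ j ∈ range L, ex ((j : ℝ) * t)‖ ≤ ∑ j ∈ range L, ‖ex ((j : ℝ) * t)‖ :=
            norm_sum_le _ _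
        _ = L := by simp [norm_ex]
    have h0 := norm_nonneg (∑ j ∈ range L, ex ((j : ℝ) * t))
    nlinarith
  · unfold fej
    have h1 : (∑ j ∈ range L, ex ((j : ℝ) * 0)) = (L : ℂ) := by
      simp [ex_zero]
    rw [h1, Complex.norm_natCast]
    field_simp
  · intro m z y hm hzy
    unfold fej
    congr 3
    refine Finset.sum_congr rfl fun j _ => ?_
    obtain ⟨c, hc⟩ := hzy
    have hm0 : (m : ℝ) ≠ 0 := by
      have : (0 : ℝ) < m := by exact_mod_cast hm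
      exact this.ne'
    have hz : (z : ℝ) = y + m * c := by
      have : z = y + m * c := by linarith
      rw [this]
      push_cast
      ring
    have h1 : (j : ℝ) * ((z : ℝ) / m) = (j : ℝ) * ((y : ℝ) / m) + (((j : ℤ) * c : ℤ) : ℝ) := by
      rw [hz]
      push_cast
      field_simp
    rw [h1, ex_add, ex_int, mul_one]
  · intro m y hm hy hym
    have hm0 : (0 : ℝ) < m := by exact_mod_cast hm
    have hy0 : (0 : ℝ) < |(y : ℝ)| := abs_pos.2 (by exact_mod_cast hy)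
    have habs : |(y : ℝ) / m| = |(y : ℝ)| / m := by
      rw [abs_div, abs_of_pos hm0]
    have hle : |(y : ℝ) / m| ≤ 1 / 2 := by
      rw [habs, div_le_div_iff₀ hm0 two_pos]
      have : (2 : ℝ) * |(y : ℝ)| ≤ m := by exact_mod_cast hym
      linarith
    have h1 := sum_le (L := L) hle
    rw [habs] at h1
    have h0 := norm_nonneg (∑ j ∈ range L, ex ((j : ℝ) * ((y : ℝ) / m)))
    unfold fej
    have h2 : ‖∑ j ∈ range L, ex ((j : ℝ) * ((y : ℝ) / m))‖ ≤ m / (2 * |(y : ℝ)|) := by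
      rw [le_div_iff₀ (by positivity)]
      have h3 : ‖∑ j ∈ range L, ex ((j : ℝ) * ((y : ℝ) / m))‖ * (2 * (|(y : ℝ)| / m)) * m ≤ 1 * m :=
        mul_le_mul_of_nonneg_right h1 hm0.le
      have h4 : |(y : ℝ)| / m * m = |(y : ℝ)| := div_mul_cancel₀ _ hm0.ne'
      nlinarith
    have h3 : ‖∑ j ∈ range L, ex ((j : ℝ) * ((y : ℝ) / m))‖ ^ 2 ≤ (m / (2 * |(y : ℝ)|)) ^ 2 :=
      pow_le_pow_left₀ h0 h2 2
    calc ‖∑ j ∈ range L, ex ((j : ℝ) * ((y : ℝ) / m))‖ ^ 2 / L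
        ≤ (m / (2 * |(y : ℝ)|)) ^ 2 / L := by
          apply div_le_div_of_nonneg_right h3 hL0.le
      _ = (m : ℝ) ^ 2 / (4 * L * (y : ℝ) ^ 2) := by
          rw [← sq_abs (y : ℝ)]
          field_simp
          ring

end

end Pool.Agent.Lib.MP391708.U.R
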