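import Pool.Agent.Lib.MP_391708_nt.U.R.SpecR

/-!
# Project U, part R, module FCG: the tent in a residue class
-/

set_option autoImplicit false

namespace Pool.Agent.Lib.MP391708.U.R

open Finset Filter Topology Pool.Agent.Lib.MP391708.QPA Pool.Agent.Lib.MP391708.U
open scoped Classical

noncomputable section

namespace FCGM

/-- orthogonality -/
lemma orth (m : ℕ) (z : ℤ) (hm : 1 ≤ m) :
    ∑ k ∈ range m, ex ((k : ℝ) * z / m) = if (m : ℤ) ∣ z then (m : ℂ) else 0 := by
  have hm0 : (m : ℂ) ≠ 0 := by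
    have : m ≠ 0 := by omega
    exact_mod_cast this
  obtain ⟨w, hw⟩ : ∃ w : ℂ, w = Complex.exp (2 * Real.pi * Complex.I * ((z : ℂ) / m)) := ⟨_, rfl⟩
  have hk : ∀ k : ℕ, ex ((k : ℝ) * z / m) = w ^ k := by
    intro k
    rw [hw, ← Complex.exp_nat_mul]
    unfold ex
    congr 1
    push_cast
    ring
  rw [Finset.sum_congr rfl (fun k _ => hk k)]
  split_ifs with h
  · obtain ⟨t, rfl⟩ := h
    have h1 : w = 1 := by
      rw [hw]
      have : (((m : ℤ) * t : ℤ) : ℂ) / m = (t : ℂ) := by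
        push_cast
        field_simp
      rw [this]
      have h2 := Complex.exp_int_mul_two_pi_mul_I t
      rw [← h2]
      congr 1
      ring
    rw [h1]
    simp
  · have h1 : w ≠ 1 := by
      intro h2
      rw [hw, Complex.exp_eq_one_iff] at h2
      obtain ⟨n, hn⟩ := h2
      apply h
      refine ⟨n, ?_⟩
      have h3 : (2 * Real.pi * Complex.I : ℂ) ≠ 0 := Complex.two_pi_I_ne_zero
      have h4 : (z : ℂ) / m = n := by
        have h5 : (2 * Real.pi * Complex.I : ℂ) * ((z : ℂ) / m) = (2 * Real.pi * Complex.I) * n := by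
          rw [hn]; ring
        exact mul_left_cancel₀ h3 h5
      rw [div_eq_iff hm0] at h4
      have h6 : ((z : ℤ) : ℂ) = ((m * n : ℤ) : ℂ) := by
        push_cast
        rw [h4]; ring
      exact_mod_cast h6
    have h2 : w ^ m = 1 := by
      rw [hw, ← Complex.exp_nat_mul]
      have h3 := Complex.exp_int_mul_two_pi_mul_I z
      rw [← h3]
      congr 1
      field_simp
    rw [geom_sum_eq h1, h2, sub_self, zero_div]

end FCGM

theorem specFCG (hFTR : SpecFTR) : SpecFCG := by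
  intro L m r hL hm
  have hm0 : (m : ℂ) ≠ 0 := by
    have : m ≠ 0 := by omega
    exact_mod_cast this
  push_cast
  have h1 : ∀ y : ℤ, (((if (m : ℤ) ∣ y - r then tri L y else 0 : ℝ)) : ℂ) =
      (1 / (m : ℂ)) * ∑ k ∈ range m, ((tri L y : ℂ) * ex ((y : ℝ) * ((k : ℝ) / m))) *
        ex (-((k : ℝ) * r) / m) := by
    intro y
    have h2 : ∀ k : ℕ, ((tri L y : ℂ) * ex ((y : ℝ) * ((k : ℝ) / m))) * ex (-((k : ℝ) * r) / m) =
        (tri L y : ℂ) * ex ((k : ℝ) * ((y - r : ℤ) : ℝ) / m) := by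
      intro k
      rw [mul_assoc, ← ex_add]
      congr 2
      push_cast
      ring
    rw [Finset.sum_congr rfl (fun k _ => h2 k), ← Finset.mul_sum, FCGM.orth m (y - r) hm]
    split_ifs
    · field_simp
    · simp
  have h3 : ∑ y ∈ Ioo (-(L : ℤ)) L, (((if (m : ℤ) ∣ y - r then tri L y else 0 : ℝ)) : ℂ) =
      (1 / (m : ℂ)) * ∑ k ∈ range m, (fej L ((k : ℝ) / m) : ℂ) * ex (-((k : ℝ) * r) / m) := by
    rw [Finset.sum_congr rfl (fun y _ => h1 y), ← Finset.mul_sum, Finset.sum_comm]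
    congr 1
    refine Finset.sum_congr rfl fun k _ => ?_
    rw [← Finset.sum_mul, hFTR L ((k : ℝ) / m) hL]
  exact h3

end

end Pool.Agent.Lib.MP391708.U.R
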