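import Pool.Agent.Lib.MP_391708_nt.U.R.SpecR

/-!
# Project U (MP_391708), part R, module GSM: geometric sums in a progression, on average
-/

set_option autoImplicit false

namespace Pool.Agent.Lib.MP391708.U.R

open Finset Filter Topology Pool.Agent.Lib.MP391708.QPA Pool.Agent.Lib.MP391708.U
open Pool.Agent.Lib.MP_1446ad_nt.SM (tau uu vv kc SpecKLB SpecDEC)
open scoped Classical

noncomputable section

namespace GSMM

theorem sum_mul_coprime (F : ℕ → ℝ) (x' q' : ℕ) (hx : 0 < x') (hc : Nat.Coprime q' x')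
    (hF : ∀ n, F (n % x') = F n) : ∑ k ∈ range x', F (k * q') = ∑ j ∈ range x', F j := by
  have hinj : Set.InjOn (fun k => k * q' % x') (range x' : Set ℕ) := by
    intro k hk l hl h
    have hk' := mem_range.1 (mem_coe.1 hk)
    have hl' := mem_range.1 (mem_coe.1 hl)
    have h1 : k * q' ≡ l * q' [MOD x'] := h
    have h2 : k ≡ l [MOD x'] := Nat.ModEq.cancel_right_of_coprime
      (by rw [Nat.gcd_comm]; exact hc) h1
    have h3 : k % x' = l % x' := h2
    rwa [Nat.mod_eq_of_lt hk', Nat.mod_eq_of_lt hl'] at h3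
  have himg : (range x').image (fun k => k * q' % x') = range x' := by
    refine Finset.eq_of_subset_of_card_le ?_ ?_
    · intro j hj
      obtain ⟨k, _, rfl⟩ := mem_image.1 hj
      exact mem_range.2 (Nat.mod_lt _ hx)
    · rw [Finset.card_image_of_injOn hinj]
  calc ∑ k ∈ range x', F (k * q') = ∑ k ∈ range x', F (k * q' % x') :=
        sum_congr rfl (fun k _ => (hF _).symm)
    _ = ∑ j ∈ (range x').image (fun k => k * q' % x'), F j := (sum_image hinj).symm
    _ = _ := by rw [himg]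

theorem sum_mul_period (F : ℕ → ℝ) (x' g q' : ℕ)
    (hF : ∀ n, F (n % x') = F n) :
    ∑ k ∈ range (g * x'), F (k * q') = g * ∑ k ∈ range x', F (k * q') := by
  induction g with
  | zero => simp
  | succ g ih =>
    rw [Nat.succ_mul, Finset.sum_range_add, ih]
    have h1 : ∑ k ∈ range x', F ((g * x' + k) * q') = ∑ k ∈ range x', F (k * q') := by
      refine sum_congr rfl (fun k _ => ?_)
      rw [← hF ((g * x' + k) * q'), ← hF (k * q')]
      congr 1
      have : (g * x' + k) * q' = k * q' + x' * (g * q') := by ring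
      rw [this, Nat.add_mul_mod_self_left]
    rw [h1]
    push_cast
    ring

/-- the geometric sum -/
def G (K x' n : ℕ) : ℝ := ‖∑ t ∈ range K, ex ((t : ℝ) * ((n : ℝ) / x'))‖

theorem G_mod (K x' n : ℕ) (hx : 0 < x') : G K x' (n % x') = G K x' n := by
  unfold G
  congr 1
  refine sum_congr rfl (fun t _ => ?_)
  have hx0 : (x' : ℝ) ≠ 0 := by exact_mod_cast hx.ne'
  have h1 : (n : ℝ) = x' * ((n / x' : ℕ) : ℝ) + ((n % x' : ℕ) : ℝ) := by
    exact_mod_cast (Nat.div_add_mod n x').symm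
  have h2 : (t : ℝ) * ((n : ℝ) / x')
      = (t : ℝ) * (((n % x' : ℕ) : ℝ) / x') + (((t * (n / x') : ℕ) : ℤ) : ℝ) := by
    rw [Int.cast_natCast, Nat.cast_mul]
    conv_lhs => rw [h1]
    field_simp
    ring
  rw [h2, ex_add, ex_int, mul_one]

theorem G_le (hB : SpecFBD) (K x' j : ℕ) (hK : 1 ≤ K) (hj : 0 < j) (hjx : j < x') :
    G K x' j ≤ (x' : ℝ) / 2 * (1 / j + 1 / ((x' : ℝ) - j)) := by
  obtain ⟨_, _, hb3, hb4⟩ := hB K hK
  have hx1 : 1 ≤ x' := by omega
  have hx0 : (0 : ℝ) < x' := by exact_mod_cast hx1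
  have hj0 : (0 : ℝ) < j := by exact_mod_cast hj
  have hjx' : (0 : ℝ) < (x' : ℝ) - j := by
    have : (j : ℝ) < x' := by exact_mod_cast hjx
    linarith
  have hK0 : (0 : ℝ) < K := by exact_mod_cast hK
  have hfe : G K x' j ^ 2 = K * fej K ((j : ℝ) / x') := by
    unfold G fej
    rw [mul_div_assoc', mul_div_cancel_left₀ _ hK0.ne']
  have hGn : 0 ≤ G K x' j := norm_nonneg _
  -- from a representative `y`
  have main : ∀ y : ℤ, y ≠ 0 → 2 * |y| ≤ x' → fej K ((j : ℝ) / x') = fej K ((y : ℝ) / x') →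
      G K x' j ≤ x' / (2 * |(y : ℝ)|) := by
    intro y hy0 hy1 hy2
    have h1 := hb4 x' y hx1 hy0 hy1
    have hyR : (0 : ℝ) < |(y : ℝ)| := abs_pos.2 (by exact_mod_cast hy0)
    have h2 : G K x' j ^ 2 ≤ (x' / (2 * |(y : ℝ)|)) ^ 2 := by
      rw [hfe, hy2]
      refine (mul_le_mul_of_nonneg_left h1 hK0.le).trans (le_of_eq ?_)
      rw [div_pow, mul_pow, sq_abs]
      have : (y : ℝ) ≠ 0 := by exact_mod_cast hy0
      field_simp
      norm_num
    exact le_of_sq_le_sq h2 (by positivity)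
  rcases le_or_gt (2 * j) x' with hc | hc
  · have h1 := main (j : ℤ) (by omega) (by
      rw [abs_of_nonneg (by omega)]
      exact_mod_cast hc) (by rw [Int.cast_natCast])
    refine h1.trans ?_
    rw [Int.cast_natCast, abs_of_pos hj0]
    have h2 : (x' : ℝ) / (2 * j) = (x' : ℝ) / 2 * (1 / j) := by
      field_simp
    rw [h2]
    refine mul_le_mul_of_nonneg_left ?_ (by positivity)
    have : 0 ≤ 1 / ((x' : ℝ) - j) := by positivity
    linarith
  · have h1 := main ((j : ℤ) - x') (by omega) (by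
      rw [abs_of_nonpos (by omega)]
      omega) (by
      have := hb3 x' (j : ℤ) ((j : ℤ) - x') hx1 ⟨1, by ring⟩
      rw [Int.cast_natCast] at this
      exact this)
    refine h1.trans ?_
    have h3 : |(((j : ℤ) - x' : ℤ) : ℝ)| = (x' : ℝ) - j := by
      push_cast
      rw [abs_of_nonpos (by linarith)]
      ring
    rw [h3]
    have h2 : (x' : ℝ) / (2 * ((x' : ℝ) - j)) = (x' : ℝ) / 2 * (1 / ((x' : ℝ) - j)) := by
      field_simp
    rw [h2]
    refine mul_le_mul_of_nonneg_left ?_ (by positivity)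
    have : 0 ≤ 1 / (j : ℝ) := by positivity
    linarith

theorem harm (n : ℕ) : ∑ i ∈ range n, (1 / ((i : ℝ) + 1)) ≤ 1 + Real.log ((n : ℝ) + 1) := by
  have h1 := harmonic_le_one_add_log n
  have h2 : ((harmonic n : ℚ) : ℝ) = ∑ i ∈ range n, (1 / ((i : ℝ) + 1)) := by
    unfold harmonic
    push_cast
    refine sum_congr rfl (fun i _ => ?_)
    rw [one_div]
  rw [h2] at h1
  refine h1.trans ?_
  have h3 : Real.log n ≤ Real.log ((n : ℝ) + 1) := by
    rcases Nat.eq_zero_or_pos n with h | h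
    · rw [h]
      simp
    · exact Real.log_le_log (by exact_mod_cast h) (by linarith)
  linarith

theorem G_sum (hB : SpecFBD) (K x' : ℕ) (hK : 1 ≤ K) (hx : 1 ≤ x') :
    ∑ j ∈ range x', G K x' j ≤ K + x' * (1 + Real.log x') := by
  obtain ⟨n, rfl⟩ : ∃ n, x' = n + 1 := ⟨x' - 1, by omega⟩
  rw [sum_range_succ']
  have h0 : G K (n + 1) 0 = K := by
    unfold G
    simp [ex_zero]
  rw [h0]
  have h1 : ∑ i ∈ range n, G K (n + 1) (i + 1)
      ≤ ∑ i ∈ range n, ((n + 1 : ℕ) : ℝ) / 2 * (1 / ((i : ℝ) + 1) + 1 / (((n - 1 - i : ℕ) : ℝ) + 1)) := by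
    refine sum_le_sum (fun i hi => ?_)
    have hi' := mem_range.1 hi
    refine (G_le hB K (n + 1) (i + 1) hK (by omega) (by omega)).trans (le_of_eq ?_)
    have h2 : (((n - 1 - i : ℕ) : ℝ) + 1) = ((n + 1 : ℕ) : ℝ) - ((i + 1 : ℕ) : ℝ) := by
      have : ((n - 1 - i : ℕ) : ℤ) = (n : ℤ) - 1 - i := by omega
      have h3 : ((n - 1 - i : ℕ) : ℝ) = (n : ℝ) - 1 - i := by exact_mod_cast this
      rw [h3]
      push_cast
      ring
    rw [h2]
    push_cast
    ring
  have h2 : ∑ i ∈ range n, (1 / (((n - 1 - i : ℕ) : ℝ) + 1)) = ∑ i ∈ range n, (1 / ((i : ℝ) + 1)) :=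
    sum_range_reflect (fun i : ℕ => 1 / ((i : ℝ) + 1)) n
  rw [← mul_sum, sum_add_distrib, h2] at h1
  have h3 := harm n
  have h4 : ((n + 1 : ℕ) : ℝ) / 2 * (∑ i ∈ range n, (1 / ((i : ℝ) + 1)) + ∑ i ∈ range n, (1 / ((i : ℝ) + 1)))
      ≤ ((n + 1 : ℕ) : ℝ) * (1 + Real.log ((n + 1 : ℕ) : ℝ)) := by
    push_cast
    have h5 : (0 : ℝ) ≤ (n : ℝ) + 1 := by positivity
    nlinarith
  linarith

end GSMM

open GSMM in
/-- GSM. -/
theorem specGSM (hB : SpecFBD) : SpecGSM := by
  intro x q K hx hq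
  have hlogx : 0 ≤ Real.log x := Real.log_natCast_nonneg x
  rcases Nat.eq_zero_or_pos K with hK | hK
  · subst hK
    simp only [range_zero, sum_empty, norm_zero, sum_const_zero]
    positivity
  set g : ℕ := Nat.gcd q x with hg
  have hg0 : 0 < g := Nat.gcd_pos_of_pos_left _ hq
  obtain ⟨q', hq'⟩ : g ∣ q := Nat.gcd_dvd_left q x
  obtain ⟨x', hx'⟩ : g ∣ x := Nat.gcd_dvd_right q x
  have hx0 : 1 ≤ x' := by
    rcases Nat.eq_zero_or_pos x' with h | h
    · rw [h, mul_zero] at hx'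
      omega
    · exact h
  have hco : Nat.Coprime q' x' := by
    have h1 := Nat.coprime_div_gcd_div_gcd (m := q) (n := x) (by rw [← hg]; exact hg0)
    rw [← hg] at h1
    have h2 : q / g = q' := by
      rw [hq']
      exact Nat.mul_div_cancel_left _ hg0
    have h3 : x / g = x' := by
      rw [hx']
      exact Nat.mul_div_cancel_left _ hg0
    rwa [h2, h3] at h1
  have hgR : (0 : ℝ) < g := by exact_mod_cast hg0
  have hxR : (0 : ℝ) < x' := by exact_mod_cast hx0
  have h1 : ∀ k ∈ range x, ‖∑ t ∈ range K, ex ((k : ℝ) * (q * t) / x)‖ = G K x' (k * q') := by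
    intro k _
    unfold G
    congr 1
    refine sum_congr rfl (fun t _ => ?_)
    congr 1
    have e1 : (q : ℝ) = g * q' := by exact_mod_cast hq'
    have e2 : (x : ℝ) = g * x' := by exact_mod_cast hx'
    rw [e1, e2]
    push_cast
    field_simp
  rw [sum_congr rfl h1]
  have h2 : range x = range (g * x') := by rw [← hx']
  rw [h2, sum_mul_period (G K x') x' g q' (fun n => G_mod K x' n hx0),
    sum_mul_coprime (G K x') x' q' hx0 hco (fun n => G_mod K x' n hx0)]
  have h3 := mul_le_mul_of_nonneg_left (G_sum hB K x' hK hx0) hgR.le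
  refine h3.trans ?_
  have e2 : (x : ℝ) = g * x' := by exact_mod_cast hx'
  have h4 : Real.log x' ≤ Real.log x := by
    refine Real.log_le_log hxR ?_
    have : x' ≤ x := Nat.le_of_dvd hx (Dvd.intro_left g hx'.symm)
    exact_mod_cast this
  have h5 : (x : ℝ) * (1 + Real.log x') ≤ x * (1 + Real.log x) :=
    mul_le_mul_of_nonneg_left (by linarith) (Nat.cast_nonneg _)
  have h6 : (g : ℝ) * (K + x' * (1 + Real.log x')) = g * K + x * (1 + Real.log x') := by
    rw [e2]
    ring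
  rw [h6]
  linarith

end

end Pool.Agent.Lib.MP391708.U.R
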