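import Pool.Agent.Lib.MP_391708_nt.U.R.SpecR
import Pool.Agent.Lib.MP_1446ad_nt.SM.AVG

/-! # Project U (MP_391708), part R, module KAV -/

set_option autoImplicit false

namespace Pool.Agent.Lib.MP391708.U.R.KAVM

open Finset Pool.Agent.Lib.MP391708.U.R
open Pool.Agent.Lib.MP_1446ad_nt.SM (tau uu vv kc SpecKLB SpecDEC)
open Pool.Agent.Lib.MP_1446ad_nt.SM.AVGM (harm cnt)

noncomputable section

/-- the summand over the pairs -/
def tr (w : ℝ) (x d b : ℕ) : ℝ :=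
  if d ^ 2 * b ∣ x then (d : ℝ) * √(b : ℝ) * w else 0

theorem tr_nonneg {w : ℝ} (hw : 0 ≤ w) (x d b : ℕ) : 0 ≤ tr w x d b := by
  unfold tr
  split_ifs
  · positivity
  · exact le_rfl

/-- all the pairs -/
def TS (Z : ℕ) (w : ℝ) (x : ℕ) : ℝ :=
  ∑ d ∈ Ioc 0 Z, ∑ b ∈ d.divisors, tr w x d b

theorem le_TS {w : ℝ} (hw : 0 ≤ w) (Z x d b : ℕ) (hd0 : 0 < d) (hdX : d ≤ Z) (hb : b ∣ d)
    (h : d ^ 2 * b ∣ x) : (d : ℝ) * √(b : ℝ) * w ≤ TS Z w x := by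
  unfold TS
  have h1 : (d : ℝ) * √(b : ℝ) * w = tr w x d b := by
    unfold tr; rw [if_pos h]
  rw [h1]
  calc tr w x d b ≤ ∑ b ∈ d.divisors, tr w x d b :=
        Finset.single_le_sum (f := fun b => tr w x d b)
          (fun b _ => tr_nonneg hw x d b)
          (Nat.mem_divisors.2 ⟨hb, hd0.ne'⟩)
    _ ≤ _ :=
        Finset.single_le_sum (f := fun d => ∑ b ∈ d.divisors, tr w x d b)
          (fun d _ => Finset.sum_nonneg fun b _ => tr_nonneg hw x d b)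
          (Finset.mem_Ioc.2 ⟨hd0, hdX⟩)

/-- general summation: if for all pairs the sum over `x` is at most `A / d`, the total is at most
`A T²`. -/
theorem sum_TS (T : ℝ) (Z : ℕ) (hZ : 1 ≤ Z) (hT : TB T Z) (w : ℕ → ℝ) (A : ℝ) (hA : 0 ≤ A)
    (h : ∀ d b : ℕ, 0 < d → 0 < b →
      ∑ x ∈ Ioc 0 Z, tr (w x) x d b ≤ A * (1 / (d : ℝ))) :
    ∑ x ∈ Ioc 0 Z, TS Z (w x) x ≤ A * T ^ 2 := by
  have hT1 : 1 ≤ T := hT.1
  unfold TS
  rw [Finset.sum_comm]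
  have h1 : ∀ d ∈ Ioc 0 Z, ∑ x ∈ Ioc 0 Z, ∑ b ∈ d.divisors, tr (w x) x d b
      ≤ (A * T) * (1 / (d : ℝ)) := by
    intro d hd
    obtain ⟨hd0, hdX⟩ := Finset.mem_Ioc.1 hd
    rw [Finset.sum_comm]
    have h2 : ∀ b ∈ d.divisors, ∑ x ∈ Ioc 0 Z, tr (w x) x d b ≤ A * (1 / (d : ℝ)) := by
      intro b hb
      exact h d b hd0 (Nat.pos_of_mem_divisors hb)
    refine (Finset.sum_le_card_nsmul _ _ _ h2).trans ?_
    rw [nsmul_eq_mul]
    have h4 : (d.divisors.card : ℝ) ≤ T := (hT.2 d hd0 hdX).1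
    calc (d.divisors.card : ℝ) * (A * (1 / (d : ℝ)))
        ≤ T * (A * (1 / (d : ℝ))) := mul_le_mul_of_nonneg_right h4 (by positivity)
      _ = _ := by ring
  refine (Finset.sum_le_sum h1).trans ?_
  rw [← Finset.mul_sum]
  have h5 : ∑ d ∈ Ioc 0 Z, 1 / (d : ℝ) ≤ T := (harm Z).trans (hT.2 Z hZ le_rfl).2
  calc (A * T) * ∑ d ∈ Ioc 0 Z, 1 / (d : ℝ) ≤ (A * T) * T :=
        mul_le_mul_of_nonneg_left h5 (by positivity)
    _ = _ := by ring

theorem sum_tr1 (Z d b : ℕ) (hd : 0 < d) (hb : 0 < b) :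
    ∑ x ∈ Ioc 0 Z, tr 1 x d b ≤ (Z : ℝ) * (1 / (d : ℝ)) := by
  unfold tr
  have h1 := cnt Z (d ^ 2 * b) ((d : ℝ) * √(b : ℝ) * 1) (by positivity) (by positivity)
  refine h1.trans ?_
  have hb' : (1 : ℝ) ≤ b := by exact_mod_cast hb
  have hd' : (1 : ℝ) ≤ d := by exact_mod_cast hd
  have sb : √(b : ℝ) ≤ b := by
    rw [Real.sqrt_le_left (by positivity)]; nlinarith
  push_cast
  calc (Z : ℝ) / ((d : ℝ) ^ 2 * b) * ((d : ℝ) * √(b : ℝ) * 1)
      ≤ (Z : ℝ) / ((d : ℝ) ^ 2 * b) * (d * b * 1) := by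
        apply mul_le_mul_of_nonneg_left _ (by positivity)
        apply mul_le_mul_of_nonneg_right _ (by norm_num)
        exact mul_le_mul_of_nonneg_left sb (by positivity)
    _ = Z * (1 / (d : ℝ)) := by
        field_simp

/-- `∑_{j ≤ n} 1/√j ≤ 2 √n`. -/
theorem sum_inv_sqrt (n : ℕ) : ∑ j ∈ Ioc 0 n, 1 / √(j : ℝ) ≤ 2 * √(n : ℝ) := by
  induction n with
  | zero => simp
  | succ n ih =>
    rw [Finset.sum_Ioc_succ_top (Nat.zero_le n)]
    have h1 : 0 < √((n : ℝ) + 1) := Real.sqrt_pos.2 (by positivity)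
    have h2 : 0 ≤ √(n : ℝ) := Real.sqrt_nonneg _
    have h3 : √(n : ℝ) ^ 2 = n := Real.sq_sqrt (by positivity)
    have h4 : √((n : ℝ) + 1) ^ 2 = n + 1 := Real.sq_sqrt (by positivity)
    push_cast
    have h5 : 1 / √((n : ℝ) + 1) ≤ 2 * √((n : ℝ) + 1) - 2 * √(n : ℝ) := by
      rw [div_le_iff₀ h1]
      nlinarith [sq_nonneg (√((n : ℝ) + 1) - √(n : ℝ))]
    linarith

theorem sum_dvd (Z m : ℕ) (hm : 0 < m) (f : ℕ → ℝ) :
    ∑ x ∈ Ioc 0 Z, (if m ∣ x then f x else 0) = ∑ j ∈ Ioc 0 (Z / m), f (m * j) := by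
  rw [← Finset.sum_filter]
  symm
  apply Finset.sum_bij (fun j _ => m * j)
  · intro j hj
    obtain ⟨h1, h2⟩ := Finset.mem_Ioc.1 hj
    rw [Finset.mem_filter, Finset.mem_Ioc]
    refine ⟨⟨Nat.mul_pos hm h1, ?_⟩, dvd_mul_right _ _⟩
    rw [Nat.le_div_iff_mul_le hm] at h2
    rwa [mul_comm]
  · intro a _ b _ hab
    exact Nat.eq_of_mul_eq_mul_left hm hab
  · intro x hx
    rw [Finset.mem_filter, Finset.mem_Ioc] at hx
    obtain ⟨⟨h1, h2⟩, j, rfl⟩ := hx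
    refine ⟨j, ?_, rfl⟩
    rw [Finset.mem_Ioc]
    refine ⟨Nat.pos_of_mul_pos_left h1, ?_⟩
    rw [Nat.le_div_iff_mul_le hm]
    rwa [mul_comm]
  · intro a _
    rfl

theorem sum_tr2 (Z d b : ℕ) (hd : 0 < d) (hb : 0 < b) :
    ∑ x ∈ Ioc 0 Z, tr (1 / √(x : ℝ)) x d b ≤ (2 * √(Z : ℝ)) * (1 / (d : ℝ)) := by
  unfold tr
  have hm : 0 < d ^ 2 * b := by positivity
  rw [sum_dvd Z (d ^ 2 * b) hm (fun x => (d : ℝ) * √(b : ℝ) * (1 / √(x : ℝ)))]
  have hb' : (1 : ℝ) ≤ b := by exact_mod_cast hb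
  have hd' : (0 : ℝ) < d := by exact_mod_cast hd
  have hsb : 0 < √(b : ℝ) := Real.sqrt_pos.2 (by linarith)
  have h1 : ∀ j ∈ Ioc 0 (Z / (d ^ 2 * b)),
      (d : ℝ) * √(b : ℝ) * (1 / √((d ^ 2 * b * j : ℕ) : ℝ)) = 1 / √(j : ℝ) := by
    intro j hj
    have hj0 : 0 < j := (Finset.mem_Ioc.1 hj).1
    have hj' : (0 : ℝ) < j := by exact_mod_cast hj0
    have hsj : 0 < √(j : ℝ) := Real.sqrt_pos.2 hj'
    push_cast
    rw [Real.sqrt_mul (by positivity), Real.sqrt_mul (by positivity), Real.sqrt_sq hd'.le]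
    field_simp
  rw [Finset.sum_congr rfl h1]
  refine (sum_inv_sqrt _).trans ?_
  rw [mul_assoc]
  apply mul_le_mul_of_nonneg_left _ (by norm_num)
  rw [mul_one_div, le_div_iff₀ hd']
  have h2 : √(((Z / (d ^ 2 * b) : ℕ)) : ℝ) * d = √((((Z / (d ^ 2 * b) : ℕ)) : ℝ) * (d : ℝ) ^ 2) := by
    rw [Real.sqrt_mul (by positivity), Real.sqrt_sq hd'.le]
  rw [h2]
  apply Real.sqrt_le_sqrt
  have h3 : Z / (d ^ 2 * b) * d ^ 2 ≤ Z := by
    calc Z / (d ^ 2 * b) * d ^ 2 ≤ Z / (d ^ 2 * b) * (d ^ 2 * b) := by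
          apply Nat.mul_le_mul_left
          exact Nat.le_mul_of_pos_right _ hb
      _ ≤ Z := Nat.div_mul_le_self _ _
  exact_mod_cast h3

end

end Pool.Agent.Lib.MP391708.U.R.KAVM

namespace Pool.Agent.Lib.MP391708.U.R

open Finset KAVM
open Pool.Agent.Lib.MP_1446ad_nt.SM (tau uu vv kc SpecKLB SpecDEC)

theorem specKAV (hD : SpecDEC) : SpecKAV := by
  intro T Z hT
  have hT1 : 1 ≤ T := hT.1
  rcases Nat.eq_zero_or_pos Z with hZ | hZ
  · subst hZ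
    simp
  -- the decomposition for one x
  have dec : ∀ x ∈ Ioc 0 Z, √(uu x : ℝ) * (vv x : ℝ) = √(x : ℝ) * √(vv x : ℝ) ∧
      ∀ w : ℝ, 0 ≤ w → √(vv x : ℝ) * w ≤ TS Z w x := by
    intro x hx
    obtain ⟨hx0, hxZ⟩ := Finset.mem_Ioc.1 hx
    obtain ⟨e1, e2, e3, d, b, e4, e5⟩ := hD x hx0
    have hv0 : 0 < vv x := by
      rcases Nat.eq_zero_or_pos (vv x) with h | h
      · rw [h, mul_zero] at e1; omega
      · exact h
    have hu0 : 0 < uu x := by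
      rcases Nat.eq_zero_or_pos (uu x) with h | h
      · rw [h, zero_mul] at e1; omega
      · exact h
    have hd0 : 0 < d := by
      rcases Nat.eq_zero_or_pos d with h | h
      · rw [h] at e4; simp at e4; omega
      · exact h
    have hb0 : 0 < b := Nat.pos_of_dvd_of_pos e5 hd0
    have hvP : vv x ≤ x := by
      calc vv x = 1 * vv x := (one_mul _).symm
        _ ≤ uu x * vv x := Nat.mul_le_mul_right _ hu0
        _ = x := e1
    have hdX : d ≤ Z := by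
      have h1 : d ≤ d ^ 2 * b := by nlinarith
      omega
    have hdvd : d ^ 2 * b ∣ x := by
      rw [← e4]
      exact ⟨uu x, by rw [mul_comm]; exact e1.symm⟩
    have hvs : √(vv x : ℝ) = d * √(b : ℝ) := by
      rw [e4]
      push_cast
      rw [Real.sqrt_mul (by positivity), Real.sqrt_sq (by positivity)]
    refine ⟨?_, ?_⟩
    · have h2 : (x : ℝ) = (uu x : ℝ) * (vv x : ℝ) := by exact_mod_cast e1.symm
      rw [h2, Real.sqrt_mul (by positivity), mul_assoc, Real.mul_self_sqrt (by positivity)]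
    · intro w hw
      rw [hvs]
      exact le_TS hw Z x d b hd0 hdX e5 hdvd
  constructor
  · have key : ∀ x ∈ Ioc 0 Z, √(uu x : ℝ) * (vv x : ℝ) ≤ √(Z : ℝ) * TS Z 1 x := by
      intro x hx
      obtain ⟨h1, h2⟩ := dec x hx
      have hxZ := (Finset.mem_Ioc.1 hx).2
      have h3 := h2 1 zero_le_one
      rw [mul_one] at h3
      rw [h1]
      have hPs : √(x : ℝ) ≤ √(Z : ℝ) := Real.sqrt_le_sqrt (by exact_mod_cast hxZ)
      exact mul_le_mul hPs h3 (by positivity) (by positivity)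
    refine (Finset.sum_le_sum key).trans ?_
    rw [← Finset.mul_sum]
    have h4 := sum_TS T Z hZ hT (fun _ => 1) (Z : ℝ) (by positivity)
      (fun d b hd hb => sum_tr1 Z d b hd hb)
    calc √(Z : ℝ) * ∑ x ∈ Ioc 0 Z, TS Z 1 x ≤ √(Z : ℝ) * ((Z : ℝ) * T ^ 2) :=
          mul_le_mul_of_nonneg_left h4 (by positivity)
      _ = _ := by ring
  · have key : ∀ x ∈ Ioc 0 Z, √(uu x : ℝ) * (vv x : ℝ) / x ≤ TS Z (1 / √(x : ℝ)) x := by
      intro x hx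
      obtain ⟨h1, h2⟩ := dec x hx
      have hx0 := (Finset.mem_Ioc.1 hx).1
      have hx' : (0 : ℝ) < x := by exact_mod_cast hx0
      have hsx : 0 < √(x : ℝ) := Real.sqrt_pos.2 hx'
      have h3 := h2 (1 / √(x : ℝ)) (by positivity)
      rw [h1]
      refine le_trans (le_of_eq ?_) h3
      have h5 : (x : ℝ) = √(x : ℝ) * √(x : ℝ) := (Real.mul_self_sqrt hx'.le).symm
      rw [mul_one_div]
      rw [div_eq_div_iff hx'.ne' hsx.ne']
      calc √(x : ℝ) * √(vv x : ℝ) * √(x : ℝ) = √(vv x : ℝ) * (√(x : ℝ) * √(x : ℝ)) := by ring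
        _ = √(vv x : ℝ) * x := by rw [← h5]
    refine (Finset.sum_le_sum key).trans ?_
    have h4 := sum_TS T Z hZ hT (fun x => 1 / √(x : ℝ)) (2 * √(Z : ℝ)) (by positivity)
      (fun d b hd hb => sum_tr2 Z d b hd hb)
    refine h4.trans (le_of_eq ?_)
    ring

end Pool.Agent.Lib.MP391708.U.R
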