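import Pool.Agent.Lib.MP_391708_nt.U.R.SpecR

/-!
# Project U, part R: module KFH (complete Kloosterman sums)
-/

set_option autoImplicit false

namespace Pool.Agent.Lib.MP391708.U.R.KFHM

open Finset Pool.Agent.Lib.MP391708.QPA Pool.Agent.Lib.MP391708.U
open Pool.Agent.Lib.MP_1446ad_nt.SM (tau uu vv kc SpecKLB SpecDEC)

/-- `ex` at a fraction is the standard character. -/
theorem ex_eq (x : ℕ) [NeZero x] (j : ℤ) :
    ex ((j : ℝ) / x) = ZMod.stdAddChar ((j : ZMod x)) := by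
  rw [ZMod.stdAddChar_coe]
  unfold ex
  congr 1
  push_cast
  ring

/-- the inner sum -/
theorem inner (x : ℕ) [NeZero x] (b k : ℤ) (z : ZMod x) :
    (∑ y : ZMod x, if y * z = ((1 : ℤ) : ZMod x) then
      (ZMod.stdAddChar ((b : ZMod x) * y + ((-k : ℤ) : ZMod x) * z) : ℂ) else 0) =
    if IsUnit z then
      (ZMod.stdAddChar ((b : ZMod x) * z⁻¹ + ((-k : ℤ) : ZMod x) * z) : ℂ) else 0 := by
  by_cases hz : IsUnit z
  · rw [if_pos hz, Finset.sum_eq_single z⁻¹]
    · rw [if_pos]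
      rw [ZMod.inv_mul_of_unit z hz, Int.cast_one]
    · intro y _ hy
      rw [if_neg]
      intro h
      apply hy
      rw [Int.cast_one] at h
      have h1 : y * z * z⁻¹ = 1 * z⁻¹ := by rw [h]
      rw [mul_assoc, ZMod.mul_inv_of_unit z hz, mul_one, one_mul] at h1
      exact h1
    · intro h
      exact absurd (Finset.mem_univ _) h
  · rw [if_neg hz]
    refine Finset.sum_eq_zero fun y _ => ?_
    rw [if_neg]
    intro h
    apply hz
    rw [Int.cast_one] at h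
    exact IsUnit.of_mul_eq_one_right y h

theorem kc_eq (x : ℕ) [NeZero x] (b k : ℤ) : kc x 1 b (-k) =
    ∑ z : ZMod x, if IsUnit z then
      (ZMod.stdAddChar ((b : ZMod x) * z⁻¹ + ((-k : ℤ) : ZMod x) * z) : ℂ) else 0 := by
  unfold kc
  rw [Finset.sum_comm]
  exact Finset.sum_congr rfl fun z _ => inner x b k z

theorem sum_eq (x : ℕ) (_hx : 1 ≤ x) [NeZero x] (b k : ℤ) :
    ∑ s ∈ range x, kf x b s * ex (-((k : ℝ) * s) / x) = kc x 1 b (-k) := by
  rw [kc_eq]
  refine Finset.sum_nbij (fun s : ℕ => (s : ZMod x)) (fun _ _ => Finset.mem_univ _) ?_ ?_ ?_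
  · intro s hs t ht h
    rw [Finset.mem_coe, Finset.mem_range] at hs ht
    have h1 := (ZMod.natCast_eq_natCast_iff' s t x).1 h
    rwa [Nat.mod_eq_of_lt hs, Nat.mod_eq_of_lt ht] at h1
  · intro z _
    refine ⟨z.val, ?_, ?_⟩
    · rw [Finset.mem_coe, Finset.mem_range]
      exact ZMod.val_lt z
    · exact ZMod.natCast_zmod_val z
  · intro s _
    have hc : Int.gcd (s : ℤ) x = 1 ↔ IsUnit (s : ZMod x) := by
      rw [ZMod.isUnit_iff_coprime, Int.gcd_natCast_natCast]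
    unfold kf
    by_cases h : Int.gcd (s : ℤ) x = 1
    · rw [if_pos h, if_pos (hc.1 h), ← ex_add]
      have h2 : (b : ℝ) * ((((s : ℤ) : ZMod x)⁻¹).val : ℝ) / x + -((k : ℝ) * s) / x =
          ((b * ((((s : ℤ) : ZMod x)⁻¹).val : ℤ) + (-k) * (s : ℤ) : ℤ) : ℝ) / x := by
        push_cast
        ring
      rw [h2, ex_eq]
      congr 1
      push_cast
      rw [ZMod.natCast_zmod_val]
    · rw [if_neg h, if_neg (fun h' => h (hc.2 h')), zero_mul]

end KFHM

open KFHM Finset Pool.Agent.Lib.MP391708.QPA Pool.Agent.Lib.MP391708.U in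
open Pool.Agent.Lib.MP_1446ad_nt.SM (tau uu vv kc SpecKLB SpecDEC) in
/-- Module KFH. -/
theorem specKFH (hK : SpecKLB) (hD : SpecDEC) : SpecKFH := by
  intro x b k hx hb
  have : NeZero x := ⟨by omega⟩
  rw [sum_eq x hx b k]
  obtain ⟨h1, h2, h3, _⟩ := hD x hx
  have key : ∀ (u v : ℕ), u * v = x → Nat.Coprime u v → Squarefree u →
      ‖kc x 1 b (-k)‖ ≤ tau x * √(u : ℝ) * (v : ℝ) * √(Int.gcd b u : ℝ) *
        √(Int.gcd 1 u : ℝ) := by
    intro u v huv hc hs
    subst huv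
    exact hK u v hc hs 1 b (-k)
  have h4 := key _ _ h1 h2 h3
  rw [Int.one_gcd, Nat.cast_one, Real.sqrt_one, mul_one] at h4
  refine h4.trans ?_
  unfold KB
  have h5 : √(Int.gcd b (uu x) : ℝ) ≤ √|(b : ℝ)| := by
    apply Real.sqrt_le_sqrt
    have h6 : Int.gcd b (uu x) ≤ b.natAbs :=
      Nat.le_of_dvd (Int.natAbs_pos.2 hb) (Int.gcd_dvd_natAbs_left b (uu x))
    have h7 : (Int.gcd b (uu x) : ℝ) ≤ (b.natAbs : ℝ) := by exact_mod_cast h6
    rwa [Nat.cast_natAbs, Int.cast_abs] at h7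
  have h8 : 0 ≤ tau x * √(uu x : ℝ) * (vv x : ℝ) := by
    unfold tau
    positivity
  exact mul_le_mul_of_nonneg_left h5 h8

end Pool.Agent.Lib.MP391708.U.R
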