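import Pool.Agent.Lib.MP_391708_nt.U.R.SpecR
import Pool.Agent.Lib.MP_391708_nt.U.R.FCG

/-!
# Project U, part R, module KIN: incomplete Kloosterman sums
-/

set_option autoImplicit false

namespace Pool.Agent.Lib.MP391708.U.R

open Finset Filter Topology Pool.Agent.Lib.MP391708.QPA Pool.Agent.Lib.MP391708.U
open scoped Classical

noncomputable section

namespace KINM

theorem kf_per (x : ℕ) (b s r : ℤ) (h : (x : ℤ) ∣ s - r) : kf x b s = kf x b r := by
  obtain ⟨t, ht⟩ := h
  have hs : s = r + x * t := by linarith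
  have h1 : Int.gcd s x = Int.gcd r x := by rw [hs, Int.gcd_add_mul_left_left]
  have h2 : (s : ZMod x) = (r : ZMod x) := by
    rw [hs]
    push_cast
    simp
  unfold kf
  rw [h1, h2]

/-- the Fourier coefficients. -/
def Fk (x : ℕ) (b : ℤ) (k : ℕ) : ℂ := ∑ r ∈ range x, kf x b r * ex (-((k : ℝ) * r) / x)

theorem four (x : ℕ) (hx : 1 ≤ x) (b s : ℤ) :
    (x : ℂ) * kf x b s = ∑ k ∈ range x, Fk x b k * ex ((k : ℝ) * s / x) := by
  have h1 : ∀ k ∈ range x, Fk x b k * ex ((k : ℝ) * s / x) =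
      ∑ r ∈ range x, kf x b r * ex ((k : ℝ) * ((s - r : ℤ) : ℝ) / x) := by
    intro k _
    rw [Fk, sum_mul]
    refine sum_congr rfl fun r _ => ?_
    rw [mul_assoc, ← ex_add]
    congr 2
    push_cast
    ring
  rw [sum_congr rfl h1, sum_comm]
  have h2 : ∀ r ∈ range x, ∑ k ∈ range x, kf x b (r : ℤ) * ex ((k : ℝ) * ((s - r : ℤ) : ℝ) / x) =
      if (x : ℤ) ∣ s - r then (x : ℂ) * kf x b s else 0 := by
    intro r _
    rw [← mul_sum, FCGM.orth x (s - r) hx]
    split_ifs with h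
    · rw [kf_per x b s r h]
      ring
    · ring
  rw [sum_congr rfl h2]
  have hx0 : (0 : ℤ) < x := by exact_mod_cast hx
  have hn : 0 ≤ s % x := Int.emod_nonneg _ hx0.ne'
  have hl : s % x < x := Int.emod_lt_of_pos _ hx0
  have hr : (x : ℤ) ∣ s - ((s % x).toNat : ℤ) := by
    rw [Int.toNat_of_nonneg hn]
    exact Int.dvd_self_sub_emod
  symm
  rw [sum_eq_single (s % x).toNat]
  · rw [if_pos hr]
  · intro r hr' hne
    rw [if_neg]
    intro h
    apply hne
    rw [mem_range] at hr'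
    have h3 : (r : ℤ) % x = s % x := Int.modEq_iff_dvd.2 h
    rw [Int.emod_eq_of_lt (by positivity) (by exact_mod_cast hr')] at h3
    omega
  · intro h
    exfalso
    apply h
    rw [mem_range]
    omega

theorem ap (q : ℕ) (hq : 1 ≤ q) (s₀ A B : ℤ) : ∃ (s₁ : ℤ) (K : ℕ),
    (K = 0 ∨ (q : ℤ) * ((K : ℤ) - 1) ≤ B - A) ∧
    (Icc A B).filter (fun s : ℤ => (q : ℤ) ∣ s - s₀) =
      (range K).image (fun t : ℕ => s₁ + (q : ℤ) * t) := by
  have hq0 : (0 : ℤ) < q := by exact_mod_cast hq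
  obtain ⟨d, hd⟩ : ∃ d : ℤ, d = (s₀ - A) / q := ⟨_, rfl⟩
  have h0 : (s₀ - A) % q = (s₀ - A) - q * d := by
    rw [hd, Int.emod_def]
  have h1 := Int.emod_nonneg (s₀ - A) hq0.ne'
  have h2 := Int.emod_lt_of_pos (s₀ - A) hq0
  rw [h0] at h1 h2
  obtain ⟨s₁, hs₁⟩ : ∃ s₁ : ℤ, s₁ = s₀ - q * d := ⟨_, rfl⟩
  have h3 : A ≤ s₁ := by linarith
  have h4 : s₁ < A + q := by linarith
  rcases le_or_gt s₁ B with hB | hB
  · refine ⟨s₁, ((B - s₁) / q).toNat + 1, ?_, ?_⟩
    · right
      have h5 : 0 ≤ (B - s₁) / q := Int.ediv_nonneg (by linarith) hq0.le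
      have h6 : (((((B - s₁) / q).toNat + 1 : ℕ) : ℤ) - 1) = (B - s₁) / q := by
        push_cast
        rw [Int.toNat_of_nonneg h5]
        ring
      rw [h6]
      have := Int.mul_ediv_self_le (x := B - s₁) (k := q) hq0.ne'
      linarith
    · ext s
      rw [mem_filter, mem_Icc, mem_image]
      have h5 : 0 ≤ (B - s₁) / q := Int.ediv_nonneg (by linarith) hq0.le
      constructor
      · rintro ⟨⟨ha, hb⟩, e, he⟩
        have h6 : s = s₁ + q * (e + d) := by
          rw [hs₁]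
          linear_combination he
        have h7 : -1 < e + d := by
          by_contra hc
          push Not at hc
          have : (q : ℤ) * (e + d) ≤ q * (-1) := mul_le_mul_of_nonneg_left hc hq0.le
          linarith
        have h8 : e + d ≤ (B - s₁) / q := by
          rw [Int.le_ediv_iff_mul_le hq0]
          linarith [mul_comm (e + d) (q : ℤ)]
        refine ⟨(e + d).toNat, ?_, ?_⟩
        · rw [mem_range]
          omega
        · rw [Int.toNat_of_nonneg (by omega)]
          exact h6.symm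
      · rintro ⟨t, ht, rfl⟩
        rw [mem_range] at ht
        have h6 : (t : ℤ) ≤ (B - s₁) / q := by omega
        rw [Int.le_ediv_iff_mul_le hq0] at h6
        have h7 : (0 : ℤ) ≤ q * t := by positivity
        refine ⟨⟨by linarith, by linarith [mul_comm (t : ℤ) (q : ℤ)]⟩, t - d, ?_⟩
        rw [hs₁]
        ring
  · refine ⟨0, 0, Or.inl rfl, ?_⟩
    rw [range_zero, image_empty, filter_eq_empty_iff]
    intro s hs
    rw [mem_Icc] at hs
    rintro ⟨e, he⟩
    have h6 : s = s₁ + q * (e + d) := by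
      rw [hs₁]
      linear_combination he
    have h7 : (q : ℤ) * (e + d) < 0 := by linarith
    have h8 : e + d ≤ -1 := by
      by_contra hc
      push Not at hc
      have : 0 ≤ e + d := by omega
      have : 0 ≤ (q : ℤ) * (e + d) := mul_nonneg hq0.le this
      linarith
    have : (q : ℤ) * (e + d) ≤ q * (-1) := mul_le_mul_of_nonneg_left h8 hq0.le
    linarith

end KINM

open KINM in
theorem specKIN (hK : SpecKFH) (hG : SpecGSM) : SpecKIN := by
  intro x q b s₀ A B hx hq hb hAB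
  obtain ⟨s₁, K, hK1, hset⟩ := ap q hq s₀ A B
  have hx0 : (0 : ℝ) < x := by exact_mod_cast hx
  have hq0 : (0 : ℤ) < q := by exact_mod_cast hq
  have hKB : 0 ≤ KB x b := (norm_nonneg _).trans (hK x b 0 hx hb)
  rw [hset, sum_image (by
    intro t _ t' _ h
    have h1 : (q : ℤ) * t = q * t' := add_left_cancel h
    have h2 := mul_left_cancel₀ hq0.ne' h1
    exact_mod_cast h2)]
  have h1 : (x : ℂ) * ∑ t ∈ range K, kf x b (s₁ + (q : ℤ) * t) =
      ∑ k ∈ range x, Fk x b k * ex ((k : ℝ) * s₁ / x) *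
        ∑ t ∈ range K, ex ((k : ℝ) * (q * t) / x) := by
    rw [mul_sum, sum_congr rfl fun (t : ℕ) _ => four x hx b (s₁ + (q : ℤ) * (t : ℤ)), sum_comm]
    refine sum_congr rfl fun k _ => ?_
    rw [mul_sum]
    refine sum_congr rfl fun t _ => ?_
    rw [mul_assoc, ← ex_add]
    congr 2
    push_cast
    ring
  have h2 : (x : ℝ) * ‖∑ t ∈ range K, kf x b (s₁ + (q : ℤ) * t)‖ ≤
      KB x b * ((Nat.gcd q x : ℝ) * K + x * (1 + Real.log x)) := by
    calc (x : ℝ) * ‖∑ t ∈ range K, kf x b (s₁ + (q : ℤ) * t)‖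
        = ‖(x : ℂ) * ∑ t ∈ range K, kf x b (s₁ + (q : ℤ) * t)‖ := by
          rw [norm_mul, Complex.norm_natCast]
      _ ≤ ∑ k ∈ range x, ‖Fk x b k * ex ((k : ℝ) * s₁ / x) *
          ∑ t ∈ range K, ex ((k : ℝ) * (q * t) / x)‖ := by
          rw [h1]
          exact norm_sum_le _ _
      _ ≤ ∑ k ∈ range x, KB x b * ‖∑ t ∈ range K, ex ((k : ℝ) * (q * t) / x)‖ := by
          refine sum_le_sum fun k _ => ?_
          rw [norm_mul, norm_mul, norm_ex, mul_one]
          refine mul_le_mul_of_nonneg_right ?_ (norm_nonneg _)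
          have := hK x b k hx hb
          simpa [Fk] using this
      _ = KB x b * ∑ k ∈ range x, ‖∑ t ∈ range K, ex ((k : ℝ) * (q * t) / x)‖ := by
          rw [mul_sum]
      _ ≤ _ := mul_le_mul_of_nonneg_left (hG x q K hx hq) hKB
  have h3 : (Nat.gcd q x : ℝ) * K ≤ ((B : ℝ) - A) + x := by
    have hgx : (Nat.gcd q x : ℝ) ≤ x := by
      exact_mod_cast Nat.gcd_le_right q (by omega : 0 < x)
    have hgq : (Nat.gcd q x : ℝ) ≤ q := by
      exact_mod_cast Nat.gcd_le_left x (by omega : 0 < q)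
    have hAB' : (A : ℝ) ≤ B := by exact_mod_cast hAB
    rcases hK1 with h0 | h0
    · rw [h0]
      simp only [Nat.cast_zero, mul_zero]
      linarith
    · rcases Nat.eq_zero_or_pos K with h4 | h4
      · rw [h4]
        simp only [Nat.cast_zero, mul_zero]
        linarith
      · have h5 : (q : ℝ) * ((K : ℝ) - 1) ≤ B - A := by exact_mod_cast h0
        have h6 : (1 : ℝ) ≤ K := by exact_mod_cast h4
        have h7 : (Nat.gcd q x : ℝ) * ((K : ℝ) - 1) ≤ q * ((K : ℝ) - 1) :=
          mul_le_mul_of_nonneg_right hgq (by linarith)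
        nlinarith
  have h4 : (x : ℝ) * ‖∑ t ∈ range K, kf x b (s₁ + (q : ℤ) * t)‖ ≤
      x * (KB x b * (((B : ℝ) - A) / x + 2 + Real.log x)) := by
    calc (x : ℝ) * ‖∑ t ∈ range K, kf x b (s₁ + (q : ℤ) * t)‖
        ≤ KB x b * ((Nat.gcd q x : ℝ) * K + x * (1 + Real.log x)) := h2
      _ ≤ KB x b * ((((B : ℝ) - A) + x) + x * (1 + Real.log x)) := by gcongr
      _ = _ := by
          field_simp
          ring
  exact le_of_mul_le_mul_left h4 hx0

end

end Pool.Agent.Lib.MP391708.U.R
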