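import Pool.Agent.Lib.MP_391708_nt.U.R.SpecR

/-!
# MNS: sums of `mnf`
-/

set_option autoImplicit false

namespace Pool.Agent.Lib.MP391708.U.R

open Finset Filter Topology Pool.Agent.Lib.MP391708.QPA Pool.Agent.Lib.MP391708.U
open Pool.Agent.Lib.MP_1446ad_nt.SM (tau uu vv kc SpecKLB SpecDEC)
open scoped Classical

noncomputable section

namespace MNSM

lemma tail (k n : ℕ) : ∑ j ∈ Ioc k n, 1 / (j : ℝ) ^ 2 ≤ 1 / ((k : ℝ) + 1 / 2) := by
  rcases Nat.lt_or_ge n k with h | h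
  · rw [Finset.Ioc_eq_empty (by omega), Finset.sum_empty]
    positivity
  · have key : ∑ j ∈ Ioc k n, 1 / (j : ℝ) ^ 2 ≤ 1 / ((k : ℝ) + 1 / 2) - 1 / ((n : ℝ) + 1 / 2) := by
      induction n, h using Nat.le_induction with
      | base => simp
      | succ n hn ih =>
        rw [← Finset.insert_Ioc_right_eq_Ioc_add_one (by omega), Finset.sum_insert (by simp)]
        have h1 : (0 : ℝ) ≤ n := Nat.cast_nonneg n
        have h2 : 1 / (((n + 1 : ℕ) : ℝ)) ^ 2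
            ≤ 1 / ((n : ℝ) + 1 / 2) - 1 / (((n + 1 : ℕ) : ℝ) + 1 / 2) := by
          push_cast
          rw [div_sub_div _ _ (by positivity) (by positivity), div_le_div_iff₀ (by positivity) (by positivity)]
          nlinarith
        linarith
    have : (0 : ℝ) ≤ 1 / ((n : ℝ) + 1 / 2) := by positivity
    linarith

lemma core (z : ℝ) (hz : 0 < z) (n : ℕ) :
    ∑ j ∈ Ioc 0 n, min 1 (z ^ 2 / (j : ℝ) ^ 2) ≤ 3 * z * min 1 z := by
  have ht : ∀ k : ℕ, ∑ j ∈ Ioc k n, min 1 (z ^ 2 / (j : ℝ) ^ 2) ≤ z ^ 2 / ((k : ℝ) + 1 / 2) := by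
    intro k
    calc ∑ j ∈ Ioc k n, min 1 (z ^ 2 / (j : ℝ) ^ 2)
        ≤ ∑ j ∈ Ioc k n, z ^ 2 * (1 / (j : ℝ) ^ 2) :=
          Finset.sum_le_sum fun j _ => by rw [mul_one_div]; exact min_le_right _ _
      _ = z ^ 2 * ∑ j ∈ Ioc k n, 1 / (j : ℝ) ^ 2 := by rw [Finset.mul_sum]
      _ ≤ z ^ 2 * (1 / ((k : ℝ) + 1 / 2)) := mul_le_mul_of_nonneg_left (tail k n) (by positivity)
      _ = _ := by rw [mul_one_div]
  rcases lt_or_ge z 1 with h | h
  · rw [min_eq_right h.le]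
    have h1 := ht 0
    have h2 : z ^ 2 / (((0 : ℕ) : ℝ) + 1 / 2) = 2 * z ^ 2 := by push_cast; ring
    rw [h2] at h1
    nlinarith
  · rw [min_eq_left h]
    set k := ⌊z⌋₊ with hk
    have hk1 : 1 ≤ k := Nat.le_floor (by push_cast; exact h)
    have hkz : (k : ℝ) ≤ z := Nat.floor_le hz.le
    have hzk : z < (k : ℝ) + 1 := Nat.lt_floor_add_one z
    have hk1r : (1 : ℝ) ≤ k := by exact_mod_cast hk1
    have hone : ∀ s : Finset ℕ, ∑ j ∈ s, min 1 (z ^ 2 / (j : ℝ) ^ 2) ≤ (s.card : ℝ) := by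
      intro s
      calc ∑ j ∈ s, min 1 (z ^ 2 / (j : ℝ) ^ 2) ≤ ∑ _j ∈ s, (1 : ℝ) :=
            Finset.sum_le_sum fun j _ => min_le_left _ _
        _ = (s.card : ℝ) := by simp
    rcases Nat.lt_or_ge n k with h3 | h3
    · have h4 := hone (Ioc 0 n)
      rw [Nat.card_Ioc] at h4
      have h5 : ((n - 0 : ℕ) : ℝ) ≤ k := by exact_mod_cast (by omega : n - 0 ≤ k)
      linarith
    · have h4 : ∑ j ∈ Ioc 0 n, min 1 (z ^ 2 / (j : ℝ) ^ 2)
          = ∑ j ∈ Ioc 0 k, min 1 (z ^ 2 / (j : ℝ) ^ 2) + ∑ j ∈ Ioc k n, min 1 (z ^ 2 / (j : ℝ) ^ 2) :=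
        (Finset.sum_Ioc_consecutive _ (Nat.zero_le k) h3).symm
      rw [h4]
      have h5 := hone (Ioc 0 k)
      rw [Nat.card_Ioc] at h5
      have h6 := ht k
      have h7 : z ^ 2 / ((k : ℝ) + 1 / 2) ≤ 2 * z := by
        rw [div_le_iff₀ (by positivity)]
        nlinarith
      have h8 : ((k - 0 : ℕ) : ℝ) = k := by simp
      rw [h8] at h5
      linarith

lemma mnf_eq (L P g j : ℕ) (hL : 1 ≤ L) (hg : 1 ≤ g) (hj : 0 < j) (y : ℤ)
    (hy : |y| = (g : ℤ) * j) :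
    mnf L P y = L * min 1 (((P : ℝ) / (g * L)) ^ 2 / (j : ℝ) ^ 2) := by
  have hL0 : (0 : ℝ) < L := by exact_mod_cast hL
  have hg0 : (0 : ℝ) < g := by exact_mod_cast hg
  have hj0 : (0 : ℝ) < j := by exact_mod_cast hj
  have hy0 : y ≠ 0 := by
    rintro rfl
    have : (0 : ℤ) < (g : ℤ) * j := by positivity
    rw [abs_zero] at hy
    omega
  have hy2 : (y : ℝ) ^ 2 = ((g : ℝ) * j) ^ 2 := by
    rw [← sq_abs]
    congr 1
    exact_mod_cast hy
  unfold mnf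
  rw [if_neg hy0, hy2, mul_min_of_nonneg _ _ hL0.le, mul_one]
  congr 1
  field_simp

end MNSM

open MNSM in
theorem specMNS : SpecMNS := by
  intro L P g hL hP hg
  have hL0 : (0 : ℝ) < L := by exact_mod_cast hL
  have hP0 : (0 : ℝ) < P := by exact_mod_cast hP
  have hg0 : (0 : ℝ) < g := by exact_mod_cast hg
  set z : ℝ := (P : ℝ) / (g * L) with hz
  have hz0 : 0 < z := by positivity
  have h1 : ∑ β ∈ (Icc (-(P : ℤ)) P).filter (fun β : ℤ => β ≠ 0 ∧ (g : ℤ) ∣ β), mnf L P β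
      = ∑ β ∈ ((Icc (-(P : ℤ)) P).filter (fun β : ℤ => β ≠ 0 ∧ (g : ℤ) ∣ β)).filter (fun β : ℤ => 0 < β),
          mnf L P β
        + ∑ β ∈ ((Icc (-(P : ℤ)) P).filter (fun β : ℤ => β ≠ 0 ∧ (g : ℤ) ∣ β)).filter
          (fun β : ℤ => ¬ 0 < β), mnf L P β :=
    (Finset.sum_filter_add_sum_filter_not _ _ _).symm
  have h2 : ∑ β ∈ ((Icc (-(P : ℤ)) P).filter (fun β : ℤ => β ≠ 0 ∧ (g : ℤ) ∣ β)).filter
      (fun β : ℤ => 0 < β), mnf L P β
      = ∑ j ∈ Ioc 0 (P / g), L * min 1 (z ^ 2 / (j : ℝ) ^ 2) := by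
    symm
    refine Finset.sum_nbij' (fun j : ℕ => (g : ℤ) * j) (fun β : ℤ => (β / (g : ℤ)).toNat) ?_ ?_ ?_ ?_ ?_
    · intro j hj
      rw [mem_Ioc, Nat.le_div_iff_mul_le (by omega)] at hj
      have h3 : (0 : ℤ) < (g : ℤ) * j := by
        have : (0 : ℤ) < g := by omega
        have : (0 : ℤ) < j := by omega
        positivity
      have h4 : (g : ℤ) * j ≤ P := by
        have := hj.2
        rw [mul_comm] at this
        exact_mod_cast this
      rw [mem_filter, mem_filter, mem_Icc]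
      exact ⟨⟨⟨by omega, h4⟩, by omega, Dvd.intro _ rfl⟩, h3⟩
    · intro β hβ
      rw [mem_filter, mem_filter, mem_Icc] at hβ
      obtain ⟨⟨⟨-, h4⟩, -, ⟨c, rfl⟩⟩, h5⟩ := hβ
      have hgz : (0 : ℤ) < g := by omega
      rw [Int.mul_ediv_cancel_left _ hgz.ne']
      have hc : 0 < c := (pos_iff_pos_of_mul_pos h5).1 hgz
      rw [mem_Ioc, Nat.le_div_iff_mul_le (by omega)]
      refine ⟨by omega, ?_⟩
      have h6 : ((c.toNat * g : ℕ) : ℤ) ≤ P := by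
        push_cast
        rw [Int.toNat_of_nonneg hc.le, mul_comm]
        exact h4
      exact_mod_cast h6
    · intro j _
      have hgz : (g : ℤ) ≠ 0 := by omega
      rw [Int.mul_ediv_cancel_left _ hgz]
      simp
    · intro β hβ
      rw [mem_filter, mem_filter, mem_Icc] at hβ
      obtain ⟨⟨⟨-, h4⟩, -, ⟨c, rfl⟩⟩, h5⟩ := hβ
      have hgz : (0 : ℤ) < g := by omega
      have hc : 0 < c := (pos_iff_pos_of_mul_pos h5).1 hgz
      rw [Int.mul_ediv_cancel_left _ hgz.ne', Int.toNat_of_nonneg hc.le]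
    · intro j hj
      rw [mem_Ioc] at hj
      rw [mnf_eq L P g j hL hg hj.1 _ (abs_of_nonneg (by positivity))]
  have h3 : ∑ β ∈ ((Icc (-(P : ℤ)) P).filter (fun β : ℤ => β ≠ 0 ∧ (g : ℤ) ∣ β)).filter
      (fun β : ℤ => ¬ 0 < β), mnf L P β
      = ∑ β ∈ ((Icc (-(P : ℤ)) P).filter (fun β : ℤ => β ≠ 0 ∧ (g : ℤ) ∣ β)).filter
      (fun β : ℤ => 0 < β), mnf L P β := by
    refine Finset.sum_nbij' (fun β => -β) (fun β => -β) ?_ ?_ ?_ ?_ ?_
    · intro β hβ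
      rw [mem_filter, mem_filter, mem_Icc] at hβ ⊢
      exact ⟨⟨⟨by omega, by omega⟩, by omega, (dvd_neg).2 hβ.1.2.2⟩, by omega⟩
    · intro β hβ
      rw [mem_filter, mem_filter, mem_Icc] at hβ ⊢
      exact ⟨⟨⟨by omega, by omega⟩, by omega, (dvd_neg).2 hβ.1.2.2⟩, by omega⟩
    · intro β _; simp
    · intro β _; simp
    · intro β _
      unfold mnf
      simp
  rw [h1, h3, h2, ← Finset.mul_sum]
  have h4 := core z hz0 (P / g)
  have h5 := mul_le_mul_of_nonneg_left h4 hL0.le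
  have h6 : 6 * ((P : ℝ) / g) * min 1 z = 2 * (L * (3 * z * min 1 z)) := by
    have : (P : ℝ) / g = L * z := by rw [hz]; field_simp
    rw [this]; ring
  rw [h6]
  linarith

end

end Pool.Agent.Lib.MP391708.U.R
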