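import Pool.Agent.Lib.MP_391708_nt.U.R.SpecR

/-!
# Project U (MP_391708), part R, module RCT: counting roots
-/

set_option autoImplicit false

namespace Pool.Agent.Lib.MP391708.U.R

open Finset Filter Topology Pool.Agent.Lib.MP391708.QPA Pool.Agent.Lib.MP391708.U
open Pool.Agent.Lib.MP_1446ad_nt.SM (tau)
open scoped Classical

noncomputable section

namespace RCTM

/-- The divisors `m > ν` of `ν² + a`. -/
def dv (a : ℤ) (M ν : ℕ) : Finset ℕ :=
  (Ioc 0 M).filter (fun m : ℕ => ν < m ∧ (m : ℤ) ∣ (ν : ℤ) ^ 2 + a)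

lemma ne_zero (a : ℤ) (ha : ¬ IsSquare (-a)) (ν : ℕ) : (ν : ℤ) ^ 2 + a ≠ 0 := by
  intro h
  apply ha
  refine ⟨(ν : ℤ), ?_⟩
  linarith [sq (ν : ℤ)]

lemma card_dv (T : ℝ) (a : ℤ) (M : ℕ) (ha : ¬ IsSquare (-a)) (hT : TB T (M ^ 2 + a.natAbs))
    (ν : ℕ) (hν : ν < M) : ((dv a M ν).card : ℝ) ≤ T := by
  have h0 := ne_zero a ha ν
  have hpos : 0 < ((ν : ℤ) ^ 2 + a).natAbs := Int.natAbs_pos.2 h0
  have hle : ((ν : ℤ) ^ 2 + a).natAbs ≤ M ^ 2 + a.natAbs := by
    refine (Int.natAbs_add_le _ _).trans ?_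
    have h1 : ((ν : ℤ) ^ 2).natAbs = ν ^ 2 := by
      rw [Int.natAbs_pow, Int.natAbs_natCast]
    rw [h1]
    exact Nat.add_le_add_right (Nat.pow_le_pow_left hν.le 2) _
  have h2 := (hT.2 _ hpos hle).1
  refine le_trans ?_ h2
  unfold Pool.Agent.Lib.MP_1446ad_nt.SM.tau
  have h3 : dv a M ν ⊆ (((ν : ℤ) ^ 2 + a).natAbs).divisors := by
    intro m hm
    rw [dv, mem_filter] at hm
    rw [Nat.mem_divisors]
    exact ⟨Int.natCast_dvd.1 hm.2.2, hpos.ne'⟩
  exact_mod_cast card_le_card h3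

lemma swap (a : ℤ) (M : ℕ) (f : ℕ → ℝ) :
    ∑ m ∈ Ioc 0 M, ((rt a m).card : ℝ) * f m = ∑ ν ∈ range M, ∑ m ∈ dv a M ν, f m := by
  have h1 : ∀ m ∈ Ioc 0 M, ((rt a m).card : ℝ) * f m =
      ∑ ν ∈ range M, if ν < m ∧ (m : ℤ) ∣ (ν : ℤ) ^ 2 + a then f m else 0 := by
    intro m hm
    rw [← sum_filter, sum_const, nsmul_eq_mul]
    congr 2
    have h2 : rt a m = (range M).filter (fun ν : ℕ => ν < m ∧ (m : ℤ) ∣ (ν : ℤ) ^ 2 + a) := by
      ext ν
      rw [rt, mem_filter, mem_filter, mem_range, mem_range]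
      constructor
      · rintro ⟨h3, h4⟩
        exact ⟨lt_of_lt_of_le h3 (mem_Ioc.1 hm).2, h3, h4⟩
      · rintro ⟨_, h3, h4⟩
        exact ⟨h3, h4⟩
    rw [h2]
  rw [sum_congr rfl h1, sum_comm]
  refine sum_congr rfl fun ν _ => ?_
  rw [dv, sum_filter]

lemma sum_inv_le (M : ℕ) : ∑ ν ∈ range M, 1 / ((ν : ℝ) + 1) ≤ 1 + Real.log M := by
  have h := harmonic_le_one_add_log M
  have h2 : ((harmonic M : ℚ) : ℝ) = ∑ ν ∈ range M, 1 / ((ν : ℝ) + 1) := by
    rw [harmonic, Rat.cast_sum]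
    refine sum_congr rfl fun ν _ => ?_
    push_cast
    rw [one_div]
  rwa [h2] at h

end RCTM

open RCTM in
theorem specRCT : SpecRCT := by
  intro T a M ha hT
  have hT0 : 0 ≤ T := zero_le_one.trans hT.1
  constructor
  · have h1 := swap a M (fun _ => 1)
    simp only [mul_one] at h1
    rw [h1]
    calc ∑ ν ∈ range M, ∑ _m ∈ dv a M ν, (1 : ℝ) ≤ ∑ ν ∈ range M, T := by
          refine sum_le_sum fun ν hν => ?_
          rw [sum_const, nsmul_eq_mul, mul_one]
          exact card_dv T a M ha hT ν (mem_range.1 hν)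
      _ = T * M := by rw [sum_const, card_range, nsmul_eq_mul, mul_comm]
  · have h1 := swap a M (fun m => 1 / (m : ℝ))
    have h2 : ∑ m ∈ Ioc 0 M, ((rt a m).card : ℝ) / m =
        ∑ m ∈ Ioc 0 M, ((rt a m).card : ℝ) * (1 / (m : ℝ)) :=
      sum_congr rfl fun m _ => by rw [mul_one_div]
    rw [h2, h1]
    calc ∑ ν ∈ range M, ∑ m ∈ dv a M ν, 1 / (m : ℝ)
        ≤ ∑ ν ∈ range M, T * (1 / ((ν : ℝ) + 1)) := by
          refine sum_le_sum fun ν hν => ?_
          calc ∑ m ∈ dv a M ν, 1 / (m : ℝ) ≤ ∑ _m ∈ dv a M ν, 1 / ((ν : ℝ) + 1) := by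
                refine sum_le_sum fun m hm => ?_
                rw [dv, mem_filter] at hm
                refine one_div_le_one_div_of_le (by positivity) ?_
                exact_mod_cast hm.2.1
            _ = (dv a M ν).card * (1 / ((ν : ℝ) + 1)) := by rw [sum_const, nsmul_eq_mul]
            _ ≤ T * (1 / ((ν : ℝ) + 1)) :=
                mul_le_mul_of_nonneg_right (card_dv T a M ha hT ν (mem_range.1 hν))
                  (by positivity)
      _ = T * ∑ ν ∈ range M, 1 / ((ν : ℝ) + 1) := by rw [mul_sum]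
      _ ≤ T ^ 2 := by
          rcases Nat.eq_zero_or_pos M with h0 | h0
          · subst h0
            simp only [range_zero, sum_empty, mul_zero]
            positivity
          · have h3 : 1 + Real.log M ≤ T := by
              refine (hT.2 M h0 ?_).2
              nlinarith [Nat.zero_le a.natAbs]
            calc T * ∑ ν ∈ range M, 1 / ((ν : ℝ) + 1) ≤ T * (1 + Real.log M) :=
                  mul_le_mul_of_nonneg_left (sum_inv_le M) hT0
              _ ≤ T * T := mul_le_mul_of_nonneg_left h3 hT0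
              _ = T ^ 2 := by ring

end

end Pool.Agent.Lib.MP391708.U.R
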