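import Pool.Agent.Lib.MP_391708_nt.U.R.SpecR

/-!
# Project U (MP_391708), part R, module ROW: the theorem ROOTW (helper67)
-/

set_option autoImplicit false

namespace Pool.Agent.Lib.MP391708.U.R

open Finset Filter Topology Pool.Agent.Lib.MP391708.QPA Pool.Agent.Lib.MP391708.U
open scoped Classical

namespace ROWM

/-- the sum up to `M` -/
noncomputable def S (a h : ℤ) (q M : ℕ) : ℂ := ∑ m ∈ (Ioc 0 M).filter (fun m => q ∣ m), rs a h m

theorem S_split (a h : ℤ) (q : ℕ) {P M : ℕ} (hPM : P ≤ M) :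
    S a h q M = S a h q P + ∑ m ∈ (Ioc P M).filter (fun m => q ∣ m), rs a h m := by
  have h1 : Ioc 0 M = Ioc 0 P ∪ Ioc P M := by
    ext m
    simp only [mem_union, mem_Ioc]
    omega
  have h2 : Disjoint (Ioc 0 P) (Ioc P M) := by
    rw [Finset.disjoint_left]
    intro m hm hm'
    rw [mem_Ioc] at hm hm'
    omega
  rw [S, S, h1, filter_union, sum_union (disjoint_filter_filter h2)]

theorem rs_norm (a h : ℤ) (m : ℕ) : ‖rs a h m‖ ≤ (rt a m).card := by
  rw [rs_eq]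
  refine (norm_sum_le _ _).trans ?_
  simp only [norm_ex, sum_const, nsmul_eq_mul, mul_one, le_refl]

theorem S_triv {T : ℝ} {a : ℤ} (h : ℤ) (q M : ℕ)
    (hR : ∑ m ∈ Ioc 0 M, ((rt a m).card : ℝ) ≤ T * M) : ‖S a h q M‖ ≤ T * M := by
  refine le_trans ?_ hR
  rw [S]
  refine (norm_sum_le _ _).trans ?_
  refine (sum_le_sum fun m _ => rs_norm a h m).trans ?_
  exact sum_le_sum_of_subset_of_nonneg (filter_subset _ _) fun m _ _ => by positivity

/-- the induction -/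
theorem claim {a h : ℤ} {q : ℕ} {T A Bd R : ℝ} (hA : 1 ≤ A) (hT : 0 ≤ T) (hBd : 0 ≤ Bd)
    (htr : ∀ M : ℕ, (M : ℝ) ≤ A → ‖S a h q M‖ ≤ T * M)
    (hbl : ∀ P J : ℕ, A ≤ 2 * P → (P : ℝ) ≤ R → J ≤ 2 * P →
      ‖∑ m ∈ (Ioc P J).filter (fun m => q ∣ m), rs a h m‖ ≤ Bd) :
    ∀ k M : ℕ, M ≤ 2 ^ k → (M : ℝ) ≤ R → ‖S a h q M‖ ≤ T * A + k * Bd := by
  intro k
  induction k with
  | zero =>
    intro M hM hMR
    have h1 : (M : ℝ) ≤ A := by
      have : (M : ℝ) ≤ 1 := by exact_mod_cast hM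
      linarith
    refine (htr M h1).trans ?_
    have := mul_le_mul_of_nonneg_left h1 hT
    simp only [Nat.cast_zero, zero_mul, add_zero]
    exact this
  | succ k ih =>
    intro M hM hMR
    by_cases h1 : (M : ℝ) ≤ A
    · refine (htr M h1).trans ?_
      have h2 := mul_le_mul_of_nonneg_left h1 hT
      have h3 : 0 ≤ ((k + 1 : ℕ) : ℝ) * Bd := by positivity
      linarith
    · push Not at h1
      have hM1 : 1 ≤ M := by
        by_contra h2
        have : M = 0 := by omega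
        rw [this] at h1
        simp only [Nat.cast_zero] at h1
        linarith
      have hP1 : (M + 1) / 2 ≤ 2 ^ k := by
        rw [pow_succ] at hM
        omega
      have hP2 : M ≤ 2 * ((M + 1) / 2) := by omega
      have hP3 : (M + 1) / 2 ≤ M := by omega
      have hP2' : (M : ℝ) ≤ 2 * (((M + 1) / 2 : ℕ) : ℝ) := by exact_mod_cast hP2
      have hP3' : (((M + 1) / 2 : ℕ) : ℝ) ≤ M := by exact_mod_cast hP3
      rw [S_split a h q hP3]
      refine (norm_add_le _ _).trans ?_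
      have h2 := ih ((M + 1) / 2) hP1 (hP3'.trans hMR)
      have h3 := hbl ((M + 1) / 2) M (h1.le.trans hP2') (hP3'.trans hMR) hP2
      push_cast
      linarith

theorem ev_log : ∃ N₀ : ℕ, ∀ N : ℕ, N₀ ≤ N → 1 + 4 * Real.log N ≤ (N : ℝ) ^ (1 / 1000 : ℝ) ∧
    4 ≤ (N : ℝ) ^ (4 / 1000 : ℝ) ∧ 2 ≤ (N : ℝ) := by
  have h1 : Tendsto (fun x : ℝ => (1 + 4 * Real.log x) / x ^ (1 / 1000 : ℝ)) atTop (𝓝 0) := by
    have h2 : Tendsto (fun x : ℝ => Real.log x / x ^ (1 / 1000 : ℝ)) atTop (𝓝 0) :=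
      (isLittleO_log_rpow_atTop (by norm_num)).tendsto_div_nhds_zero
    have h3 : Tendsto (fun x : ℝ => 1 / x ^ (1 / 1000 : ℝ)) atTop (𝓝 0) :=
      tendsto_const_nhds.div_atTop (tendsto_rpow_atTop (by norm_num))
    have h4 := h3.add (h2.const_mul 4)
    rw [mul_zero, add_zero] at h4
    refine h4.congr fun x => ?_
    ring
  have h5 := (h1.comp tendsto_natCast_atTop_atTop).eventually (gt_mem_nhds (zero_lt_one' ℝ))
  have h6 := ((tendsto_rpow_atTop (y := (4 / 1000 : ℝ)) (by norm_num)).comp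
    tendsto_natCast_atTop_atTop).eventually_ge_atTop 4
  obtain ⟨N₀, hN₀⟩ := (h5.and (h6.and (eventually_ge_atTop 2))).exists_forall_of_atTop
  refine ⟨N₀, fun N hN => ?_⟩
  obtain ⟨h7, h8, h9⟩ := hN₀ N hN
  have h9' : (2 : ℝ) ≤ N := by exact_mod_cast h9
  refine ⟨?_, h8, h9'⟩
  simp only [Function.comp_apply] at h7
  rw [div_lt_one (by positivity)] at h7
  exact h7.le

end ROWM

open ROWM in
/-- **ROW**. -/
theorem specROW (hDYA : SpecDYA) (hTBN : SpecTBN) (hRCT : SpecRCT) : SpecROW := by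
  obtain ⟨N₁, hN₁⟩ := hDYA
  obtain ⟨N₂, hN₂⟩ := hTBN
  obtain ⟨N₃, hN₃⟩ := ev_log
  refine ⟨1 / 200, by norm_num, max N₁ (max N₂ N₃), fun N hN a ha haN q hq hqN h hh hhN M₁ M₂ hM
    hM₂ => ?_⟩
  have hD := hN₁ N (le_of_max_le_left hN) a ha haN q hq hqN h hh hhN
  have hT := hN₂ N (le_of_max_le_left (le_of_max_le_right hN))
  obtain ⟨hl, h4, hN2⟩ := hN₃ N (le_of_max_le_right (le_of_max_le_right hN))
  have hN0 : (0 : ℝ) < N := by linarith
  have hN1 : (1 : ℝ) ≤ N := by linarith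
  set T : ℝ := (N : ℝ) ^ (1 / 1000 : ℝ) with hTd
  have hT1 : 0 < T := by positivity
  set A : ℝ := (N : ℝ) ^ (99 / 100 : ℝ) with hA
  have hA1 : 1 ≤ A := Real.one_le_rpow hN1 (by norm_num)
  set Bd : ℝ := (N : ℝ) ^ (989 / 1000 : ℝ) with hBd
  have hBd0 : 0 < Bd := by positivity
  set R : ℝ := (N : ℝ) ^ (1 + 1 / 200 : ℝ) with hR
  -- the trivial bound
  have htr : ∀ M : ℕ, (M : ℝ) ≤ R → ‖S a h q M‖ ≤ T * M := by
    intro M hM
    refine S_triv h q M (hRCT T a M ha (hT _ ?_)).1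
    push_cast
    have e1 : ((a.natAbs : ℕ) : ℝ) = |(a : ℝ)| := by
      rw [Nat.cast_natAbs, Int.cast_abs]
    have e2 : (M : ℝ) ^ 2 ≤ (N : ℝ) ^ (3 : ℝ) := by
      calc (M : ℝ) ^ 2 ≤ R ^ 2 := pow_le_pow_left₀ (by positivity) hM 2
        _ = (N : ℝ) ^ ((1 + 1 / 200 : ℝ) * 2) := by
            rw [hR, ← Real.rpow_natCast, ← Real.rpow_mul hN0.le]
            norm_num
        _ ≤ (N : ℝ) ^ (3 : ℝ) := Real.rpow_le_rpow_of_exponent_le hN1 (by norm_num)
    have e3 : |(a : ℝ)| ≤ (N : ℝ) ^ (3 : ℝ) :=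
      haN.trans (Real.rpow_le_rpow_of_exponent_le hN1 (by norm_num))
    have e4 : (N : ℝ) ^ (4 : ℝ) = N * (N : ℝ) ^ (3 : ℝ) := by
      rw [show (4 : ℝ) = 1 + 3 by norm_num, Real.rpow_add hN0, Real.rpow_one]
    rw [e1, e4]
    have e5 : (0 : ℝ) < (N : ℝ) ^ (3 : ℝ) := by positivity
    nlinarith
  have hAR : A ≤ R := Real.rpow_le_rpow_of_exponent_le hN1 (by norm_num)
  have hcl := claim (R := R) hA1 hT1.le hBd0.le (fun M hM => htr M (hM.trans hAR))
    (fun P J h1 h2 h3 => hD P J h1 h2 h3)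
  -- the bound for S
  have hS : ∀ M : ℕ, (M : ℝ) ≤ R → ‖S a h q M‖ ≤ 2 * (N : ℝ) ^ (991 / 1000 : ℝ) := by
    intro M hM
    have h1 : M ≤ 2 ^ (Nat.log 2 M + 1) := (Nat.lt_pow_succ_log_self one_lt_two M).le
    have h2 := hcl _ M h1 hM
    have h3 : ((Nat.log 2 M + 1 : ℕ) : ℝ) ≤ T := by
      refine le_trans ?_ hl
      push_cast
      have h5 : (Nat.log 2 M : ℝ) ≤ 4 * Real.log N := by
        rcases Nat.eq_zero_or_pos M with h0 | h0
        · rw [h0, Nat.log_zero_right]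
          simp only [Nat.cast_zero]
          have := Real.log_nonneg hN1
          linarith
        · have h6 : (2 : ℝ) ^ (Nat.log 2 M) ≤ M := by
            exact_mod_cast Nat.pow_log_le_self 2 (by omega)
          have h7 := Real.log_le_log (by positivity) h6
          rw [Real.log_pow] at h7
          have h8 : Real.log M ≤ 2 * Real.log N := by
            have hM0 : (0 : ℝ) < M := by exact_mod_cast h0
            have h9 := Real.log_le_log hM0 hM
            rw [hR, Real.log_rpow hN0] at h9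
            have := Real.log_nonneg hN1
            nlinarith
          have h9 : (1 : ℝ) / 2 ≤ Real.log 2 := by
            have := Real.log_two_gt_d9
            linarith
          have h10 : (0 : ℝ) ≤ (Nat.log 2 M : ℝ) := by positivity
          nlinarith
      linarith
    have h4 : T * A = (N : ℝ) ^ (991 / 1000 : ℝ) := by
      rw [hTd, hA, ← Real.rpow_add hN0]
      norm_num
    have h5 : ((Nat.log 2 M + 1 : ℕ) : ℝ) * Bd ≤ (N : ℝ) ^ (991 / 1000 : ℝ) := by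
      calc ((Nat.log 2 M + 1 : ℕ) : ℝ) * Bd ≤ T * Bd := mul_le_mul_of_nonneg_right h3 hBd0.le
        _ = (N : ℝ) ^ (990 / 1000 : ℝ) := by
            rw [hTd, hBd, ← Real.rpow_add hN0]
            norm_num
        _ ≤ (N : ℝ) ^ (991 / 1000 : ℝ) := Real.rpow_le_rpow_of_exponent_le hN1 (by norm_num)
    rw [h4] at h2
    linarith
  have e1 : ∑ m ∈ (Ioc M₁ M₂).filter (fun m => q ∣ m), rs a h m = S a h q M₂ - S a h q M₁ := by
    rw [S_split a h q hM]
    ring
  rw [e1]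
  have hM₁ : (M₁ : ℝ) ≤ R := le_trans (by exact_mod_cast hM) hM₂
  have h5 : ‖S a h q M₂ - S a h q M₁‖ ≤ 4 * (N : ℝ) ^ (991 / 1000 : ℝ) := by
    refine (norm_sub_le _ _).trans ?_
    have h6 := hS M₂ hM₂
    have h7 := hS M₁ hM₁
    linarith
  refine h5.trans ?_
  calc 4 * (N : ℝ) ^ (991 / 1000 : ℝ) ≤ (N : ℝ) ^ (4 / 1000 : ℝ) * (N : ℝ) ^ (991 / 1000 : ℝ) :=
        mul_le_mul_of_nonneg_right h4 (by positivity)
    _ = (N : ℝ) ^ (1 - 1 / 200 : ℝ) := by
        rw [← Real.rpow_add hN0]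
        norm_num

end Pool.Agent.Lib.MP391708.U.R
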