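import Pool.Agent.Lib.MP_391708_nt.U.R.SpecR

/-!
# Project U (MP_391708), part R, module SBD: one block, Abel summation (helper67)
-/

set_option autoImplicit false

namespace Pool.Agent.Lib.MP391708.U.R

open Finset Filter Topology Pool.Agent.Lib.MP391708.QPA Pool.Agent.Lib.MP391708.U
open scoped Classical

namespace SBDM

/-- the inner sum with the weight -/
noncomputable def cm (a h : ℤ) (X Y m : ℕ) : ℂ :=
  ∑ ν ∈ rt a m, ex ((h : ℝ) * ν / m) * (Wt X Y m ν : ℂ)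

theorem Us_eq (a h : ℤ) (q P J X Y : ℕ) :
    Us a h q P J X Y = ∑ m ∈ (Ioc P J).filter (fun m => q ∣ m), cm a h X Y m := rfl

/-- Abel summation -/
theorem abel (c : ℕ → ℂ) (q P J : ℕ) :
    ∑ m ∈ (Ioc P J).filter (fun m => q ∣ m), (m : ℂ) * c m =
      (J : ℂ) * ∑ m ∈ (Ioc P J).filter (fun m => q ∣ m), c m -
        ∑ j ∈ Ico P J, ∑ m ∈ (Ioc P j).filter (fun m => q ∣ m), c m := by
  have h1 : ∑ j ∈ Ico P J, ∑ m ∈ (Ioc P j).filter (fun m => q ∣ m), c m =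
      ∑ m ∈ (Ioc P J).filter (fun m => q ∣ m), ((J : ℂ) - m) * c m := by
    have h2 : ∀ j ∈ Ico P J, ∑ m ∈ (Ioc P j).filter (fun m => q ∣ m), c m =
        ∑ m ∈ (Ioc P J).filter (fun m => q ∣ m), if m ≤ j then c m else 0 := by
      intro j hj
      rw [mem_Ico] at hj
      rw [← sum_filter]
      refine sum_congr ?_ fun _ _ => rfl
      ext m
      simp only [mem_filter, mem_Ioc]
      constructor
      · rintro ⟨⟨h3, h4⟩, h5⟩
        exact ⟨⟨⟨h3, by omega⟩, h5⟩, h4⟩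
      · rintro ⟨⟨⟨h3, h4⟩, h5⟩, h6⟩
        exact ⟨⟨h3, h6⟩, h5⟩
    rw [sum_congr rfl h2, sum_comm]
    refine sum_congr rfl fun m hm => ?_
    simp only [mem_filter, mem_Ioc] at hm
    rw [← sum_filter, sum_const, nsmul_eq_mul]
    congr 1
    have h3 : (Ico P J).filter (fun j => m ≤ j) = Ico m J := by
      ext j
      simp only [mem_filter, mem_Ico]
      omega
    rw [h3, Nat.card_Ico, Nat.cast_sub hm.1.2]
  rw [h1, mul_sum, ← sum_sub_distrib]
  refine sum_congr rfl fun m _ => ?_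
  ring

end SBDM

open SBDM in
/-- **SBD**. -/
theorem specSBD (hEXC : SpecEXC) (hUBD : SpecUBD) : SpecSBD := by
  intro T a h q P J X Y ha hh hq hX hXY hYP hPXY hJ haXY hT
  have hP : 1 ≤ P := by omega
  have hXr : (0 : ℝ) < X := by exact_mod_cast hX
  have hYr : (0 : ℝ) < Y := by exact_mod_cast (by omega : 0 < Y)
  have hXY0 : (0 : ℝ) < X * Y := by positivity
  set F := (Ioc P J).filter (fun m => q ∣ m) with hF
  -- the decomposition
  have h1 : ∑ m ∈ F, rs a h m =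
      ∑ m ∈ F, ∑ ν ∈ rt a m, ex ((h : ℝ) * ν / m) *
        ((1 - (m : ℝ) * Wt X Y m ν / (X * Y) : ℝ) : ℂ) +
      (1 / ((X * Y : ℝ) : ℂ)) * ∑ m ∈ F, (m : ℂ) * cm a h X Y m := by
    rw [mul_sum, ← sum_add_distrib]
    refine sum_congr rfl fun m _ => ?_
    rw [rs_eq, cm, mul_sum, mul_sum, ← sum_add_distrib]
    refine sum_congr rfl fun ν _ => ?_
    have hne : ((X * Y : ℝ) : ℂ) ≠ 0 := by exact_mod_cast hXY0.ne'
    push_cast at hne ⊢
    field_simp
    ring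
  -- the first part
  have h2 : ‖∑ m ∈ F, ∑ ν ∈ rt a m, ex ((h : ℝ) * ν / m) *
        ((1 - (m : ℝ) * Wt X Y m ν / (X * Y) : ℝ) : ℂ)‖ ≤ 50 * T ^ 2 * (P : ℝ) ^ 2 / (X * Y) := by
    calc ‖∑ m ∈ F, ∑ ν ∈ rt a m, ex ((h : ℝ) * ν / m) *
        ((1 - (m : ℝ) * Wt X Y m ν / (X * Y) : ℝ) : ℂ)‖
        ≤ ∑ m ∈ F, ∑ ν ∈ rt a m, |(m : ℝ) * Wt X Y m ν / (X * Y) - 1| := by
          refine (norm_sum_le _ _).trans (sum_le_sum fun m _ => ?_)
          refine (norm_sum_le _ _).trans (sum_le_sum fun ν _ => ?_)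
          rw [norm_mul, norm_ex, one_mul, Complex.norm_real, Real.norm_eq_abs, abs_sub_comm]
      _ ≤ ∑ m ∈ Ioc P (2 * P), ∑ ν ∈ rt a m, |(m : ℝ) * Wt X Y m ν / (X * Y) - 1| := by
          refine sum_le_sum_of_subset_of_nonneg ?_ fun m _ _ => sum_nonneg fun ν _ => abs_nonneg _
          intro m hm
          rw [hF, mem_filter, mem_Ioc] at hm
          rw [mem_Ioc]
          omega
      _ ≤ _ := hEXC T a X Y P ha hX hXY hP hT
  -- the second part
  set U : ℝ := ubd T h q P X Y with hU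
  have hb : ∀ j : ℕ, j ≤ 2 * P → ‖∑ m ∈ (Ioc P j).filter (fun m => q ∣ m), cm a h X Y m‖ ≤ U := by
    intro j hj
    rw [← Us_eq]
    exact hUBD T a h q P j X Y ha hh hq hX hXY hYP hPXY hj haXY hT
  have hU0 : 0 ≤ U := (norm_nonneg _).trans (hb J hJ)
  have h3 : ‖∑ m ∈ F, (m : ℂ) * cm a h X Y m‖ ≤ 3 * P * U := by
    rw [hF, abel]
    refine (norm_sub_le _ _).trans ?_
    have h4 : ‖(J : ℂ) * ∑ m ∈ (Ioc P J).filter (fun m => q ∣ m), cm a h X Y m‖ ≤ 2 * P * U := by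
      rw [norm_mul, Complex.norm_natCast]
      have h5 : (J : ℝ) ≤ 2 * P := by exact_mod_cast hJ
      exact mul_le_mul h5 (hb J hJ) (norm_nonneg _) (by positivity)
    have h5 : ‖∑ j ∈ Ico P J, ∑ m ∈ (Ioc P j).filter (fun m => q ∣ m), cm a h X Y m‖ ≤ P * U := by
      refine (norm_sum_le _ _).trans ?_
      have h6 : ∑ j ∈ Ico P J, ‖∑ m ∈ (Ioc P j).filter (fun m => q ∣ m), cm a h X Y m‖ ≤
          ∑ _j ∈ Ico P J, U := by
        refine sum_le_sum fun j hj => hb j ?_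
        rw [mem_Ico] at hj
        omega
      refine h6.trans ?_
      rw [sum_const, nsmul_eq_mul, Nat.card_Ico]
      refine mul_le_mul_of_nonneg_right ?_ hU0
      have : J - P ≤ P := by omega
      exact_mod_cast this
    linarith
  rw [h1]
  refine (norm_add_le _ _).trans (add_le_add h2 ?_)
  rw [norm_mul, norm_div, norm_one, Complex.norm_real, Real.norm_eq_abs, abs_of_pos hXY0]
  calc 1 / ((X : ℝ) * Y) * ‖∑ m ∈ F, (m : ℂ) * cm a h X Y m‖ ≤ 1 / ((X : ℝ) * Y) * (3 * P * U) :=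
        mul_le_mul_of_nonneg_left h3 (by positivity)
    _ = 3 * P / (X * Y) * U := by ring

end Pool.Agent.Lib.MP391708.U.R
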