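import Pool.Agent.Lib.MP_391708_nt.U.R.SpecR

/-!
# Project U (MP_391708), part R: module SIN
-/

set_option autoImplicit false

namespace Pool.Agent.Lib.MP391708.U.R

open Finset Filter Topology Pool.Agent.Lib.MP391708.QPA Pool.Agent.Lib.MP391708.U
open Pool.Agent.Lib.MP_1446ad_nt.SM (tau uu vv kc SpecKLB SpecDEC)
open scoped Classical

noncomputable section

namespace SINM

/-- A finite set of consecutive integers is an interval. -/
theorem eq_Icc (E : Finset ℤ) (hne : E.Nonempty)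
    (hE : ∀ s ∈ E, ∀ t ∈ E, ∀ r : ℤ, s ≤ r → r ≤ t → r ∈ E) :
    ∃ A ∈ E, ∃ B ∈ E, A ≤ B ∧ E = Icc A B := by
  refine ⟨E.min' hne, E.min'_mem hne, E.max' hne, E.max'_mem hne,
    E.min'_le _ (E.max'_mem hne), ?_⟩
  ext r
  rw [mem_Icc]
  constructor
  · intro hr
    exact ⟨E.min'_le _ hr, E.le_max' _ hr⟩
  · rintro ⟨h1, h2⟩
    exact hE _ (E.min'_mem hne) _ (E.max'_mem hne) r h1 h2

theorem KB_nonneg (x : ℕ) (b : ℤ) : 0 ≤ KB x b := by
  unfold KB
  have : (0 : ℝ) ≤ tau x := by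
    unfold tau
    positivity
  positivity

/-- The sum over a set of consecutive integers with a periodic condition. -/
theorem seg (hKIN : SpecKIN) (x q : ℕ) (b : ℤ) (hx : 1 ≤ x) (hq : 1 ≤ q) (hb : b ≠ 0)
    (E : Finset ℤ) (hE : ∀ s ∈ E, ∀ t ∈ E, ∀ r : ℤ, s ≤ r → r ≤ t → r ∈ E)
    (f : ℤ → Prop) [DecidablePred f] (hf : ∀ s r : ℤ, (q : ℤ) ∣ s - r → (f s ↔ f r))
    (D : ℝ) (hD0 : 0 ≤ D) (hD : ∀ s ∈ E, ∀ t ∈ E, (t : ℝ) - s ≤ D) :
    ‖∑ s ∈ E.filter f, kf x b s‖ ≤ q * KB x b * (D / x + 2 + Real.log x) := by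
  have hx1 : (1 : ℝ) ≤ x := by exact_mod_cast hx
  have hlog : 0 ≤ Real.log x := Real.log_nonneg hx1
  have hbr : 0 ≤ D / x + 2 + Real.log x := by positivity
  have hKB := KB_nonneg x b
  rcases E.eq_empty_or_nonempty with h0 | hne
  · subst h0
    simp only [filter_empty, sum_empty, norm_zero]
    positivity
  · obtain ⟨A, hA, B, hB, hAB, hEI⟩ := eq_Icc E hne hE
    have hq0 : (q : ℤ) ≠ 0 := by exact_mod_cast (by omega : q ≠ 0)
    have hqp : (0 : ℤ) < q := by exact_mod_cast hq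
    have hmaps : ∀ s ∈ E.filter f, (s % (q : ℤ)).toNat ∈ range q := by
      intro s _
      rw [mem_range]
      have h1 := Int.emod_nonneg s hq0
      have h2 := Int.emod_lt_of_pos s hqp
      omega
    rw [← sum_fiberwise_of_maps_to hmaps]
    have hone : ∀ r ∈ range q,
        ‖∑ s ∈ (E.filter f).filter (fun s : ℤ => (s % (q : ℤ)).toNat = r), kf x b s‖ ≤
          KB x b * (D / x + 2 + Real.log x) := by
      intro r hr
      have hrq : r < q := mem_range.1 hr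
      have key : ∀ s : ℤ, (s % (q : ℤ)).toNat = r ↔ (q : ℤ) ∣ s - r := by
        intro s
        have h1 := Int.emod_nonneg s hq0
        have h2 := Int.emod_lt_of_pos s hqp
        constructor
        · intro h
          have h3 : s % (q : ℤ) = r := by omega
          rw [← h3]
          exact Int.dvd_self_sub_emod
        · intro h
          have h3 : s % (q : ℤ) = (r : ℤ) % q :=
            Int.emod_eq_emod_iff_emod_sub_eq_zero.2 (Int.emod_eq_zero_of_dvd h)
          have h4 : (r : ℤ) % q = r := Int.emod_eq_of_lt (by omega) (by omega)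
          omega
      by_cases hfr : f (r : ℤ)
      · have hset : (E.filter f).filter (fun s : ℤ => (s % (q : ℤ)).toNat = r) =
            (Icc A B).filter (fun s : ℤ => (q : ℤ) ∣ s - r) := by
          ext s
          simp only [mem_filter, key, ← hEI]
          constructor
          · rintro ⟨⟨h1, _⟩, h3⟩
            exact ⟨h1, h3⟩
          · rintro ⟨h1, h3⟩
            exact ⟨⟨h1, (hf s r h3).2 hfr⟩, h3⟩
        rw [hset]
        refine (hKIN x q b r A B hx hq hb hAB).trans ?_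
        apply mul_le_mul_of_nonneg_left _ hKB
        have h5 := hD A hA B hB
        have h6 : ((B : ℝ) - A) / x ≤ D / x := div_le_div_of_nonneg_right h5 (by positivity)
        linarith
      · have hset : (E.filter f).filter (fun s : ℤ => (s % (q : ℤ)).toNat = r) = ∅ := by
          apply filter_eq_empty_iff.2
          intro s hs h
          rw [key] at h
          exact hfr ((hf s r h).1 (mem_filter.1 hs).2)
        rw [hset, sum_empty, norm_zero]
        positivity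
    calc ‖∑ r ∈ range q, ∑ s ∈ (E.filter f).filter (fun s : ℤ => (s % (q : ℤ)).toNat = r),
          kf x b s‖ ≤ ∑ r ∈ range q,
            ‖∑ s ∈ (E.filter f).filter (fun s : ℤ => (s % (q : ℤ)).toNat = r), kf x b s‖ :=
          norm_sum_le _ _
      _ ≤ ∑ _r ∈ range q, KB x b * (D / x + 2 + Real.log x) := sum_le_sum hone
      _ = q * KB x b * (D / x + 2 + Real.log x) := by
          rw [sum_const, card_range, nsmul_eq_mul]; ring

/-- `α * mf = y² + a x²`. -/
theorem mf_mul {a α β : ℤ} (h : α ∣ β ^ 2 + a) (s x : ℤ) :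
    α * mf a α β s x = (β * x - α * s) ^ 2 + a * x ^ 2 := by
  unfold mf
  have h1 : α * ((β ^ 2 + a) / α) = β ^ 2 + a := Int.mul_ediv_cancel' h
  linear_combination x ^ 2 * h1

/-- `mf` depends only on `s` modulo `q`. -/
theorem mf_cong {a α β x q s r : ℤ} (h : q ∣ s - r) :
    (q ∣ mf a α β s x ↔ q ∣ mf a α β r x) := by
  have h1 : q ∣ mf a α β s x - mf a α β r x := by
    have : mf a α β s x - mf a α β r x = (s - r) * (α * (s + r) - 2 * β * x) := by
      unfold mf; ring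
    rw [this]
    exact Dvd.dvd.mul_right h _
  constructor
  · intro h2
    have := dvd_sub h2 h1
    simpa using this
  · intro h2
    have := dvd_add h1 h2
    simpa using this

/-- The monotonicity. -/
theorem mono_aux {α c m1 m2 m3 y1 y2 y3 : ℤ} (hα : α ≠ 0)
    (h1 : α * m1 = y1 ^ 2 + c) (h2 : α * m2 = y2 ^ 2 + c) (h3 : α * m3 = y3 ^ 2 + c)
    (hsg : (0 ≤ y1 ∧ 0 ≤ y3) ∨ (y1 < 0 ∧ y3 < 0))
    (hb : (y1 ≤ y2 ∧ y2 ≤ y3) ∨ (y3 ≤ y2 ∧ y2 ≤ y1)) :
    (m1 ≤ m2 ∧ m2 ≤ m3) ∨ (m3 ≤ m2 ∧ m2 ≤ m1) := by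
  have hsq : (y1 ^ 2 ≤ y2 ^ 2 ∧ y2 ^ 2 ≤ y3 ^ 2) ∨ (y3 ^ 2 ≤ y2 ^ 2 ∧ y2 ^ 2 ≤ y1 ^ 2) := by
    rcases hsg with ⟨p1, p3⟩ | ⟨p1, p3⟩ <;> rcases hb with ⟨b1, b2⟩ | ⟨b1, b2⟩
    · left; constructor <;> nlinarith
    · right; constructor <;> nlinarith
    · right; constructor <;> nlinarith
    · left; constructor <;> nlinarith
  rcases lt_or_gt_of_ne hα with hn | hp
  · rcases hsq with ⟨q1, q2⟩ | ⟨q1, q2⟩
    · right
      constructor
      · by_contra hc; push Not at hc; nlinarith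
      · by_contra hc; push Not at hc; nlinarith
    · left
      constructor
      · by_contra hc; push Not at hc; nlinarith
      · by_contra hc; push Not at hc; nlinarith
  · rcases hsq with ⟨q1, q2⟩ | ⟨q1, q2⟩
    · left
      constructor
      · by_contra hc; push Not at hc; nlinarith
      · by_contra hc; push Not at hc; nlinarith
    · right
      constructor
      · by_contra hc; push Not at hc; nlinarith
      · by_contra hc; push Not at hc; nlinarith

/-- `y` is monotone in `s`. -/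
theorem y_between {α c s r t : ℤ} (h1 : s ≤ r) (h2 : r ≤ t) :
    (c - α * s ≤ c - α * r ∧ c - α * r ≤ c - α * t) ∨
      (c - α * t ≤ c - α * r ∧ c - α * r ≤ c - α * s) := by
  rcases le_total α 0 with h | h
  · left; constructor <;> nlinarith
  · right; constructor <;> nlinarith

end SINM

open SINM in
theorem specSIN (hKIN : SpecKIN) : SpecSIN := by
  intro a b α β q P J x Y hb hα hdvd hx hq
  set G : Finset ℤ := (Icc (-((Y : ℤ) + x)) (Y + x)).filter
    (fun s : ℤ => (P : ℤ) < mf a α β s x ∧ mf a α β s x ≤ J ∧ |β * x - α * s| ≤ Y) with hG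
  have hx1 : (1 : ℝ) ≤ x := by exact_mod_cast hx
  have hαr : 0 < |(α : ℝ)| := by
    rw [abs_pos]; exact_mod_cast hα
  have hmem : ∀ s : ℤ, s ∈ G ↔ (-((Y : ℤ) + x) ≤ s ∧ s ≤ Y + x) ∧
      (P : ℤ) < mf a α β s x ∧ mf a α β s x ≤ J ∧ |β * x - α * s| ≤ Y := by
    intro s
    rw [hG, mem_filter, mem_Icc]
  -- the decomposition
  have hdec : Sset a α β q P J x Y =
      (G.filter (fun s : ℤ => 0 ≤ β * x - α * s)).filter (fun s : ℤ => (q : ℤ) ∣ mf a α β s x) ∪
      (G.filter (fun s : ℤ => β * x - α * s < 0)).filter (fun s : ℤ => (q : ℤ) ∣ mf a α β s x) := by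
    ext s
    unfold Sset
    simp only [mem_union, mem_filter, hmem, mem_Icc]
    constructor
    · rintro ⟨h1, h2, h3, h4, h5⟩
      rcases le_or_gt 0 (β * x - α * s) with h | h
      · left; exact ⟨⟨⟨h1, h2, h3, h5⟩, h⟩, h4⟩
      · right; exact ⟨⟨⟨h1, h2, h3, h5⟩, h⟩, h4⟩
    · rintro (⟨⟨⟨h1, h2, h3, h5⟩, _⟩, h4⟩ | ⟨⟨⟨h1, h2, h3, h5⟩, _⟩, h4⟩)
      · exact ⟨h1, h2, h3, h4, h5⟩
      · exact ⟨h1, h2, h3, h4, h5⟩
  have hdis : Disjoint
      ((G.filter (fun s : ℤ => 0 ≤ β * x - α * s)).filter (fun s : ℤ => (q : ℤ) ∣ mf a α β s x))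
      ((G.filter (fun s : ℤ => β * x - α * s < 0)).filter
        (fun s : ℤ => (q : ℤ) ∣ mf a α β s x)) := by
    rw [disjoint_left]
    intro s h1 h2
    simp only [mem_filter] at h1 h2
    have h3 := h1.1.2
    have h4 := h2.1.2
    omega
  -- convexity
  have hconv : ∀ s ∈ G, ∀ t ∈ G, ∀ r : ℤ, s ≤ r → r ≤ t →
      ((0 ≤ β * x - α * s ∧ 0 ≤ β * x - α * t) ∨ (β * x - α * s < 0 ∧ β * x - α * t < 0)) →
      r ∈ G := by
    intro s hs t ht r hsr hrt hsg
    rw [hmem] at hs ht ⊢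
    obtain ⟨⟨s1, s2⟩, s3, s4, s5⟩ := hs
    obtain ⟨⟨t1, t2⟩, t3, t4, t5⟩ := ht
    have hyb := y_between (α := α) (c := β * x) hsr hrt
    have hm := mono_aux hα (mf_mul hdvd s x) (mf_mul hdvd r x) (mf_mul hdvd t x) hsg hyb
    refine ⟨⟨by omega, by omega⟩, ?_, ?_, ?_⟩
    · rcases hm with ⟨h1, h2⟩ | ⟨h1, h2⟩ <;> omega
    · rcases hm with ⟨h1, h2⟩ | ⟨h1, h2⟩ <;> omega
    · rw [abs_le] at s5 t5 ⊢
      rcases hyb with ⟨h1, h2⟩ | ⟨h1, h2⟩ <;> constructor <;> linarith [s5.1, s5.2, t5.1, t5.2]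
  have hlen : ∀ s ∈ G, ∀ t ∈ G,
      ((0 ≤ β * x - α * s ∧ 0 ≤ β * x - α * t) ∨ (β * x - α * s < 0 ∧ β * x - α * t < 0)) →
      (t : ℝ) - s ≤ (Y : ℝ) / |(α : ℝ)| := by
    intro s hs t ht hsg
    rw [hmem] at hs ht
    obtain ⟨_, _, _, s5⟩ := hs
    obtain ⟨_, _, _, t5⟩ := ht
    rw [abs_le] at s5 t5
    rw [le_div_iff₀ hαr]
    have h1 : |α * (t - s)| ≤ Y := by
      rw [abs_le]
      have : α * (t - s) = (β * x - α * s) - (β * x - α * t) := by ring
      rw [this]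
      rcases hsg with ⟨h1, h2⟩ | ⟨h1, h2⟩ <;> constructor <;> linarith [s5.1, s5.2, t5.1, t5.2]
    have h2 : |(α : ℝ)| * |(t : ℝ) - s| ≤ Y := by
      rw [← abs_mul]
      exact_mod_cast h1
    calc ((t : ℝ) - s) * |(α : ℝ)| ≤ |(t : ℝ) - s| * |(α : ℝ)| :=
          mul_le_mul_of_nonneg_right (le_abs_self _) hαr.le
      _ = |(α : ℝ)| * |(t : ℝ) - s| := mul_comm _ _
      _ ≤ Y := h2
  have hper : ∀ s r : ℤ, (q : ℤ) ∣ s - r → ((q : ℤ) ∣ mf a α β s x ↔ (q : ℤ) ∣ mf a α β r x) :=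
    fun s r h => mf_cong h
  have hD0 : 0 ≤ (Y : ℝ) / |(α : ℝ)| := by positivity
  have hp := seg hKIN x q b hx hq hb (G.filter (fun s : ℤ => 0 ≤ β * x - α * s))
    (by
      intro s hs t ht r hsr hrt
      rw [mem_filter] at hs ht ⊢
      refine ⟨hconv s hs.1 t ht.1 r hsr hrt (Or.inl ⟨hs.2, ht.2⟩), ?_⟩
      rcases y_between (α := α) (c := β * x) hsr hrt with ⟨h1, h2⟩ | ⟨h1, h2⟩
      · linarith [hs.2, ht.2]
      · linarith [hs.2, ht.2])
    (fun s : ℤ => (q : ℤ) ∣ mf a α β s x) hper ((Y : ℝ) / |(α : ℝ)|) hD0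
    (by
      intro s hs t ht
      rw [mem_filter] at hs ht
      exact hlen s hs.1 t ht.1 (Or.inl ⟨hs.2, ht.2⟩))
  have hn := seg hKIN x q b hx hq hb (G.filter (fun s : ℤ => β * x - α * s < 0))
    (by
      intro s hs t ht r hsr hrt
      rw [mem_filter] at hs ht ⊢
      refine ⟨hconv s hs.1 t ht.1 r hsr hrt (Or.inr ⟨hs.2, ht.2⟩), ?_⟩
      rcases y_between (α := α) (c := β * x) hsr hrt with ⟨h1, h2⟩ | ⟨h1, h2⟩
      · linarith [hs.2, ht.2]
      · linarith [hs.2, ht.2])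
    (fun s : ℤ => (q : ℤ) ∣ mf a α β s x) hper ((Y : ℝ) / |(α : ℝ)|) hD0
    (by
      intro s hs t ht
      rw [mem_filter] at hs ht
      exact hlen s hs.1 t ht.1 (Or.inr ⟨hs.2, ht.2⟩))
  rw [hdec, sum_union hdis]
  refine (norm_add_le _ _).trans ((add_le_add hp hn).trans (le_of_eq ?_))
  rw [div_div]
  ring

end

end Pool.Agent.Lib.MP391708.U.R
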