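import Pool.Agent.Lib.MP_391708_nt.U.R.SpecR
import Pool.Agent.Lib.MP_391708_nt.Div

/-!
# Project U (MP_391708), part R: module TBN
-/

set_option autoImplicit false

namespace Pool.Agent.Lib.MP391708.U.R

open Finset Filter Topology Pool.Agent.Lib.MP391708.QPA Pool.Agent.Lib.MP391708.U
open Pool.Agent.Lib.MP_1446ad_nt.SM (tau uu vv kc SpecKLB SpecDEC)
open scoped Classical

noncomputable section

theorem specTBN : SpecTBN := by
  obtain ⟨C, hC, hdiv⟩ :=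
    Pool.Agent.Lib.MP_391708_nt.Div.card_divisors_le_rpow (1 / 8000 : ℝ) (by norm_num)
  -- `C ≤ N^(1/2000)` eventually, `1 + 4 log N ≤ N^(1/1000)` eventually
  have hN : Tendsto (fun N : ℕ => (N : ℝ)) atTop atTop := tendsto_natCast_atTop_atTop
  have e1 : ∀ᶠ N : ℕ in atTop, C ≤ (N : ℝ) ^ (1 / 2000 : ℝ) :=
    ((tendsto_rpow_atTop (by norm_num : (0 : ℝ) < 1 / 2000)).comp hN).eventually_ge_atTop C
  have e2 : ∀ᶠ N : ℕ in atTop, 1 + 4 * Real.log N ≤ (N : ℝ) ^ (1 / 1000 : ℝ) := by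
    have h1 : Tendsto (fun x : ℝ => Real.log x / x ^ (1 / 1000 : ℝ)) atTop (𝓝 0) :=
      (isLittleO_log_rpow_atTop (by norm_num : (0 : ℝ) < 1 / 1000)).tendsto_div_nhds_zero
    have h2 : ∀ᶠ x : ℝ in atTop, Real.log x / x ^ (1 / 1000 : ℝ) < 1 / 8 :=
      h1.eventually_lt_const (by norm_num)
    have h3 : ∀ᶠ x : ℝ in atTop, (2 : ℝ) ≤ x ^ (1 / 1000 : ℝ) :=
      (tendsto_rpow_atTop (by norm_num : (0 : ℝ) < 1 / 1000)).eventually_ge_atTop 2
    have h4 : ∀ᶠ x : ℝ in atTop, 1 + 4 * Real.log x ≤ x ^ (1 / 1000 : ℝ) := by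
      filter_upwards [h2, h3, eventually_gt_atTop 0] with x hx2 hx3 hx0
      have hp : 0 < x ^ (1 / 1000 : ℝ) := Real.rpow_pos_of_pos hx0 _
      rw [div_lt_iff₀ hp] at hx2
      linarith
    exact hN.eventually h4
  obtain ⟨N₀, hN₀⟩ := Filter.eventually_atTop.1
    ((e1.and e2).and (eventually_ge_atTop 1))
  refine ⟨N₀, fun N hNN B hB => ?_⟩
  obtain ⟨⟨h1, h2⟩, h3⟩ := hN₀ N hNN
  have hN1 : (1 : ℝ) ≤ N := by exact_mod_cast h3
  have hN0 : (0 : ℝ) < N := by linarith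
  refine ⟨Real.one_le_rpow hN1 (by norm_num), fun n hn hnB => ⟨?_, ?_⟩⟩
  · have hn4 : (n : ℝ) ≤ (N : ℝ) ^ (4 : ℝ) := le_trans (by exact_mod_cast hnB) hB
    calc tau n ≤ C * (n : ℝ) ^ (1 / 8000 : ℝ) := hdiv n hn
      _ ≤ (N : ℝ) ^ (1 / 2000 : ℝ) * ((N : ℝ) ^ (4 : ℝ)) ^ (1 / 8000 : ℝ) := by
          apply mul_le_mul h1 (Real.rpow_le_rpow (by positivity) hn4 (by norm_num))
            (by positivity) (by positivity)
      _ = (N : ℝ) ^ (1 / 1000 : ℝ) := by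
          rw [← Real.rpow_mul hN0.le, ← Real.rpow_add hN0]
          norm_num
  · have hn4 : (n : ℝ) ≤ (N : ℝ) ^ (4 : ℝ) := le_trans (by exact_mod_cast hnB) hB
    have hnpos : (0 : ℝ) < n := by exact_mod_cast hn
    have := Real.log_le_log hnpos hn4
    rw [Real.log_rpow hN0] at this
    linarith

end

end Pool.Agent.Lib.MP391708.U.R
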