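import Pool.Agent.Lib.MP_391708_nt.U.R.SpecR

/-!
# Project U, part R, module THB: the bound for `Th`
-/

set_option autoImplicit false

namespace Pool.Agent.Lib.MP391708.U.R

open Finset Filter Topology Pool.Agent.Lib.MP391708.QPA Pool.Agent.Lib.MP391708.U
open Pool.Agent.Lib.MP_1446ad_nt.SM (tau uu vv kc SpecKLB SpecDEC)
open scoped Classical

noncomputable section

namespace THBM

theorem tau_nonneg (n : ℕ) : 0 ≤ tau n := by
  unfold tau
  exact Nat.cast_nonneg _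

theorem KB_nonneg (x : ℕ) (b : ℤ) : 0 ≤ KB x b := by
  unfold KB
  have := tau_nonneg x
  positivity

theorem KB_neg (x : ℕ) (b : ℤ) : KB x (-b) = KB x b := by
  unfold KB
  rw [Int.cast_neg, abs_neg]

/-- every natural number `0 < n ≤ Z` is the absolute value of two integers -/
theorem sum_two (Z : ℕ) (g : ℕ → ℝ) :
    ∑ α ∈ (Icc (-(Z : ℤ)) Z).filter (fun α : ℤ => α ≠ 0), g α.natAbs =
      2 * ∑ n ∈ Ioc 0 Z, g n := by
  have h1 : (Icc (-(Z : ℤ)) Z).filter (fun α : ℤ => α ≠ 0) =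
      (Ioc 0 Z).image (fun n : ℕ => (n : ℤ)) ∪ (Ioc 0 Z).image (fun n : ℕ => -(n : ℤ)) := by
    ext α
    simp only [mem_filter, mem_Icc, mem_union, mem_image, mem_Ioc]
    constructor
    · rintro ⟨⟨h1, h2⟩, h3⟩
      rcases lt_or_gt_of_ne h3 with h4 | h4
      · exact Or.inr ⟨α.natAbs, ⟨by omega, by omega⟩, by omega⟩
      · exact Or.inl ⟨α.natAbs, ⟨by omega, by omega⟩, by omega⟩
    · rintro (⟨n, ⟨h1, h2⟩, rfl⟩ | ⟨n, ⟨h1, h2⟩, rfl⟩)
      · exact ⟨⟨by omega, by omega⟩, by omega⟩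
      · exact ⟨⟨by omega, by omega⟩, by omega⟩
  have hd : Disjoint ((Ioc 0 Z).image (fun n : ℕ => (n : ℤ)))
      ((Ioc 0 Z).image (fun n : ℕ => -(n : ℤ))) := by
    rw [Finset.disjoint_left]
    intro α h2 h3
    simp only [mem_image, mem_Ioc] at h2 h3
    obtain ⟨n, ⟨hn, -⟩, rfl⟩ := h2
    obtain ⟨n', ⟨hn', -⟩, h⟩ := h3
    omega
  rw [h1, Finset.sum_union hd, Finset.sum_image (fun a _ b _ h => by simpa using h),
    Finset.sum_image (fun a _ b _ h => by simpa using h), two_mul]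
  have h2 : ∑ n ∈ Ioc 0 Z, g (-(n : ℤ)).natAbs = ∑ n ∈ Ioc 0 Z, g n :=
    Finset.sum_congr rfl fun n _ => by rw [Int.natAbs_neg, Int.natAbs_natCast]
  have h3 : ∑ n ∈ Ioc 0 Z, g ((n : ℤ)).natAbs = ∑ n ∈ Ioc 0 Z, g n :=
    Finset.sum_congr rfl fun n _ => by rw [Int.natAbs_natCast]
  rw [h2, h3]

end THBM

open THBM in
/-- THB. -/
theorem specTHB (hTHE : SpecTHE) (hSIN : SpecSIN) (hRCT : SpecRCT) : SpecTHB := by
  intro T a b q P J x Y Z hsq hb hq hx hYP hYZ hTB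
  have hK := KB_nonneg x b
  have hx0 : (0 : ℝ) < x := by exact_mod_cast hx
  have hq0 : (0 : ℝ) ≤ q := Nat.cast_nonneg q
  have hT1 : 1 ≤ T := hTB.1
  have hlog : 2 + Real.log x ≤ 2 * T := by
    have := (hTB.2 x (by omega) (by omega)).2
    linarith
  have hlog0 : 0 ≤ Real.log x := Real.log_nonneg (by exact_mod_cast hx)
  obtain ⟨hR1, hR2⟩ := hRCT T a Z hsq (hTB.mono (by omega))
  rw [hTHE a b q P J x Y Z hsq hx hYP hYZ]
  have h1 : ‖∑ α ∈ (Icc (-(Z : ℤ)) Z).filter (fun α : ℤ => α ≠ 0),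
      ∑ β ∈ rt a α.natAbs, ∑ s ∈ Sset a α β q P J x Y, kf x (-b) s‖ ≤
      ∑ α ∈ (Icc (-(Z : ℤ)) Z).filter (fun α : ℤ => α ≠ 0),
        ((rt a α.natAbs).card : ℝ) *
          (2 * q * KB x b * ((Y : ℝ) / ((α.natAbs : ℝ) * x) + 2 + Real.log x)) := by
    refine (norm_sum_le _ _).trans (Finset.sum_le_sum fun α hα => ?_)
    have hα0 : α ≠ 0 := (mem_filter.1 hα).2
    refine (norm_sum_le _ _).trans ?_
    rw [← nsmul_eq_mul]
    refine Finset.sum_le_card_nsmul _ _ _ fun β hβ => ?_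
    have hβ2 : ((α.natAbs : ℕ) : ℤ) ∣ (β : ℤ) ^ 2 + a := (mem_filter.1 hβ).2
    have h2 := hSIN a (-b) α β q P J x Y (neg_ne_zero.2 hb) hα0
      (Int.natAbs_dvd.1 hβ2) hx hq
    rw [KB_neg] at h2
    have h3 : |(α : ℝ)| = (α.natAbs : ℝ) := by
      rw [Nat.cast_natAbs, Int.cast_abs]
    rwa [h3] at h2
  refine h1.trans ?_
  rw [sum_two Z (fun n => ((rt a n).card : ℝ) *
    (2 * q * KB x b * ((Y : ℝ) / ((n : ℝ) * x) + 2 + Real.log x)))]
  have h4 : ∑ n ∈ Ioc 0 Z, ((rt a n).card : ℝ) *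
      (2 * q * KB x b * ((Y : ℝ) / ((n : ℝ) * x) + 2 + Real.log x)) =
      2 * q * KB x b * ((Y : ℝ) / x * ∑ n ∈ Ioc 0 Z, ((rt a n).card : ℝ) / n +
        (2 + Real.log x) * ∑ n ∈ Ioc 0 Z, ((rt a n).card : ℝ)) := by
    rw [Finset.mul_sum, Finset.mul_sum, ← Finset.sum_add_distrib, Finset.mul_sum]
    refine Finset.sum_congr rfl fun n hn => ?_
    have hn0 : (n : ℝ) ≠ 0 := by
      have := (mem_Ioc.1 hn).1
      exact_mod_cast this.ne'
    field_simp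
    ring
  rw [h4]
  have h5 : (Y : ℝ) / x * ∑ n ∈ Ioc 0 Z, ((rt a n).card : ℝ) / n ≤ (Y : ℝ) / x * T ^ 2 :=
    mul_le_mul_of_nonneg_left hR2 (by positivity)
  have h6 : (2 + Real.log x) * ∑ n ∈ Ioc 0 Z, ((rt a n).card : ℝ) ≤ (2 * T) * (T * Z) :=
    mul_le_mul hlog hR1 (Finset.sum_nonneg fun n _ => Nat.cast_nonneg _) (by linarith)
  have h7 : 0 ≤ 2 * q * KB x b := by positivity
  have h8 := mul_le_mul_of_nonneg_left (add_le_add h5 h6) h7
  have h9 : 0 ≤ q * KB x b * (T ^ 2 * ((Y : ℝ) / x)) := by positivity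
  calc _ ≤ 2 * (2 * q * KB x b * ((Y : ℝ) / x * T ^ 2 + 2 * T * (T * Z))) := by linarith
    _ = 4 * (q * KB x b * (T ^ 2 * ((Y : ℝ) / x))) + 8 * (q * KB x b * (T ^ 2 * Z)) := by ring
    _ ≤ 8 * (q * KB x b * (T ^ 2 * ((Y : ℝ) / x))) + 8 * (q * KB x b * (T ^ 2 * Z)) := by linarith
    _ = _ := by ring

end

end Pool.Agent.Lib.MP391708.U.R
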