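import Pool.Agent.Lib.MP_391708_nt.U.R.SpecR

/-!
# Project U, part R, module THE: the transformation of `Th` (helper21)
-/

set_option autoImplicit false

namespace Pool.Agent.Lib.MP391708.U.R

open Finset Filter Topology Pool.Agent.Lib.MP391708.QPA Pool.Agent.Lib.MP391708.U
open scoped Classical

noncomputable section

namespace THEM

/-- sums over two sets which correspond to each other by a relation -/
theorem sum_rel {ι κ : Type} (L : Finset ι) (R : Finset κ) (rel : ι → κ → Prop) (f : ι → ℂ)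
    (g : κ → ℂ) (h1 : ∀ i ∈ L, ∃ k ∈ R, rel i k) (h2 : ∀ k ∈ R, ∃ i ∈ L, rel i k)
    (h3 : ∀ i ∈ L, ∀ k ∈ R, ∀ k' ∈ R, rel i k → rel i k' → k = k')
    (h4 : ∀ i ∈ L, ∀ i' ∈ L, ∀ k ∈ R, rel i k → rel i' k → i = i')
    (h5 : ∀ i ∈ L, ∀ k ∈ R, rel i k → f i = g k) : ∑ i ∈ L, f i = ∑ k ∈ R, g k := by
  choose φ hφ hφ' using h1
  refine Finset.sum_bij φ hφ (fun i hi i' hi' he => ?_) (fun k hk => ?_) (fun i hi => ?_)
  · exact h4 i hi i' hi' (φ i hi) (hφ i hi) (hφ' i hi) (by rw [he]; exact hφ' i' hi')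
  · obtain ⟨i, hi, hik⟩ := h2 k hk
    exact ⟨i, hi, h3 i hi _ (hφ i hi) k hk (hφ' i hi) hik⟩
  · exact h5 i hi _ (hφ i hi) (hφ' i hi)

/-- the relation -/
def Rel (a : ℤ) (x : ℕ) (m ν u α β s : ℤ) : Prop :=
  m * u - ν * x = β * x - α * s ∧ m * α = (m * u - ν * x) ^ 2 + a * x ^ 2 ∧ (x : ℤ) ∣ u * s + 1

/-- the left triples -/
def InL (a : ℤ) (q P J x Y : ℕ) (m ν : ℕ) (u : ℤ) : Prop :=
  (P < m ∧ m ≤ J) ∧ q ∣ m ∧ (ν < m ∧ (m : ℤ) ∣ (ν : ℤ) ^ 2 + a) ∧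
    (-((x : ℤ) + 1) ≤ u ∧ u ≤ x + 1) ∧ Int.gcd u x = 1 ∧ |(m : ℤ) * u - ν * x| ≤ Y

/-- the right triples -/
def InR (a : ℤ) (q P J x Y Z : ℕ) (α : ℤ) (β : ℕ) (s : ℤ) : Prop :=
  (-(Z : ℤ) ≤ α ∧ α ≤ Z) ∧ α ≠ 0 ∧ (β < α.natAbs ∧ ((α.natAbs : ℕ) : ℤ) ∣ (β : ℤ) ^ 2 + a) ∧
    (-((Y : ℤ) + x) ≤ s ∧ s ≤ Y + x) ∧ ((P : ℤ) < mf a α β s x ∧ mf a α β s x ≤ J ∧
      (q : ℤ) ∣ mf a α β s x ∧ |(β : ℤ) * x - α * s| ≤ Y) ∧ Int.gcd s x = 1

theorem natAbs_dvd' {α n : ℤ} (h : α ∣ n) : ((α.natAbs : ℕ) : ℤ) ∣ n := Int.natAbs_dvd.2 h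

theorem mul_mf {a α β s x : ℤ} (h : α ∣ β ^ 2 + a) :
    α * mf a α β s x = (β * x - α * s) ^ 2 + a * x ^ 2 := by
  obtain ⟨γ, hγ⟩ := h
  by_cases hα : α = 0
  · subst hα
    rw [zero_mul] at hγ
    have : a = -β ^ 2 := by linarith
    subst this
    ring
  · unfold mf
    have h1 : (β ^ 2 + a) / α = γ := by
      rw [hγ, Int.mul_ediv_cancel_left _ hα]
    rw [h1]
    have h2 : a = α * γ - β ^ 2 := by linarith
    rw [h2]
    ring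

/-- left to right -/
theorem left_right (hBJ : SpecBJ) {a : ℤ} {q P J x Y Z : ℕ} (ha : ¬ IsSquare (-a)) (hx : 1 ≤ x)
    (hZ : Y ^ 2 + a.natAbs * x ^ 2 < P * (Z + 1)) {m ν : ℕ} {u : ℤ}
    (h : InL a q P J x Y m ν u) :
    ∃ (α : ℤ) (β : ℕ) (s : ℤ), InR a q P J x Y Z α β s ∧ Rel a x m ν u α β s := by
  obtain ⟨⟨hP, hJ⟩, hq, ⟨hν, hmν⟩, hu, hg, hY⟩ := h
  have hm0 : (0 : ℤ) < m := by
    have : 0 < m := by omega
    exact_mod_cast this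
  have hx0 : (0 : ℤ) < x := by exact_mod_cast hx
  set y : ℤ := (m : ℤ) * u - ν * x with hy
  have hdvd : (m : ℤ) ∣ y ^ 2 + a * x ^ 2 := by
    obtain ⟨c, hc⟩ := hmν
    refine ⟨m * u ^ 2 - 2 * u * ν * x + c * x ^ 2, ?_⟩
    have h1 : a = m * c - (ν : ℤ) ^ 2 := by linarith
    rw [hy, h1]
    ring
  obtain ⟨α, hα⟩ := hdvd
  have hne : y ^ 2 + a * (x : ℤ) ^ 2 ≠ 0 := nsq ha hx0.ne'
  have hα0 : α ≠ 0 := by
    rintro rfl
    rw [mul_zero] at hα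
    exact hne hα
  obtain ⟨β, s, hβ0, hβ1, hys, hus, hαβ, hgs, hmf, -⟩ := hBJ a m ν x u y α hm0.ne' hα0 hx0 hmν hg
    hy hα.symm
  -- the size of `α`
  have hαZ : |α| ≤ Z := by
    have h1 : (m : ℤ) * |α| = |y ^ 2 + a * (x : ℤ) ^ 2| := by
      rw [hα, abs_mul, abs_of_pos hm0]
    have h2 : |y ^ 2 + a * (x : ℤ) ^ 2| ≤ (Y : ℤ) ^ 2 + a.natAbs * (x : ℤ) ^ 2 := by
      refine (abs_add_le _ _).trans ?_
      rw [abs_mul, Int.natCast_natAbs, abs_of_nonneg (sq_nonneg (x : ℤ)),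
        abs_of_nonneg (sq_nonneg y)]
      have h3 : y ^ 2 ≤ (Y : ℤ) ^ 2 := by
        rw [← sq_abs y]
        exact pow_le_pow_left₀ (abs_nonneg y) hY 2
      linarith
    have h3 : (Y : ℤ) ^ 2 + a.natAbs * (x : ℤ) ^ 2 < P * (Z + 1) := by exact_mod_cast hZ
    have h4 : (P : ℤ) < m := by exact_mod_cast hP
    have h5 : (P : ℤ) * |α| < P * (Z + 1) := by
      have h6 : (P : ℤ) * |α| ≤ m * |α| := mul_le_mul_of_nonneg_right h4.le (abs_nonneg _)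
      linarith
    have h6 : |α| < Z + 1 := lt_of_mul_lt_mul_left h5 (by positivity)
    linarith
  have hα1 : 1 ≤ |α| := Int.one_le_abs hα0
  -- the size of `s`
  have hs : |s| ≤ Y + x := by
    have h1 : |α| * |s| = |β * x - y| := by
      rw [← abs_mul]
      congr 1
      rw [hys]
      ring
    have h2 : |β * x - y| ≤ |α| * x + Y := by
      refine (abs_sub _ _).trans ?_
      have h3 : |β * (x : ℤ)| ≤ |α| * x := by
        rw [abs_mul, abs_of_nonneg hβ0, abs_of_pos hx0]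
        exact mul_le_mul_of_nonneg_right hβ1.le hx0.le
      linarith
    have h3 : |α| * x + Y ≤ |α| * (Y + x) := by
      have hY0 : (0 : ℤ) ≤ Y := by positivity
      nlinarith
    exact le_of_mul_le_mul_left (h1.trans_le (h2.trans h3)) (by linarith)
  refine ⟨α, β.toNat, s, ⟨abs_le.1 hαZ, hα0, ⟨?_, ?_⟩, abs_le.1 hs, ⟨?_, ?_, ?_, ?_⟩, hgs⟩, ?_⟩
  · zify
    rw [Int.toNat_of_nonneg hβ0]
    exact hβ1
  · rw [Int.toNat_of_nonneg hβ0]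
    exact natAbs_dvd' hαβ
  · rw [Int.toNat_of_nonneg hβ0, ← hmf]
    exact_mod_cast hP
  · rw [Int.toNat_of_nonneg hβ0, ← hmf]
    exact_mod_cast hJ
  · rw [Int.toNat_of_nonneg hβ0, ← hmf]
    exact_mod_cast hq
  · rw [Int.toNat_of_nonneg hβ0, ← hys]
    exact hY
  · rw [Int.toNat_of_nonneg hβ0]
    exact ⟨hys, hα.symm, hus⟩

/-- right to left -/
theorem right_left (hBJ : SpecBJ) {a : ℤ} {q P J x Y Z : ℕ} (hx : 1 ≤ x) (hYP : Y < P)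
    {α : ℤ} {β : ℕ} {s : ℤ} (h : InR a q P J x Y Z α β s) :
    ∃ (m ν : ℕ) (u : ℤ), InL a q P J x Y m ν u ∧ Rel a x m ν u α β s := by
  obtain ⟨hαZ, hα0, ⟨hβ, hαβ⟩, hs, ⟨hmP, hmJ, hqm, hY⟩, hg⟩ := h
  have hx0 : (0 : ℤ) < x := by exact_mod_cast hx
  have hαβ' : α ∣ (β : ℤ) ^ 2 + a := Int.natAbs_dvd.1 hαβ
  set M : ℤ := mf a α β s x with hM
  have hM0 : 0 < M := lt_of_le_of_lt (by positivity) hmP
  set y : ℤ := (β : ℤ) * x - α * s with hy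
  have h1 : α * M = (-y) ^ 2 + a * (x : ℤ) ^ 2 := by
    rw [neg_sq, hM, mul_mf hαβ']
  obtain ⟨ν, u, hν0, hν1, hyu, hsu, hMν, hgu, -, -⟩ := hBJ a α β x s (-y) M hα0 hM0.ne' hx0 hαβ'
    hg (by rw [hy]; ring) h1
  rw [abs_of_pos hM0] at hν1
  have hMt : ((M.toNat : ℕ) : ℤ) = M := Int.toNat_of_nonneg hM0.le
  have hνt : ((ν.toNat : ℕ) : ℤ) = ν := Int.toNat_of_nonneg hν0
  have hyu' : M * u - ν * x = y := by linarith
  have hu : |u| ≤ x + 1 := by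
    have h2 : M * |u| = |y + ν * x| := by
      have h20 : M * u = y + ν * x := by linarith
      rw [← h20, abs_mul, abs_of_pos hM0]
    have h3 : |y + ν * x| ≤ Y + ν * x := by
      refine (abs_add_le _ _).trans ?_
      rw [abs_of_nonneg (mul_nonneg hν0 hx0.le)]
      linarith
    have h4 : (Y : ℤ) < P := by exact_mod_cast hYP
    have h5 : ν * x ≤ M * x := mul_le_mul_of_nonneg_right hν1.le hx0.le
    have h6 : M * |u| < M * (x + 1) := by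
      have : M * ((x : ℤ) + 1) = M * x + M := by ring
      linarith
    exact (lt_of_mul_lt_mul_left h6 hM0.le).le
  refine ⟨M.toNat, ν.toNat, u, ⟨⟨?_, ?_⟩, ?_, ⟨?_, ?_⟩, ?_, hgu, ?_⟩, ?_⟩
  · zify
    rw [hMt]
    exact hmP
  · zify
    rw [hMt]
    exact hmJ
  · rw [← Int.natCast_dvd_natCast, hMt]
    exact hqm
  · zify
    rw [hMt, hνt]
    exact hν1
  · rw [hMt, hνt]
    exact hMν
  · have := abs_le.1 hu
    exact this
  · rw [hMt, hνt, hyu']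
    exact hY
  · rw [hMt, hνt]
    refine ⟨by rw [hyu'], ?_, ?_⟩
    · rw [hyu', mul_comm, h1, neg_sq]
    · rwa [mul_comm]

/-- uniqueness on the right -/
theorem right_unique (hBJ : SpecBJ) {a : ℤ} {q P J x Y Z : ℕ} (hx : 1 ≤ x) {m ν : ℕ} {u : ℤ}
    (h : InL a q P J x Y m ν u) {α α' : ℤ} {β β' : ℕ} {s s' : ℤ}
    (h1 : InR a q P J x Y Z α β s) (h2 : InR a q P J x Y Z α' β' s')
    (r1 : Rel a x m ν u α β s) (r2 : Rel a x m ν u α' β' s') : α = α' ∧ β = β' ∧ s = s' := by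
  obtain ⟨⟨hP, hJ⟩, hq, ⟨hν, hmν⟩, hu, hg, hY⟩ := h
  have hm0 : (0 : ℤ) < m := by
    have : 0 < m := by omega
    exact_mod_cast this
  have hx0 : (0 : ℤ) < x := by exact_mod_cast hx
  have e : α = α' := mul_left_cancel₀ hm0.ne' (r1.2.1.trans r2.2.1.symm)
  subst e
  obtain ⟨β₀, s₀, -, -, -, -, -, -, -, huniq⟩ := hBJ a m ν x u ((m : ℤ) * u - ν * x) α hm0.ne'
    h1.2.1 hx0 hmν hg rfl r1.2.1
  have hlt : ∀ b : ℕ, b < α.natAbs → (b : ℤ) < |α| := by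
    intro b hb
    rw [← Int.natCast_natAbs]
    exact_mod_cast hb
  have e1 := huniq β s (by positivity) (hlt β h1.2.2.1.1) r1.1 r1.2.2
  have e2 := huniq β' s' (by positivity) (hlt β' h2.2.2.1.1) r2.1 r2.2.2
  refine ⟨rfl, ?_, e1.2.trans e2.2.symm⟩
  exact_mod_cast e1.1.trans e2.1.symm

/-- uniqueness on the left -/
theorem left_unique (hBJ : SpecBJ) {a : ℤ} {q P J x Y Z : ℕ} (hx : 1 ≤ x) {m ν m' ν' : ℕ}
    {u u' : ℤ} (h1 : InL a q P J x Y m ν u) (h2 : InL a q P J x Y m' ν' u') {α : ℤ} {β : ℕ}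
    {s : ℤ} (h : InR a q P J x Y Z α β s)
    (r1 : Rel a x m ν u α β s) (r2 : Rel a x m' ν' u' α β s) : m = m' ∧ ν = ν' ∧ u = u' := by
  obtain ⟨hαZ, hα0, ⟨hβ, hαβ⟩, hs, -, hg⟩ := h
  have hx0 : (0 : ℤ) < x := by exact_mod_cast hx
  have hαβ' : α ∣ (β : ℤ) ^ 2 + a := Int.natAbs_dvd.1 hαβ
  have hm0 : (0 : ℤ) < m := by
    have : 0 < m := by have := h1.1.1; omega
    exact_mod_cast this
  have e : (m : ℤ) = m' := by
    have e1 : (m : ℤ) * α = (m' : ℤ) * α := by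
      rw [r1.2.1, r2.2.1, r1.1, r2.1]
    exact mul_right_cancel₀ hα0 e1
  have e' : m = m' := by exact_mod_cast e
  subst e'
  obtain ⟨ν₀, u₀, -, -, -, -, -, -, -, huniq⟩ := hBJ a α β x s
    (-((β : ℤ) * x - α * s)) m hα0 hm0.ne' hx0 hαβ' hg (by ring)
    (by rw [mul_comm, r1.2.1, r1.1]; ring)
  have hlt : ∀ b : ℕ, b < m → (b : ℤ) < |(m : ℤ)| := by
    intro b hb
    rw [abs_of_pos hm0]
    exact_mod_cast hb
  have e1 := huniq ν u (by positivity) (hlt ν h1.2.2.1.1) (by rw [← r1.1]; ring)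
    (by rw [mul_comm]; exact r1.2.2)
  have e2 := huniq ν' u' (by positivity) (hlt ν' h2.2.2.1.1) (by rw [← r2.1]; ring)
    (by rw [mul_comm]; exact r2.2.2)
  refine ⟨rfl, ?_, e1.2.trans e2.2.symm⟩
  exact_mod_cast e1.1.trans e2.1.symm

/-- the summands agree -/
theorem value {b : ℤ} {x : ℕ} (hx : 1 ≤ x) {u s : ℤ} (hus : (x : ℤ) ∣ u * s + 1)
    (hg : Int.gcd s x = 1) : ex ((b : ℝ) * u / x) = kf x (-b) s := by
  haveI : NeZero x := ⟨by omega⟩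
  have hx0 : (x : ℝ) ≠ 0 := by positivity
  rw [kf, if_pos hg]
  have h1 : ((u * s + 1 : ℤ) : ZMod x) = 0 := (ZMod.intCast_zmod_eq_zero_iff_dvd _ _).2 hus
  have h2 : ((s : ZMod x))⁻¹ = ((-u : ℤ) : ZMod x) := by
    apply ZMod.inv_eq_of_mul_eq_one
    push_cast at h1 ⊢
    linear_combination (-1 : ZMod x) * h1
  have h3 : (x : ℤ) ∣ (((s : ZMod x)⁻¹).val : ℤ) - (-u) := by
    rw [← ZMod.intCast_zmod_eq_zero_iff_dvd]
    push_cast
    rw [ZMod.natCast_zmod_val, h2]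
    push_cast
    ring
  obtain ⟨k, hk⟩ := h3
  have h4 : ((((s : ZMod x)⁻¹).val : ℤ) : ℝ) = -(u : ℝ) + x * k := by
    have : (((s : ZMod x)⁻¹).val : ℤ) = -u + x * k := by linarith
    rw [this]
    push_cast
    ring
  have h5 : ((((s : ZMod x)⁻¹).val : ℕ) : ℝ) = -(u : ℝ) + x * k := by
    rw [← h4]
    push_cast
    rfl
  rw [h5]
  have h6 : ((-b : ℤ) : ℝ) * (-(u : ℝ) + x * k) / x = (b : ℝ) * u / x + ((-b * k : ℤ) : ℝ) := by
    push_cast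
    field_simp
    ring
  rw [h6, ex_add, ex_int, mul_one]

end THEM

open THEM in
theorem specTHE (hBJ : SpecBJ) : SpecTHE := by
  intro a b q P J x Y Z ha hx hYP hZ
  unfold Th
  have hR : ∀ α : ℤ, ∀ β : ℕ, ∑ s ∈ Sset a α β q P J x Y, kf x (-b) s =
      ∑ s ∈ (Sset a α β q P J x Y).filter (fun s => Int.gcd s x = 1), kf x (-b) s := by
    intro α β
    refine (Finset.sum_filter_of_ne fun s _ h => ?_).symm
    by_contra hg
    apply h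
    rw [kf, if_neg hg]
  simp only [hR]
  simp only [Finset.sum_sigma']
  have memL : ∀ (m ν : ℕ) (u : ℤ), (⟨m, ν, u⟩ : (_ : ℕ) × (_ : ℕ) × ℤ) ∈
      ((Ioc P J).filter (fun m => q ∣ m)).sigma (fun m => (rt a m).sigma (fun ν =>
        (Icc (-((x : ℤ) + 1)) (x + 1)).filter
          (fun u : ℤ => Int.gcd u x = 1 ∧ |(m : ℤ) * u - ν * x| ≤ Y))) ↔
      InL a q P J x Y m ν u := by
    intro m ν u
    simp only [Finset.mem_sigma, Finset.mem_filter, Finset.mem_Ioc, rt, Finset.mem_range,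
      Finset.mem_Icc, InL]
    tauto
  have memR : ∀ (α : ℤ) (β : ℕ) (s : ℤ), (⟨α, β, s⟩ : (_ : ℤ) × (_ : ℕ) × ℤ) ∈
      ((Icc (-(Z : ℤ)) Z).filter (fun α : ℤ => α ≠ 0)).sigma (fun α => (rt a α.natAbs).sigma
        (fun β => (Sset a α β q P J x Y).filter (fun s => Int.gcd s x = 1))) ↔
      InR a q P J x Y Z α β s := by
    intro α β s
    simp only [Finset.mem_sigma, Finset.mem_filter, Sset, rt, Finset.mem_range,
      Finset.mem_Icc, InR]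
    tauto
  refine sum_rel _ _ (fun i k => Rel a x i.1 i.2.1 i.2.2 k.1 k.2.1 k.2.2) _ _ ?_ ?_ ?_ ?_ ?_
  · rintro ⟨m, ν, u⟩ hi
    obtain ⟨α, β, s, h1, h2⟩ := left_right hBJ ha hx hZ ((memL m ν u).1 hi)
    exact ⟨⟨α, β, s⟩, (memR α β s).2 h1, h2⟩
  · rintro ⟨α, β, s⟩ hk
    obtain ⟨m, ν, u, h1, h2⟩ := right_left hBJ hx hYP ((memR α β s).1 hk)
    exact ⟨⟨m, ν, u⟩, (memL m ν u).2 h1, h2⟩
  · rintro ⟨m, ν, u⟩ hi ⟨α, β, s⟩ hk ⟨α', β', s'⟩ hk' r1 r2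
    obtain ⟨h1, h2, h3⟩ := right_unique hBJ hx ((memL m ν u).1 hi) ((memR α β s).1 hk)
      ((memR α' β' s').1 hk') r1 r2
    subst h1 h2 h3
    rfl
  · rintro ⟨m, ν, u⟩ hi ⟨m', ν', u'⟩ hi' ⟨α, β, s⟩ hk r1 r2
    obtain ⟨h1, h2, h3⟩ := left_unique hBJ hx ((memL m ν u).1 hi) ((memL m' ν' u').1 hi')
      ((memR α β s).1 hk) r1 r2
    subst h1 h2 h3
    rfl
  · rintro ⟨m, ν, u⟩ hi ⟨α, β, s⟩ hk r1
    exact value hx r1.2.2 ((memR α β s).1 hk).2.2.2.2.2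

end

end Pool.Agent.Lib.MP391708.U.R
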