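import Pool.Agent.Lib.MP_391708_nt.U.R.SpecR

/-!
# Project U, part R, module TOT: the total weight
-/

set_option autoImplicit false

namespace Pool.Agent.Lib.MP391708.U.R

open Finset Filter Topology Pool.Agent.Lib.MP391708.QPA Pool.Agent.Lib.MP391708.U
open Pool.Agent.Lib.MP_1446ad_nt.SM (tau uu vv kc SpecKLB SpecDEC)
open scoped Classical

theorem specTOT (hEXC : SpecEXC) (hRCT : SpecRCT) : SpecTOT := by
  intro T a X Y P ha hX hXY hP hPXY hTB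
  have hX0 : (0 : ℝ) < X := by exact_mod_cast hX
  have hY0 : (0 : ℝ) < Y := by exact_mod_cast (lt_of_lt_of_le hX hXY)
  have hP0 : (0 : ℝ) < P := by exact_mod_cast hP
  have hXY0 : (0 : ℝ) < (X : ℝ) * Y := mul_pos hX0 hY0
  have hT1 : 1 ≤ T := hTB.1
  have h1 := hEXC T a X Y P ha hX hXY hP hTB
  have h2 := (hRCT T a (2 * P) ha (hTB.mono (by
    have : 1 ≤ P ^ 2 := Nat.one_le_pow _ _ hP
    nlinarith [Nat.zero_le a.natAbs]))).1
  have h3 : ∑ m ∈ Ioc P (2 * P), ((rt a m).card : ℝ) ≤ T * (2 * P) := by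
    refine le_trans (Finset.sum_le_sum_of_subset_of_nonneg ?_ (fun _ _ _ => Nat.cast_nonneg _))
      (le_of_le_of_eq h2 (by push_cast; ring))
    intro m hm
    rw [Finset.mem_Ioc] at hm ⊢
    omega
  have h4 : ∑ m ∈ Ioc P (2 * P), ∑ ν ∈ rt a m, Wt X Y m ν ≤
      ∑ m ∈ Ioc P (2 * P), ∑ ν ∈ rt a m, ((X : ℝ) * Y / P *
        (1 + |(m : ℝ) * Wt X Y m ν / (X * Y) - 1|)) := by
    refine Finset.sum_le_sum (fun m hm => Finset.sum_le_sum (fun ν _ => ?_))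
    have hm' : (P : ℝ) < m := by exact_mod_cast (Finset.mem_Ioc.1 hm).1
    have hm0 : (0 : ℝ) < m := hP0.trans hm'
    have e1 : Wt X Y m ν = (X : ℝ) * Y / m * ((m : ℝ) * Wt X Y m ν / (X * Y)) := by
      field_simp
    have e2 : (m : ℝ) * Wt X Y m ν / (X * Y) ≤ 1 + |(m : ℝ) * Wt X Y m ν / (X * Y) - 1| := by
      have := le_abs_self ((m : ℝ) * Wt X Y m ν / (X * Y) - 1)
      linarith
    calc Wt X Y m ν = (X : ℝ) * Y / m * ((m : ℝ) * Wt X Y m ν / (X * Y)) := e1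
      _ ≤ (X : ℝ) * Y / m * (1 + |(m : ℝ) * Wt X Y m ν / (X * Y) - 1|) :=
          mul_le_mul_of_nonneg_left e2 (by positivity)
      _ ≤ (X : ℝ) * Y / P * (1 + |(m : ℝ) * Wt X Y m ν / (X * Y) - 1|) := by
          refine mul_le_mul_of_nonneg_right ?_ (by positivity)
          exact div_le_div_of_nonneg_left hXY0.le hP0 hm'.le
  have h5 : ∑ m ∈ Ioc P (2 * P), ∑ ν ∈ rt a m, ((X : ℝ) * Y / P *
        (1 + |(m : ℝ) * Wt X Y m ν / (X * Y) - 1|)) =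
      (X : ℝ) * Y / P * (∑ m ∈ Ioc P (2 * P), ((rt a m).card : ℝ) +
        ∑ m ∈ Ioc P (2 * P), ∑ ν ∈ rt a m, |(m : ℝ) * Wt X Y m ν / (X * Y) - 1|) := by
    rw [← Finset.sum_add_distrib, Finset.mul_sum]
    refine Finset.sum_congr rfl (fun m _ => ?_)
    rw [← Finset.mul_sum, Finset.sum_add_distrib, Finset.sum_const, nsmul_eq_mul, mul_one]
  rw [h5] at h4
  have h6 : (X : ℝ) * Y / P * (∑ m ∈ Ioc P (2 * P), ((rt a m).card : ℝ) +
        ∑ m ∈ Ioc P (2 * P), ∑ ν ∈ rt a m, |(m : ℝ) * Wt X Y m ν / (X * Y) - 1|) ≤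
      (X : ℝ) * Y / P * (T * (2 * P) + 50 * T ^ 2 * (P : ℝ) ^ 2 / (X * Y)) :=
    mul_le_mul_of_nonneg_left (add_le_add h3 h1) (by positivity)
  have h7 : (X : ℝ) * Y / P * (T * (2 * P) + 50 * T ^ 2 * (P : ℝ) ^ 2 / (X * Y)) =
      2 * T * ((X : ℝ) * Y) + 50 * T ^ 2 * P := by
    field_simp
  rw [h7] at h6
  have h8 : (P : ℝ) ≤ (X : ℝ) * Y := by exact_mod_cast hPXY
  have h9 : T ≤ T ^ 2 := by nlinarith
  have h10 : 50 * T ^ 2 * P ≤ 50 * T ^ 2 * ((X : ℝ) * Y) :=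
    mul_le_mul_of_nonneg_left h8 (by positivity)
  have h11 : 2 * T * ((X : ℝ) * Y) ≤ 2 * T ^ 2 * ((X : ℝ) * Y) :=
    mul_le_mul_of_nonneg_right (by linarith) hXY0.le
  have h12 : 0 ≤ T ^ 2 * ((X : ℝ) * Y) := by positivity
  linarith [h4.trans h6]

end Pool.Agent.Lib.MP391708.U.R
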