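import Pool.Agent.Lib.MP_391708_nt.U.R.SpecR

/-!
# UDA: positive `x`, and the phase
-/

set_option autoImplicit false

namespace Pool.Agent.Lib.MP391708.U.R

open Finset Filter Topology Pool.Agent.Lib.MP391708.QPA Pool.Agent.Lib.MP391708.U
open Pool.Agent.Lib.MP_1446ad_nt.SM (tau uu vv kc SpecKLB SpecDEC)
open scoped Classical

noncomputable section

namespace UDAM

lemma tri_nonneg (L : ℕ) (y : ℤ) : 0 ≤ tri L y := le_max_left _ _

lemma tri_neg (L : ℕ) (y : ℤ) : tri L (-y) = tri L y := by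
  unfold tri; push_cast; rw [abs_neg]

lemma tri_zero (L : ℕ) : tri L 0 = 1 := by unfold tri; simp

lemma tri_eq_zero (L : ℕ) (hL : 1 ≤ L) (y : ℤ) (h : (L : ℤ) ≤ |y|) : tri L y = 0 := by
  unfold tri
  apply max_eq_left
  have h1 : (1 : ℝ) ≤ |(y : ℝ)| / L := by
    rw [le_div_iff₀ (by exact_mod_cast hL), one_mul]
    exact_mod_cast h
  linarith

lemma ex_lip (s t : ℝ) : ‖ex s - ex t‖ ≤ 7 * |s - t| := by
  have h1 : ex s - ex t = ex t * (ex (s - t) - 1) := by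
    have : ex s = ex t * ex (s - t) := by
      rw [← ex_add]; congr 1; ring
    rw [this]; ring
  rw [h1, norm_mul, norm_ex, one_mul]
  have h2 : ex (s - t) = Complex.exp (Complex.I * ((2 * Real.pi * (s - t) : ℝ) : ℂ)) := by
    unfold ex; congr 1; push_cast; ring
  rw [h2]
  refine le_trans Real.norm_exp_I_mul_ofReal_sub_one_le ?_
  rw [Real.norm_eq_abs, abs_mul, abs_of_pos (by positivity)]
  have := Real.pi_lt_d2
  nlinarith [abs_nonneg (s - t)]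

/-- the inner sum of the cover weight -/
def gg (X Y m ν : ℕ) (x : ℤ) : ℝ :=
  ∑ y ∈ Ioo (-(Y : ℤ)) Y, if (m : ℤ) ∣ y + ν * x then tri X x * tri Y y else 0

lemma gg_neg (X Y m ν : ℕ) (x : ℤ) : gg X Y m ν (-x) = gg X Y m ν x := by
  unfold gg
  refine Finset.sum_nbij' (fun y => -y) (fun y => -y) ?_ ?_ ?_ ?_ ?_
  · intro y hy; rw [mem_Ioo] at *; omega
  · intro y hy; rw [mem_Ioo] at *; omega
  · intro y _; simp
  · intro y _; simp
  · intro y _
    have h1 : (m : ℤ) ∣ y + ν * (-x) ↔ (m : ℤ) ∣ -y + ν * x := by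
      rw [← dvd_neg]
      have : -(y + ν * (-x)) = -y + ν * x := by ring
      rw [this]
    by_cases h : (m : ℤ) ∣ -y + ν * x
    · rw [if_pos (h1.2 h), if_pos h, tri_neg, tri_neg]
    · rw [if_neg (fun h2 => h (h1.1 h2)), if_neg h]

lemma gg_zero (X Y m ν : ℕ) (hY : 1 ≤ Y) (hm : Y < m) : gg X Y m ν 0 = 1 := by
  unfold gg
  rw [Finset.sum_eq_single (0 : ℤ)]
  · simp [tri_zero]
  · intro y hy hy0
    rw [mem_Ioo] at hy
    rw [if_neg]
    intro h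
    rw [mul_zero, add_zero] at h
    apply hy0
    refine Int.eq_zero_of_abs_lt_dvd h ?_
    rw [abs_lt]; omega
  · intro h
    exfalso; apply h; rw [mem_Ioo]; omega

lemma sum_symm (f : ℤ → ℝ) (hf : ∀ x, f (-x) = f x) (X : ℕ) (hX : 1 ≤ X) :
    ∑ x ∈ Ioo (-(X : ℤ)) X, f x = f 0 + 2 * ∑ x ∈ Ioo 0 X, f (x : ℤ) := by
  induction X, hX using Nat.le_induction with
  | base =>
    have h1 : Ioo (-((1 : ℕ) : ℤ)) ((1 : ℕ) : ℤ) = {0} := by
      ext x; simp only [mem_Ioo, mem_singleton]; push_cast; omega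
    have h2 : Ioo 0 1 = (∅ : Finset ℕ) :=
      Finset.eq_empty_iff_forall_notMem.2 (fun x hx => by rw [mem_Ioo] at hx; omega)
    rw [h1, h2]; simp
  | succ X hX ih =>
    have h1 : Ioo (-((X + 1 : ℕ) : ℤ)) ((X + 1 : ℕ) : ℤ)
        = insert (X : ℤ) (insert (-(X : ℤ)) (Ioo (-(X : ℤ)) X)) := by
      ext x; simp only [mem_Ioo, mem_insert]; push_cast; omega
    have h2 : Ioo 0 (X + 1) = insert X (Ioo 0 X) := by
      ext x; simp only [mem_Ioo, mem_insert]; omega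
    rw [h1, h2, Finset.sum_insert, Finset.sum_insert, Finset.sum_insert, ih, hf]
    · ring
    · rw [mem_Ioo]; omega
    · rw [mem_Ioo]; omega
    · rw [mem_insert, mem_Ioo]; omega

lemma gg_pos (X Y m ν x : ℕ) (hY : 1 ≤ Y) (hm : Y < m) (hν : ν < m) (hx : 0 < x) :
    gg X Y m ν x = ∑ u ∈ Icc (-((x : ℤ) + 1)) (x + 1), tri X x * tri Y ((m : ℤ) * u - ν * x) := by
  unfold gg
  rw [← Finset.sum_filter]
  have h1 : ∑ u ∈ Icc (-((x : ℤ) + 1)) (x + 1), tri X x * tri Y ((m : ℤ) * u - ν * x)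
      = ∑ u ∈ (Icc (-((x : ℤ) + 1)) (x + 1)).filter (fun u : ℤ => |(m : ℤ) * u - ν * x| < Y),
          tri X x * tri Y ((m : ℤ) * u - ν * x) := by
    rw [Finset.sum_filter]
    refine Finset.sum_congr rfl fun u _ => ?_
    split_ifs with h
    · rfl
    · rw [tri_eq_zero Y hY _ (not_lt.1 h), mul_zero]
  rw [h1]
  have hm0 : (0 : ℤ) < m := by omega
  have hνx : (0 : ℤ) ≤ (ν : ℤ) * x := by positivity
  have hνx2 : (ν : ℤ) * x ≤ m * x := by
    apply mul_le_mul_of_nonneg_right _ (by positivity)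
    exact_mod_cast hν.le
  refine Finset.sum_nbij' (fun y => (y + ν * x) / (m : ℤ)) (fun u => (m : ℤ) * u - ν * x) ?_ ?_ ?_ ?_ ?_
  · intro y hy
    rw [mem_filter, mem_Ioo] at hy
    obtain ⟨⟨hy1, hy2⟩, hy3⟩ := hy
    have h2 : (m : ℤ) * ((y + ν * x) / (m : ℤ)) = y + ν * x := Int.mul_ediv_cancel' hy3
    rw [mem_filter, mem_Icc]
    set u : ℤ := (y + ν * x) / (m : ℤ) with hu
    have h3 : (m : ℤ) * u - ν * x = y := by rw [h2]; ring
    refine ⟨⟨?_, ?_⟩, ?_⟩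
    · by_contra hcon
      rw [not_le] at hcon
      have h4 : (m : ℤ) * u ≤ m * (-((x : ℤ) + 1)) := mul_le_mul_of_nonneg_left (by omega) hm0.le
      nlinarith
    · by_contra hcon
      rw [not_le] at hcon
      have h4 : (m : ℤ) * (x + 1) ≤ m * u := mul_le_mul_of_nonneg_left (by omega) hm0.le
      nlinarith
    · rw [h3, abs_lt]; exact ⟨hy1, hy2⟩
  · intro u hu
    rw [mem_filter, mem_Icc] at hu
    rw [mem_filter, mem_Ioo]
    have h2 := abs_lt.1 hu.2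
    refine ⟨⟨h2.1, h2.2⟩, ?_⟩
    exact ⟨u, by ring⟩
  · intro y hy
    rw [mem_filter] at hy
    rw [Int.mul_ediv_cancel' hy.2]; ring
  · intro u _
    rw [sub_add_cancel, Int.mul_ediv_cancel_left _ hm0.ne']
  · intro y hy
    rw [mem_filter] at hy
    rw [Int.mul_ediv_cancel' hy.2, add_sub_cancel_right]

lemma wt_eq (X Y m ν : ℕ) (hX : 1 ≤ X) (hY : 1 ≤ Y) (hm : Y < m) (hν : ν < m) :
    Wt X Y m ν = 1 + 2 * ∑ x ∈ Ioo 0 X, ∑ u ∈ Icc (-((x : ℤ) + 1)) (x + 1),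
      tri X x * tri Y ((m : ℤ) * u - ν * x) := by
  have h1 : Wt X Y m ν = ∑ x ∈ Ioo (-(X : ℤ)) X, gg X Y m ν x := rfl
  rw [h1, sum_symm _ (gg_neg X Y m ν) X hX, gg_zero X Y m ν hY hm]
  congr 2
  refine Finset.sum_congr rfl fun x hx => ?_
  rw [mem_Ioo] at hx
  exact gg_pos X Y m ν x hY hm hν hx.1

lemma wt_nonneg (X Y m ν : ℕ) : 0 ≤ Wt X Y m ν := by
  unfold Wt
  refine Finset.sum_nonneg fun x _ => Finset.sum_nonneg fun y _ => ?_
  split_ifs
  · exact mul_nonneg (tri_nonneg _ _) (tri_nonneg _ _)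
  · exact le_refl _

/-- one pair `(m, ν)` -/
lemma point (b : ℤ) (P X Y m ν : ℕ) (hX : 1 ≤ X) (hY : 1 ≤ Y) (hYP : Y ≤ P) (hm : P < m)
    (hν : ν < m) :
    ‖ex ((b : ℝ) * ν / m) * (Wt X Y m ν : ℂ) - 2 * ∑ x ∈ Ioo 0 X,
      ∑ u ∈ Icc (-((x : ℤ) + 1)) (x + 1),
        ((tri X x * tri Y ((m : ℤ) * u - ν * x) : ℝ) : ℂ) * ex ((b : ℝ) * u / x)‖
      ≤ 1 + 7 * |(b : ℝ)| * (Y / P) * Wt X Y m ν := by
  have hP0 : (0 : ℝ) < P := by exact_mod_cast (by omega : 0 < P)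
  have hm0 : (0 : ℝ) < m := by exact_mod_cast (by omega : 0 < m)
  rw [wt_eq X Y m ν hX hY (by omega) hν]
  have h1 : ex ((b : ℝ) * ν / m) * (((1 + 2 * ∑ x ∈ Ioo 0 X, ∑ u ∈ Icc (-((x : ℤ) + 1)) (x + 1),
      tri X x * tri Y ((m : ℤ) * u - ν * x) : ℝ)) : ℂ) - 2 * ∑ x ∈ Ioo 0 X,
      ∑ u ∈ Icc (-((x : ℤ) + 1)) (x + 1),
        ((tri X x * tri Y ((m : ℤ) * u - ν * x) : ℝ) : ℂ) * ex ((b : ℝ) * u / x)
      = ex ((b : ℝ) * ν / m) + 2 * ∑ x ∈ Ioo 0 X, ∑ u ∈ Icc (-((x : ℤ) + 1)) (x + 1),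
        ((tri X x * tri Y ((m : ℤ) * u - ν * x) : ℝ) : ℂ) *
          (ex ((b : ℝ) * ν / m) - ex ((b : ℝ) * u / x)) := by
    simp only [mul_sub, Finset.sum_sub_distrib, Complex.ofReal_add, Complex.ofReal_one,
      Complex.ofReal_mul, Complex.ofReal_ofNat, Complex.ofReal_sum]
    rw [mul_add, mul_one]
    simp only [Finset.mul_sum]
    rw [add_sub_assoc]
    congr 2
    refine Finset.sum_congr rfl fun x _ => Finset.sum_congr rfl fun u _ => ?_
    ring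
  rw [h1]
  refine le_trans (norm_add_le _ _) ?_
  rw [norm_ex, norm_mul]
  have h2 : ‖(2 : ℂ)‖ = 2 := by simp
  rw [h2]
  have hK : 0 ≤ 7 * |(b : ℝ)| * (Y / P) := by positivity
  have h3 : ‖∑ x ∈ Ioo 0 X, ∑ u ∈ Icc (-((x : ℤ) + 1)) (x + 1),
        ((tri X x * tri Y ((m : ℤ) * u - ν * x) : ℝ) : ℂ) *
          (ex ((b : ℝ) * ν / m) - ex ((b : ℝ) * u / x))‖
      ≤ 7 * |(b : ℝ)| * (Y / P) * ∑ x ∈ Ioo 0 X, ∑ u ∈ Icc (-((x : ℤ) + 1)) (x + 1),
        tri X x * tri Y ((m : ℤ) * u - ν * x) := by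
    rw [Finset.mul_sum]
    refine le_trans (norm_sum_le _ _) (Finset.sum_le_sum fun x hx => ?_)
    rw [Finset.mul_sum]
    refine le_trans (norm_sum_le _ _) (Finset.sum_le_sum fun u _ => ?_)
    rw [mem_Ioo] at hx
    have hw : 0 ≤ tri X x * tri Y ((m : ℤ) * u - ν * x) := mul_nonneg (tri_nonneg _ _) (tri_nonneg _ _)
    rw [norm_mul, Complex.norm_real, Real.norm_of_nonneg hw, mul_comm]
    by_cases hy : (Y : ℤ) ≤ |(m : ℤ) * u - ν * x|
    · rw [tri_eq_zero Y hY _ hy]; simp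
    · refine mul_le_mul_of_nonneg_right ?_ hw
      rw [not_le] at hy
      have hyr : |(m : ℝ) * u - ν * x| < Y := by exact_mod_cast hy
      have hx0 : (0 : ℝ) < x := by exact_mod_cast hx.1
      have hx1 : (1 : ℝ) ≤ x := by exact_mod_cast hx.1
      refine le_trans (ex_lip _ _) ?_
      have h4 : (b : ℝ) * ν / m - (b : ℝ) * u / x = -(b * ((m : ℝ) * u - ν * x)) / (m * x) := by
        field_simp; ring
      rw [h4, abs_div, abs_neg, abs_mul, abs_of_pos (by positivity : (0 : ℝ) < m * x)]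
      have h5 : |(b : ℝ)| * |(m : ℝ) * u - ν * x| / (m * x) ≤ |(b : ℝ)| * Y / P := by
        apply div_le_div₀ (by positivity) (mul_le_mul_of_nonneg_left hyr.le (abs_nonneg _)) hP0
        have hmP : (P : ℝ) ≤ m := by exact_mod_cast hm.le
        nlinarith
      calc 7 * (|(b : ℝ)| * |(m : ℝ) * u - ν * x| / (m * x)) ≤ 7 * (|(b : ℝ)| * Y / P) :=
            mul_le_mul_of_nonneg_left h5 (by norm_num)
        _ = 7 * |(b : ℝ)| * (Y / P) := by ring
  nlinarith [h3, hK]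

end UDAM

open UDAM in
theorem specUDA (hR : SpecRCT) (hT : SpecTOT) : SpecUDA := by
  intro T a b q P J X Y ha hX hXY hYP hPXY hJ hTB
  have hY : 1 ≤ Y := by omega
  have hP1 : 1 ≤ P := by omega
  have hP0 : (0 : ℝ) < P := by exact_mod_cast (by omega : 0 < P)
  have hK : 0 ≤ 7 * |(b : ℝ)| * ((Y : ℝ) / P) := by positivity
  -- the difference
  have h1 : ‖Us a b q P J X Y - 2 * Vt a b q P J X Y‖
      ≤ ∑ m ∈ (Ioc P J).filter (fun m => q ∣ m), ∑ ν ∈ rt a m,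
        (1 + 7 * |(b : ℝ)| * (Y / P) * Wt X Y m ν) := by
    unfold Us Vt
    rw [Finset.mul_sum, ← Finset.sum_sub_distrib]
    refine le_trans (norm_sum_le _ _) (Finset.sum_le_sum fun m hm => ?_)
    rw [Finset.mul_sum, ← Finset.sum_sub_distrib]
    refine le_trans (norm_sum_le _ _) (Finset.sum_le_sum fun ν hν => ?_)
    rw [mem_filter, mem_Ioc] at hm
    have hν2 : ν < m := by
      unfold rt at hν
      exact mem_range.1 (mem_filter.1 hν).1
    exact point b P X Y m ν hX hY hYP hm.1.1 hν2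
  have h2 : ∑ m ∈ (Ioc P J).filter (fun m => q ∣ m), ∑ ν ∈ rt a m,
        (1 + 7 * |(b : ℝ)| * (Y / P) * Wt X Y m ν)
      ≤ ∑ m ∈ Ioc P (2 * P), ∑ ν ∈ rt a m, (1 + 7 * |(b : ℝ)| * (Y / P) * Wt X Y m ν) := by
    refine Finset.sum_le_sum_of_subset_of_nonneg ?_ ?_
    · intro m hm
      rw [mem_filter, mem_Ioc] at hm
      rw [mem_Ioc]
      exact ⟨hm.1.1, by omega⟩
    · intro m _ _
      refine Finset.sum_nonneg fun ν _ => ?_
      have := mul_nonneg hK (wt_nonneg X Y m ν)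
      linarith
  have h3 : ∑ m ∈ Ioc P (2 * P), ∑ ν ∈ rt a m, (1 + 7 * |(b : ℝ)| * (Y / P) * Wt X Y m ν)
      = ∑ m ∈ Ioc P (2 * P), ((rt a m).card : ℝ)
        + 7 * |(b : ℝ)| * (Y / P) * ∑ m ∈ Ioc P (2 * P), ∑ ν ∈ rt a m, Wt X Y m ν := by
    rw [Finset.mul_sum, ← Finset.sum_add_distrib]
    refine Finset.sum_congr rfl fun m _ => ?_
    rw [Finset.sum_add_distrib, Finset.mul_sum, Finset.sum_const, nsmul_eq_mul, mul_one]
  have h4 : ∑ m ∈ Ioc P (2 * P), ((rt a m).card : ℝ) ≤ 2 * P * T := by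
    have h5 : TB T ((2 * P) ^ 2 + a.natAbs) := by
      refine hTB.mono ?_
      have : 1 ≤ P ^ 2 := Nat.one_le_pow _ _ (by omega)
      nlinarith [Nat.zero_le a.natAbs]
    have h6 := (hR T a (2 * P) ha h5).1
    have h7 : ∑ m ∈ Ioc P (2 * P), ((rt a m).card : ℝ) ≤ ∑ m ∈ Ioc 0 (2 * P), ((rt a m).card : ℝ) := by
      refine Finset.sum_le_sum_of_subset_of_nonneg (Ioc_subset_Ioc_left (by omega)) ?_
      intro m _ _; positivity
    push_cast at h6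
    linarith
  have h8 := hT T a X Y P ha hX hXY hP1 hPXY hTB
  have h9 := mul_le_mul_of_nonneg_left h8 hK
  have h10 : 7 * |(b : ℝ)| * ((Y : ℝ) / P) * (60 * T ^ 2 * ((X : ℝ) * Y))
      = 420 * T ^ 2 * |(b : ℝ)| * (X * (Y : ℝ) ^ 2) / P := by
    field_simp; ring
  have h11 : ‖Us a b q P J X Y‖ ≤ ‖Us a b q P J X Y - 2 * Vt a b q P J X Y‖ + 2 * ‖Vt a b q P J X Y‖ := by
    have h12 : Us a b q P J X Y = (Us a b q P J X Y - 2 * Vt a b q P J X Y) + 2 * Vt a b q P J X Y := by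
      ring
    calc ‖Us a b q P J X Y‖ = ‖(Us a b q P J X Y - 2 * Vt a b q P J X Y) + 2 * Vt a b q P J X Y‖ := by
          rw [← h12]
      _ ≤ ‖Us a b q P J X Y - 2 * Vt a b q P J X Y‖ + ‖2 * Vt a b q P J X Y‖ := norm_add_le _ _
      _ = _ := by rw [norm_mul]; simp
  linarith

end

end Pool.Agent.Lib.MP391708.U.R
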