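import Pool.Agent.Lib.MP_391708_nt.U.R.SpecR

/-!
# Project U, part R, module UDB: grouping by the gcd
-/

set_option autoImplicit false

namespace Pool.Agent.Lib.MP391708.U.R

open Finset Filter Topology Pool.Agent.Lib.MP391708.QPA Pool.Agent.Lib.MP391708.U
open scoped Classical

namespace UDBM

theorem bd {m u v x V : ℤ} (hm : V < m) (hv0 : 0 ≤ v) (hv : v < m) (hx : 0 ≤ x)
    (h : |m * u - v * x| ≤ V) : -(x + 1) ≤ u ∧ u ≤ x + 1 := by
  have h1 := abs_le.1 h
  have hm0 : 0 < m := lt_of_le_of_lt hv0 hv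
  have hvx : v * x ≤ m * x := mul_le_mul_of_nonneg_right hv.le hx
  have hvx0 : 0 ≤ v * x := mul_nonneg hv0 hx
  constructor
  · by_contra hc
    push Not at hc
    have h2 : u + 1 ≤ -(x + 1) := by linarith
    have h3 : m * (u + 1) ≤ m * (-(x + 1)) := mul_le_mul_of_nonneg_left h2 hm0.le
    nlinarith [h1.1]
  · by_contra hc
    push Not at hc
    have h2 : x + 1 + 1 ≤ u := by linarith
    have h3 : m * (x + 1 + 1) ≤ m * u := mul_le_mul_of_nonneg_left h2 hm0.le
    nlinarith [h1.2]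

theorem one (b : ℤ) (m v x V g : ℕ) (hx : 1 ≤ x) (hVm : V < m) (hv : v < m) (hg : g ∣ x) :
    ∑ u ∈ ((Icc (-((x : ℤ) + 1)) (x + 1)).filter
        (fun u : ℤ => |(m : ℤ) * u - v * x| ≤ V)).filter (fun u : ℤ => Int.gcd u x = g),
      ex ((b : ℝ) * u / x) =
    ∑ u ∈ (Icc (-(((x / g : ℕ) : ℤ) + 1)) ((x / g : ℕ) + 1)).filter
      (fun u : ℤ => Int.gcd u (x / g : ℕ) = 1 ∧ |(m : ℤ) * u - v * (x / g : ℕ)| ≤ (V / g : ℕ)),
      ex ((b : ℝ) * u / (x / g : ℕ)) := by
  obtain ⟨y, rfl⟩ := hg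
  have hg0 : 0 < g := by
    rcases Nat.eq_zero_or_pos g with h | h
    · simp [h] at hx
    · exact h
  have hy0 : 0 < y := by
    rcases Nat.eq_zero_or_pos y with h | h
    · simp [h] at hx
    · exact h
  have hgz : (0 : ℤ) < g := by exact_mod_cast hg0
  have hgz' : (g : ℤ) ≠ 0 := hgz.ne'
  have hgr : (g : ℝ) ≠ 0 := by exact_mod_cast hg0.ne'
  have hyr : (y : ℝ) ≠ 0 := by exact_mod_cast hy0.ne'
  have hdiv : g * y / g = y := Nat.mul_div_cancel_left y hg0
  rw [hdiv]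
  have hkey : ∀ w : ℤ, |(m : ℤ) * (g * w) - v * ((g * y : ℕ) : ℤ)| ≤ V ↔
      |(m : ℤ) * w - v * y| ≤ ((V / g : ℕ) : ℤ) := by
    intro w
    have e1 : (m : ℤ) * (g * w) - v * ((g * y : ℕ) : ℤ) = g * ((m : ℤ) * w - v * y) := by
      push_cast; ring
    rw [e1, abs_mul, abs_of_pos hgz]
    have e2 : |(m : ℤ) * w - v * y| = (((m : ℤ) * w - v * y).natAbs : ℤ) :=
      (Int.natCast_natAbs _).symm
    rw [e2]
    have e3 : (g : ℤ) * ((((m : ℤ) * w - v * y).natAbs : ℕ) : ℤ) =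
        ((g * ((m : ℤ) * w - v * y).natAbs : ℕ) : ℤ) := by push_cast; ring
    rw [e3, Int.ofNat_le, Int.ofNat_le, Nat.le_div_iff_mul_le hg0, mul_comm]
  symm
  refine Finset.sum_bij' (fun u _ => (g : ℤ) * u) (fun u _ => u / (g : ℤ)) ?_ ?_ ?_ ?_ ?_
  · intro u hu
    simp only [mem_filter, mem_Icc] at hu ⊢
    obtain ⟨⟨h1, h2⟩, h3, h4⟩ := hu
    have h5 := (hkey u).2 h4
    refine ⟨⟨?_, h5⟩, ?_⟩
    · exact bd (by exact_mod_cast hVm) (by positivity) (by exact_mod_cast hv) (by positivity) h5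
    · push_cast
      rw [Int.gcd_mul_left, h3]
      simp
  · intro u hu
    simp only [mem_filter, mem_Icc] at hu ⊢
    obtain ⟨⟨⟨h1, h2⟩, h3⟩, h4⟩ := hu
    have hdu : (g : ℤ) ∣ u := by
      rw [← h4]; exact Int.gcd_dvd_left _ _
    obtain ⟨w, rfl⟩ := hdu
    have h5 := (hkey w).1 h3
    rw [Int.mul_ediv_cancel_left _ hgz']
    refine ⟨?_, ?_, h5⟩
    · refine bd (V := ((V / g : ℕ) : ℤ)) ?_ (by positivity) (by exact_mod_cast hv) (by positivity) h5
      have : V / g ≤ V := Nat.div_le_self V g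
      exact_mod_cast lt_of_le_of_lt this hVm
    · push_cast at h4
      rw [Int.gcd_mul_left] at h4
      simp only [Int.natAbs_natCast] at h4
      exact Nat.eq_of_mul_eq_mul_left hg0 (by rw [h4, mul_one])
  · intro u hu
    exact Int.mul_ediv_cancel_left _ hgz'
  · intro u hu
    simp only [mem_filter, mem_Icc] at hu
    have hdu : (g : ℤ) ∣ u := by
      rw [← hu.2]; exact Int.gcd_dvd_left _ _
    exact Int.mul_ediv_cancel' hdu
  · intro u hu
    congr 1
    push_cast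
    rw [show (b : ℝ) * ((g : ℝ) * u) / (g * y) = (g * (b * u)) / (g * y) by ring]
    rw [mul_div_mul_left _ _ hgr]

end UDBM

theorem specUDB : SpecUDB := by
  intro a b q P J x V hx hVP
  have hR : ∑ g ∈ x.divisors, Th a b q P J (x / g) (V / g) =
      ∑ m ∈ (Ioc P J).filter (fun m => q ∣ m), ∑ ν ∈ rt a m, ∑ g ∈ x.divisors,
        ∑ u ∈ (Icc (-(((x / g : ℕ) : ℤ) + 1)) ((x / g : ℕ) + 1)).filter
          (fun u : ℤ => Int.gcd u (x / g : ℕ) = 1 ∧
            |(m : ℤ) * u - ν * (x / g : ℕ)| ≤ (V / g : ℕ)),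
          ex ((b : ℝ) * u / (x / g : ℕ)) := by
    unfold Th
    rw [Finset.sum_comm]
    refine Finset.sum_congr rfl fun m _ => ?_
    rw [Finset.sum_comm]
  rw [hR]
  refine Finset.sum_congr rfl fun m hm => Finset.sum_congr rfl fun v hv => ?_
  simp only [mem_filter, mem_Ioc] at hm
  have hv' : v < m := by
    unfold rt at hv
    simp only [mem_filter, mem_range] at hv
    exact hv.1
  have hVm : V < m := hVP.trans hm.1.1
  rw [← Finset.sum_fiberwise_of_maps_to (s := (Icc (-((x : ℤ) + 1)) (x + 1)).filter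
        (fun u : ℤ => |(m : ℤ) * u - v * x| ≤ V)) (t := x.divisors)
        (g := fun u : ℤ => Int.gcd u x)]
  · refine Finset.sum_congr rfl fun g hg => ?_
    exact UDBM.one b m v x V g hx hVm hv' (Nat.dvd_of_mem_divisors hg)
  · intro u _
    rw [Nat.mem_divisors]
    refine ⟨?_, by omega⟩
    have := Int.gcd_dvd_right u (x : ℤ)
    exact_mod_cast this

end Pool.Agent.Lib.MP391708.U.R
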