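import Pool.Agent.Lib.MP_391708_nt.U.R.SpecR

/-!
# Project U, part R, module UDC: the bound for `Vt`
-/

set_option autoImplicit false

namespace Pool.Agent.Lib.MP391708.U.R

open Finset Filter Topology Pool.Agent.Lib.MP391708.QPA Pool.Agent.Lib.MP391708.U
open scoped Classical

namespace UDCM

theorem tri_layers (Y : ℕ) (hY : 1 ≤ Y) (z : ℤ) :
    tri Y z = (1 / (Y : ℝ)) * ∑ V ∈ range Y, if |z| ≤ (V : ℤ) then (1 : ℝ) else 0 := by
  have hY0 : (0 : ℝ) < Y := by exact_mod_cast hY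
  have h1 : ∑ V ∈ range Y, (if |z| ≤ (V : ℤ) then (1 : ℝ) else 0) =
      (((range Y).filter (fun V : ℕ => |z| ≤ (V : ℤ))).card : ℝ) := by
    rw [Finset.sum_ite, Finset.sum_const_zero, add_zero, Finset.sum_const, nsmul_eq_mul, mul_one]
  have h2 : (range Y).filter (fun V : ℕ => |z| ≤ (V : ℤ)) = Ico z.natAbs Y := by
    ext V
    simp only [mem_filter, mem_range, mem_Ico]
    rw [show |z| = (z.natAbs : ℤ) from (Int.natCast_natAbs z).symm, Int.ofNat_le]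
    exact and_comm
  have h4 : |(z : ℝ)| = (z.natAbs : ℝ) := by
    rw [Nat.cast_natAbs, Int.cast_abs]
  rw [h1, h2, Nat.card_Ico]
  unfold tri
  rw [h4]
  rcases le_total z.natAbs Y with h | h
  · rw [Nat.cast_sub h]
    have h5 : (z.natAbs : ℝ) / Y ≤ 1 := by
      rw [div_le_one hY0]; exact_mod_cast h
    rw [max_eq_right (by linarith)]
    field_simp
  · have h5 : 1 ≤ (z.natAbs : ℝ) / Y := by
      rw [le_div_iff₀ hY0, one_mul]; exact_mod_cast h
    rw [max_eq_left (by linarith), Nat.sub_eq_zero_of_le h]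
    simp

theorem tri_nonneg (L : ℕ) (y : ℤ) : 0 ≤ tri L y := le_max_left _ _

theorem tri_le_one (L : ℕ) (y : ℤ) : tri L y ≤ 1 := by
  unfold tri
  refine max_le (by norm_num) ?_
  have : 0 ≤ |(y : ℝ)| / L := by positivity
  linarith

theorem sum_div_le (X : ℕ) (F : ℕ → ℕ → ℝ) (hF : ∀ g x, 0 ≤ F g x) :
    ∑ x ∈ Ioo 0 X, ∑ g ∈ x.divisors, F g (x / g) ≤
      ∑ g ∈ Ioc 0 X, ∑ x ∈ Ioc 0 (X / g), F g x := by
  have h1 : ∑ x ∈ Ioo 0 X, ∑ g ∈ x.divisors, F g (x / g) =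
      ∑ g ∈ Ioc 0 X, ∑ x ∈ (Ioo 0 X).filter (fun x => g ∣ x), F g (x / g) := by
    refine Finset.sum_comm' ?_
    intro x g
    simp only [mem_Ioo, Nat.mem_divisors, mem_Ioc, mem_filter]
    constructor
    · rintro ⟨⟨h1, h2⟩, h3, h4⟩
      exact ⟨⟨⟨h1, h2⟩, h3⟩, Nat.pos_of_dvd_of_pos h3 h1, (Nat.le_of_dvd h1 h3).trans h2.le⟩
    · rintro ⟨⟨⟨h1, h2⟩, h3⟩, h4, h5⟩
      exact ⟨⟨h1, h2⟩, h3, by omega⟩
  rw [h1]
  refine Finset.sum_le_sum fun g hg => ?_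
  simp only [mem_Ioc] at hg
  have hinj : Set.InjOn (fun x : ℕ => x / g) ((Ioo 0 X).filter (fun x => g ∣ x) : Finset ℕ) := by
    intro x hx y hy hxy
    simp only [coe_filter, mem_Ioo, Set.mem_ofPred_eq] at hx hy
    have e1 := Nat.div_mul_cancel hx.2
    have e2 := Nat.div_mul_cancel hy.2
    simp only at hxy
    rw [← e1, ← e2, hxy]
  rw [← Finset.sum_image (f := fun y => F g y) hinj]
  refine Finset.sum_le_sum_of_subset_of_nonneg ?_ fun y _ _ => hF g y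
  intro y hy
  simp only [mem_image, mem_filter, mem_Ioo] at hy
  obtain ⟨x, ⟨⟨h1, h2⟩, h3⟩, rfl⟩ := hy
  simp only [mem_Ioc]
  exact ⟨Nat.div_pos (Nat.le_of_dvd h1 h3) hg.1, Nat.div_le_div_right h2.le⟩

end UDCM

theorem specUDC (hUDB : SpecUDB) : SpecUDC := by
  intro a b q P J X Y Bd hX hY hYP hB0 hB
  have hY0 : (0 : ℝ) < Y := by exact_mod_cast hY
  -- the inner sums
  set L : ℕ → ℕ → ℂ := fun x V =>
    ∑ m ∈ (Ioc P J).filter (fun m => q ∣ m), ∑ ν ∈ rt a m,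
      ∑ u ∈ (Icc (-((x : ℤ) + 1)) (x + 1)).filter (fun u : ℤ => |(m : ℤ) * u - ν * x| ≤ V),
        ex ((b : ℝ) * u / x) with hL
  have hVt : Vt a b q P J X Y = (1 / (Y : ℂ)) * ∑ x ∈ Ioo 0 X, ∑ V ∈ range Y,
      (tri X x : ℂ) * L x V := by
    have h1 : ∀ x : ℕ, ∑ V ∈ range Y, (tri X x : ℂ) * L x V =
        ∑ m ∈ (Ioc P J).filter (fun m => q ∣ m), ∑ ν ∈ rt a m,
          ∑ u ∈ Icc (-((x : ℤ) + 1)) (x + 1), ∑ V ∈ range Y,
            (tri X x : ℂ) * (if |(m : ℤ) * u - ν * x| ≤ V then ex ((b : ℝ) * u / x) else 0) := by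
      intro x
      simp only [hL, Finset.mul_sum, Finset.sum_filter, mul_ite, mul_zero]
      rw [Finset.sum_comm]
      refine Finset.sum_congr rfl fun m _ => ?_
      by_cases hq : q ∣ m
      · simp only [hq, if_true]
        rw [Finset.sum_comm]
        refine Finset.sum_congr rfl fun v _ => ?_
        rw [Finset.sum_comm]
      · simp [hq]
    simp only [h1]
    unfold Vt
    rw [Finset.mul_sum]
    have h2 : ∀ x : ℕ, (1 / (Y : ℂ)) * ∑ m ∈ (Ioc P J).filter (fun m => q ∣ m), ∑ ν ∈ rt a m,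
          ∑ u ∈ Icc (-((x : ℤ) + 1)) (x + 1), ∑ V ∈ range Y,
            (tri X x : ℂ) * (if |(m : ℤ) * u - ν * x| ≤ V then ex ((b : ℝ) * u / x) else 0) =
        ∑ m ∈ (Ioc P J).filter (fun m => q ∣ m), ∑ ν ∈ rt a m,
          ∑ u ∈ Icc (-((x : ℤ) + 1)) (x + 1),
            ((tri X x * tri Y ((m : ℤ) * u - ν * x) : ℝ) : ℂ) * ex ((b : ℝ) * u / x) := by
      intro x
      rw [Finset.mul_sum]
      refine Finset.sum_congr rfl fun m _ => ?_
      rw [Finset.mul_sum]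
      refine Finset.sum_congr rfl fun v _ => ?_
      rw [Finset.mul_sum]
      refine Finset.sum_congr rfl fun u _ => ?_
      have h4 : ((tri Y ((m : ℤ) * u - v * x) : ℝ) : ℂ) = (1 / (Y : ℂ)) *
          ∑ V ∈ range Y, (if |(m : ℤ) * u - v * x| ≤ (V : ℤ) then (1 : ℂ) else 0) := by
        rw [UDCM.tri_layers Y hY, Complex.ofReal_mul, Complex.ofReal_sum]
        congr 1
        · push_cast; rfl
        · refine Finset.sum_congr rfl fun V _ => ?_
          split_ifs <;> simp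
      rw [Complex.ofReal_mul, h4, ← Finset.mul_sum]
      have h3 : ∑ V ∈ range Y, (if |(m : ℤ) * u - v * x| ≤ (V : ℤ) then ex ((b : ℝ) * u / x) else 0)
          = (∑ V ∈ range Y, (if |(m : ℤ) * u - v * x| ≤ (V : ℤ) then (1 : ℂ) else 0)) *
            ex ((b : ℝ) * u / x) := by
        rw [Finset.sum_mul]
        refine Finset.sum_congr rfl fun V _ => ?_
        split_ifs <;> simp
      rw [h3]
      ring
    simp only [h2]
    rw [Finset.sum_comm]
    refine Finset.sum_congr rfl fun m _ => ?_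
    rw [Finset.sum_comm]
  have hLn : ∀ x V : ℕ, x ∈ Ioo 0 X → V ∈ range Y →
      ‖(tri X x : ℂ) * L x V‖ ≤ ∑ g ∈ x.divisors, Bd g (x / g) := by
    intro x V hx hV
    simp only [mem_Ioo, mem_range] at hx hV
    have e1 : L x V = ∑ g ∈ x.divisors, Th a b q P J (x / g) (V / g) :=
      hUDB a b q P J x V hx.1 (hV.trans_le hYP)
    have e2 : ‖L x V‖ ≤ ∑ g ∈ x.divisors, Bd g (x / g) := by
      rw [e1]
      refine (norm_sum_le _ _).trans (Finset.sum_le_sum fun g hg => ?_)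
      have hgx := Nat.dvd_of_mem_divisors hg
      have hg0 : 0 < g := Nat.pos_of_dvd_of_pos hgx hx.1
      refine hB g (x / g) (V / g) hg0 (Nat.div_pos (Nat.le_of_dvd hx.1 hgx) hg0) ?_ ?_
      · rw [Nat.mul_div_cancel' hgx]; exact hx.2
      · exact (Nat.mul_div_le V g).trans_lt hV
    rw [norm_mul]
    have e3 : ‖(tri X x : ℂ)‖ ≤ 1 := by
      rw [Complex.norm_real, Real.norm_eq_abs, abs_of_nonneg (UDCM.tri_nonneg _ _)]
      exact UDCM.tri_le_one _ _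
    calc ‖(tri X x : ℂ)‖ * ‖L x V‖ ≤ 1 * ‖L x V‖ :=
          mul_le_mul_of_nonneg_right e3 (norm_nonneg _)
      _ ≤ _ := by rw [one_mul]; exact e2
  rw [hVt, norm_mul]
  have h5 : ‖∑ x ∈ Ioo 0 X, ∑ V ∈ range Y, (tri X x : ℂ) * L x V‖ ≤
      Y * ∑ x ∈ Ioo 0 X, ∑ g ∈ x.divisors, Bd g (x / g) := by
    refine (norm_sum_le _ _).trans ?_
    rw [Finset.mul_sum]
    refine Finset.sum_le_sum fun x hx => ?_
    refine (norm_sum_le _ _).trans ?_
    refine (Finset.sum_le_sum fun V hV => hLn x V hx hV).trans ?_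
    rw [Finset.sum_const, card_range, nsmul_eq_mul]
  have h6 : ‖(1 / (Y : ℂ))‖ = 1 / (Y : ℝ) := by
    rw [norm_div, norm_one, Complex.norm_natCast]
  rw [h6]
  calc 1 / (Y : ℝ) * ‖∑ x ∈ Ioo 0 X, ∑ V ∈ range Y, (tri X x : ℂ) * L x V‖
      ≤ 1 / (Y : ℝ) * (Y * ∑ x ∈ Ioo 0 X, ∑ g ∈ x.divisors, Bd g (x / g)) :=
        mul_le_mul_of_nonneg_left h5 (by positivity)
    _ = ∑ x ∈ Ioo 0 X, ∑ g ∈ x.divisors, Bd g (x / g) := by
        field_simp
    _ ≤ _ := UDCM.sum_div_le X Bd hB0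

end Pool.Agent.Lib.MP391708.U.R
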