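import Pool.Agent.Lib.MP_391708_nt.U.R.SpecR

/-!
# Project U, part R, module WTI: the cover weight as a sum of Fejer kernels
-/

set_option autoImplicit false

namespace Pool.Agent.Lib.MP391708.U.R

open Finset Filter Topology Pool.Agent.Lib.MP391708.QPA Pool.Agent.Lib.MP391708.U
open scoped Classical

noncomputable section

theorem specWTI (hFTR : SpecFTR) (hFCG : SpecFCG) : SpecWTI := by
  intro X Y m ν hX hY hm
  have hx : ∀ x : ℤ, ((∑ y ∈ Ioo (-(Y : ℤ)) Y,
      (if (m : ℤ) ∣ y + ν * x then tri X x * tri Y y else 0) : ℝ) : ℂ) =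
      (1 / (m : ℂ)) * ∑ k ∈ range m, (fej Y ((k : ℝ) / m) : ℂ) *
        ((tri X x : ℂ) * ex ((x : ℝ) * ((k : ℝ) * ν / m))) := by
    intro x
    have h1 := hFCG Y m (-(ν * x)) hY hm
    have h2 : (∑ y ∈ Ioo (-(Y : ℤ)) Y, (if (m : ℤ) ∣ y + ν * x then tri X x * tri Y y else 0) : ℝ) =
        tri X x * ∑ y ∈ Ioo (-(Y : ℤ)) Y, (if (m : ℤ) ∣ y - -(ν * x) then tri Y y else 0) := by
      rw [Finset.mul_sum]
      refine Finset.sum_congr rfl fun y _ => ?_
      rw [sub_neg_eq_add]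
      split_ifs
      · rfl
      · simp
    rw [h2, Complex.ofReal_mul, h1, mul_left_comm, Finset.mul_sum]
    congr 1
    refine Finset.sum_congr rfl fun k _ => ?_
    have h3 : -((k : ℝ) * ((-(ν * x) : ℤ) : ℝ)) / m = (x : ℝ) * ((k : ℝ) * ν / m) := by
      push_cast
      ring
    rw [h3]
    ring
  have h4 : ((Wt X Y m ν : ℝ) : ℂ) =
      (((1 / (m : ℝ)) * ∑ k ∈ range m, fej Y ((k : ℝ) / m) * fej X ((k : ℝ) * ν / m) : ℝ) : ℂ) := by
    unfold Wt
    rw [Complex.ofReal_sum, Finset.sum_congr rfl (fun x _ => hx x), ← Finset.mul_sum,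
      Finset.sum_comm]
    push_cast
    congr 1
    refine Finset.sum_congr rfl fun k _ => ?_
    rw [← Finset.mul_sum, hFTR X ((k : ℝ) * ν / m) hX]
  exact_mod_cast h4

end

end Pool.Agent.Lib.MP391708.U.R
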