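import Pool.Agent.Lib.MP_391708_nt.U.R.FTR
import Pool.Agent.Lib.MP_391708_nt.U.R.FCG
import Pool.Agent.Lib.MP_391708_nt.U.R.WTI
import Pool.Agent.Lib.MP_391708_nt.U.R.FBD
import Pool.Agent.Lib.MP_391708_nt.U.R.CO1
import Pool.Agent.Lib.MP_391708_nt.U.R.MNS
import Pool.Agent.Lib.MP_391708_nt.U.R.CO2
import Pool.Agent.Lib.MP_391708_nt.U.R.EXC
import Pool.Agent.Lib.MP_391708_nt.U.R.RCT
import Pool.Agent.Lib.MP_391708_nt.U.R.TOT
import Pool.Agent.Lib.MP_391708_nt.U.R.BJ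
import Pool.Agent.Lib.MP_391708_nt.U.R.THE
import Pool.Agent.Lib.MP_391708_nt.U.R.KFH
import Pool.Agent.Lib.MP_391708_nt.U.R.GSM
import Pool.Agent.Lib.MP_391708_nt.U.R.KIN
import Pool.Agent.Lib.MP_391708_nt.U.R.SIN
import Pool.Agent.Lib.MP_391708_nt.U.R.THB
import Pool.Agent.Lib.MP_391708_nt.U.R.KAV
import Pool.Agent.Lib.MP_391708_nt.U.R.UDA
import Pool.Agent.Lib.MP_391708_nt.U.R.UDB
import Pool.Agent.Lib.MP_391708_nt.U.R.UDC
import Pool.Agent.Lib.MP_391708_nt.U.R.UBD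
import Pool.Agent.Lib.MP_391708_nt.U.R.SBD
import Pool.Agent.Lib.MP_391708_nt.U.R.DYB
import Pool.Agent.Lib.MP_391708_nt.U.R.TBN
import Pool.Agent.Lib.MP_391708_nt.U.R.DYA
import Pool.Agent.Lib.MP_391708_nt.U.R.ROW
import Pool.Agent.Lib.MP_1446ad_nt.SM.QCT
import Pool.Agent.Lib.MP_1446ad_nt.SM.QEX
import Pool.Agent.Lib.MP_1446ad_nt.SM.TOW
import Pool.Agent.Lib.MP_1446ad_nt.SM.STP
import Pool.Agent.Lib.MP_1446ad_nt.SM.BND
import Pool.Agent.Lib.MP_1446ad_nt.SM.WEI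
import Pool.Agent.Lib.MP_1446ad_nt.SM.KPR
import Pool.Agent.Lib.MP_1446ad_nt.SM.KMU
import Pool.Agent.Lib.MP_1446ad_nt.SM.SQF
import Pool.Agent.Lib.MP_1446ad_nt.SM.TRI
import Pool.Agent.Lib.MP_1446ad_nt.SM.KLB
import Pool.Agent.Lib.MP_1446ad_nt.SM.DEC

/-!
# Project U (MP_391708), part R: assembly of ROOTW
-/

set_option autoImplicit false

namespace Pool.Agent.Lib.MP391708.U.R

open Pool.Agent.Lib.MP391708.U
open Pool.Agent.Lib.MP_1446ad_nt.SM (specKLB specDEC specKMU specSQF specKPR specWEI specTOW specQEX specQCT specBND specSTP specTRI)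

theorem klb : Pool.Agent.Lib.MP_1446ad_nt.SM.SpecKLB :=
  specKLB specKMU (specSQF (specKPR (specWEI (specTOW (specQEX specQCT)) (specBND specSTP))) specKMU) specTRI

theorem dec : Pool.Agent.Lib.MP_1446ad_nt.SM.SpecDEC := specDEC

theorem wti : SpecWTI := specWTI specFTR (specFCG specFTR)

theorem exc : SpecEXC := specEXC wti specFBD (specCO1 specFBD) (specCO2 specMNS)

theorem kin : SpecKIN := specKIN (specKFH klb dec) (specGSM specFBD)

theorem thb : SpecTHB := specTHB (specTHE specBJ) (specSIN kin) specRCT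

theorem ubdH : SpecUBD := specUBD thb (specKAV dec) (specUDA specRCT (specTOT exc specRCT)) (specUDC specUDB)

theorem dya : SpecDYA := specDYA (specDYB (specSBD exc ubdH)) specTBN

/-- ROOTW without hypotheses. -/
theorem rootw : SpecROOTW := specROW dya specTBN specRCT

end Pool.Agent.Lib.MP391708.U.R
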