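import Pool.Agent.Lib.MP_391708_nt.U.R.SpecR

/-!
# Project U, part R: module BJ (the algebra)
-/

set_option autoImplicit false

namespace Pool.Agent.Lib.MP391708.U.R.BJM

theorem dvd_of_gcd {u x z : ℤ} (h : Int.gcd u x = 1) (hz : x ∣ u * z) : x ∣ z := by
  have h1 : IsCoprime x u := (Int.isCoprime_iff_gcd_eq_one.2 h).symm
  exact h1.dvd_of_dvd_mul_left hz

theorem exists_bs {a m l ν x u α s p : ℤ} (hα : α = m * u ^ 2 - 2 * ν * u * x + l * x ^ 2)
    (ha : a = m * l - ν ^ 2) (hsp : u * s + x * p = -1) :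
    ∃ β : ℤ, m * u - ν * x = β * x - α * s ∧ α ∣ β ^ 2 + a := by
  refine ⟨-(m * u * p + ν * u * s - ν * x * p - l * x * s), ?_, ?_⟩
  · rw [hα]
    linear_combination (m * u - ν * x) * hsp
  · refine ⟨m * p ^ 2 + 2 * ν * p * s + l * s ^ 2, ?_⟩
    have h1 : (-(m * u * p + ν * u * s - ν * x * p - l * x * s)) ^ 2 +
        a * (u * s + x * p) ^ 2 = α * (m * p ^ 2 + 2 * ν * p * s + l * s ^ 2) := by
      rw [hα, ha]; ring
    rw [hsp] at h1
    linear_combination h1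

end BJM

open BJM in
/-- Module BJ. -/
theorem specBJ : SpecBJ := by
  intro a m ν x u y α hm hα hx hmν hgcd hy hmα
  obtain ⟨l, hl⟩ := hmν
  have ha : a = m * l - ν ^ 2 := by linarith
  have hα' : α = m * u ^ 2 - 2 * ν * u * x + l * x ^ 2 := by
    apply mul_left_cancel₀ hm
    rw [hmα, hy, ha]; ring
  obtain ⟨s₀, p₀, hsp⟩ : ∃ s p : ℤ, u * s + x * p = -1 := by
    have h1 : IsCoprime u x := Int.isCoprime_iff_gcd_eq_one.2 hgcd
    obtain ⟨c, d, hcd⟩ := h1
    exact ⟨-c, -d, by linear_combination -hcd⟩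
  obtain ⟨β₀, hβ1, hβ2⟩ := exists_bs hα' ha hsp
  have hα0 : 0 < |α| := abs_pos.2 hα
  have hy2 : y = (β₀ % α) * x - α * (s₀ - (β₀ / α) * x) := by
    rw [hy, hβ1, Int.emod_def]; ring
  have hx2 : x ∣ u * (s₀ - (β₀ / α) * x) + 1 :=
    ⟨-p₀ - u * (β₀ / α), by linear_combination hsp⟩
  have hd : α ∣ (β₀ % α) ^ 2 + a := by
    have h1 : (β₀ % α) ^ 2 + a = (β₀ ^ 2 + a) + α * (-(β₀ / α) * (β₀ + β₀ % α)) := by
      rw [Int.emod_def]; ring
    rw [h1]
    exact dvd_add hβ2 (dvd_mul_right _ _)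
  refine ⟨β₀ % α, s₀ - (β₀ / α) * x, Int.emod_nonneg _ hα, Int.emod_lt_abs _ hα, hy2, hx2, hd,
    ?_, ?_, ?_⟩
  · rw [← Int.isCoprime_iff_gcd_eq_one]
    obtain ⟨c, hc⟩ := hx2
    exact ⟨-u, c, by linear_combination -hc⟩
  · apply mul_left_cancel₀ hα
    obtain ⟨c, hc⟩ := hd
    have h1 : ((β₀ % α) ^ 2 + a) / α = c := by
      rw [hc, Int.mul_ediv_cancel_left _ hα]
    unfold mf
    rw [h1]
    have h2 : α * m = ((β₀ % α) * x - α * (s₀ - (β₀ / α) * x)) ^ 2 + a * x ^ 2 := by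
      rw [← hy2, mul_comm, hmα]
    rw [h2]
    linear_combination (x ^ 2) * hc
  · intro β' s' h0 h1 h2 h3
    have h4 : x ∣ u * (s' - (s₀ - (β₀ / α) * x)) := by
      have h5 := dvd_sub h3 hx2
      have h6 : u * s' + 1 - (u * (s₀ - (β₀ / α) * x) + 1) =
          u * (s' - (s₀ - (β₀ / α) * x)) := by ring
      rwa [h6] at h5
    obtain ⟨j, hj⟩ := dvd_of_gcd hgcd h4
    have h7 : (β' - β₀ % α) * x = (α * j) * x := by
      linear_combination hy2 - h2 + α * hj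
    have h8 : β' - β₀ % α = α * j := mul_right_cancel₀ hx.ne' h7
    have h9 : |β' - β₀ % α| < |α| := by
      have h10 := Int.emod_nonneg β₀ hα
      have h11 := Int.emod_lt_abs β₀ hα
      rw [abs_lt]
      constructor <;> linarith
    have h12 : j = 0 := by
      by_contra hj0
      have h13 : |α| ≤ |α * j| := by
        rw [abs_mul]
        have h14 : 1 ≤ |j| := Int.one_le_abs hj0
        nlinarith
      rw [h8] at h9
      exact absurd h9 (not_lt.2 h13)
    rw [h12, mul_zero] at h8 hj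
    exact ⟨by linarith, by linarith⟩

end Pool.Agent.Lib.MP391708.U.R
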