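import Pool.Agent.Lib.MP_391708_nt.U.R.SpecR

/-! # Project U, part R, module FTR: Fourier transform of the tent -/

set_option autoImplicit false

namespace Pool.Agent.Lib.MP391708.U.R

open Finset Filter Topology Pool.Agent.Lib.MP391708.QPA Pool.Agent.Lib.MP391708.U
open Pool.Agent.Lib.MP_1446ad_nt.SM (tau uu vv kc SpecKLB SpecDEC)
open scoped Classical

noncomputable section

namespace FTRM

theorem ex_conj (x : ℝ) : (starRingEnd ℂ) (ex x) = ex (-x) := by
  unfold ex
  rw [← Complex.exp_conj]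
  congr 1
  rw [map_mul, map_mul, map_mul, Complex.conj_ofReal, Complex.conj_ofReal, Complex.conj_I,
    map_ofNat]
  push_cast
  ring

/-- `L * max 0 (1 - d / L)` is the truncated difference -/
theorem tent_nat (L d : ℕ) (hL : 1 ≤ L) :
    ((L - d : ℕ) : ℝ) = L * max 0 (1 - (d : ℝ) / L) := by
  have hN0 : (0 : ℝ) < L := by exact_mod_cast hL
  rw [mul_max_of_nonneg _ _ hN0.le]
  rcases le_total d L with h2 | h2
  · have h3 : ((L - d : ℕ) : ℝ) = (L : ℝ) - d := by push_cast [Nat.cast_sub h2]; ring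
    have h4 : (d : ℝ) ≤ L := by exact_mod_cast h2
    rw [h3, max_eq_right]
    · field_simp
    · have : (L : ℝ) * (1 - d / L) = L - d := by field_simp
      rw [this]
      linarith
  · have h3 : L - d = 0 := by omega
    have h4 : (L : ℝ) ≤ d := by exact_mod_cast h2
    rw [h3, max_eq_left]
    · simp
    · have : (L : ℝ) * (1 - d / L) = L - d := by field_simp
      rw [this]
      linarith

/-- the number of the pairs -/
theorem card_pairs (L : ℕ) (y : ℤ) (hL : 1 ≤ L) :
    ((((range L) ×ˢ (range L)).filter (fun p : ℕ × ℕ => y = (p.1 : ℤ) - p.2)).card : ℝ)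
      = L * tri L y := by
  unfold tri
  rcases le_total 0 y with h | h
  · obtain ⟨d, rfl⟩ := Int.eq_ofNat_of_zero_le h
    have h1 : ((range L) ×ˢ (range L)).filter (fun p : ℕ × ℕ => (d : ℤ) = (p.1 : ℤ) - p.2)
        = (range (L - d)).image (fun j => (j + d, j)) := by
      ext ⟨i, j⟩
      simp only [mem_filter, mem_product, mem_range, mem_image, Prod.mk.injEq]
      constructor
      · rintro ⟨⟨h2, h3⟩, h4⟩
        exact ⟨j, by omega, by omega, rfl⟩
      · rintro ⟨k, hk, h2, h3⟩
        omega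
    rw [h1, card_image_of_injective _ (fun a b hab => by simpa using congrArg Prod.snd hab),
      card_range, tent_nat L d hL]
    push_cast
    rw [abs_of_nonneg (by positivity : (0 : ℝ) ≤ (d : ℝ))]
  · obtain ⟨d, hd⟩ := Int.eq_ofNat_of_zero_le (neg_nonneg.2 h)
    have hy : y = -(d : ℤ) := by omega
    subst hy
    have h1 : ((range L) ×ˢ (range L)).filter (fun p : ℕ × ℕ => -(d : ℤ) = (p.1 : ℤ) - p.2)
        = (range (L - d)).image (fun i => (i, i + d)) := by
      ext ⟨i, j⟩
      simp only [mem_filter, mem_product, mem_range, mem_image, Prod.mk.injEq]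
      constructor
      · rintro ⟨⟨h2, h3⟩, h4⟩
        exact ⟨i, by omega, rfl, by omega⟩
      · rintro ⟨k, hk, h2, h3⟩
        omega
    rw [h1, card_image_of_injective _ (fun a b hab => by simpa using congrArg Prod.fst hab),
      card_range, tent_nat L d hL]
    push_cast
    rw [abs_neg, abs_of_nonneg (by positivity : (0 : ℝ) ≤ (d : ℝ))]

/-- summation over the pairs -/
theorem sum_pairs (L : ℕ) (hL : 1 ≤ L) (g : ℤ → ℂ) :
    ∑ i ∈ range L, ∑ j ∈ range L, g ((i : ℤ) - j)
      = ∑ y ∈ Ioo (-(L : ℤ)) L, ((L : ℂ) * (tri L y : ℂ)) * g y := by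
  rw [← sum_product']
  have h1 : ∀ p ∈ (range L) ×ˢ (range L), g ((p.1 : ℤ) - (p.2 : ℤ))
      = ∑ y ∈ Ioo (-(L : ℤ)) L, if y = (p.1 : ℤ) - (p.2 : ℤ) then g y else 0 := by
    rintro ⟨i, j⟩ hp
    rw [mem_product, mem_range, mem_range] at hp
    simp only at hp ⊢
    rw [sum_ite_eq', if_pos]
    rw [mem_Ioo]
    omega
  rw [sum_congr rfl h1, sum_comm]
  refine sum_congr rfl fun y _ => ?_
  rw [← sum_filter, sum_const, nsmul_eq_mul]
  congr 1
  have h2 := card_pairs L y hL
  exact_mod_cast congrArg (fun x : ℝ => (x : ℂ)) h2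

end FTRM

open FTRM in
/-- FTR: the Fourier transform of the tent. -/
theorem specFTR : SpecFTR := by
  intro L t hL
  have hL0 : (L : ℂ) ≠ 0 := by
    have : L ≠ 0 := by omega
    exact_mod_cast this
  have h1 : ((‖∑ j ∈ range L, ex ((j : ℝ) * t)‖ ^ 2 : ℝ) : ℂ)
      = ∑ i ∈ range L, ∑ j ∈ range L, (fun y : ℤ => ex ((y : ℝ) * t)) ((i : ℤ) - j) := by
    rw [← Complex.normSq_eq_norm_sq, ← Complex.mul_conj, map_sum, sum_mul_sum]
    refine sum_congr rfl fun i _ => sum_congr rfl fun j _ => ?_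
    rw [ex_conj, ← ex_add]
    congr 1
    push_cast
    ring
  unfold fej
  rw [Complex.ofReal_div, h1, sum_pairs L hL (fun y : ℤ => ex ((y : ℝ) * t)), sum_div]
  refine sum_congr rfl fun y _ => ?_
  push_cast
  field_simp

end

end Pool.Agent.Lib.MP391708.U.R
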