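import Pool.Agent.Lib.MP_391708_nt.U.DefsR
import Pool.Agent.Lib.MP_1446ad_nt.SM.SpecK

/-!
# Project U (MP_391708), part R: the roots of `ν² ≡ -a (mod m)` are equidistributed (SpecROOTW of U/DefsR.lean)

Every Spec is a closed proposition; its doc string contains a complete proof. Module `XXX` = file `U/R/XXX.lean`, theorem
`specXXX (hYYY : SpecYYY) .. : SpecXXX` in the order of USES, own lemmas in the namespace `Pool.Agent.Lib.MP391708.U.R.XXXM`.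

THE IDEA. Write `W(ν,m)` for a weighted number of `(x,y)` with `|x| < X`, `|y| < Y`, `m ∣ y + ν x` (tents). On average over
`(m,ν)` it is `XY/m` (part A: Fejér kernels, no arithmetic except `η² + a β² ≠ 0` and the divisor bound). For `x > 0` put
`y + ν x = m u`: then `ν/m = u/x + O(Y/(m x))`, and `(m, ν, u)` is replaced by `(α, β, s)`, `m α = y² + a x²`,
`y = β x - α s`, `u s ≡ -1 (mod x)` (part B: `SL_2`). For given `α, β, x` the `s` run over two intervals in residue classes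
modulo `q`, and the phase is `e(-h s̄/x)`: an incomplete Kloosterman sum modulo `x ≤ X` (part C). Everything else is bookkeeping.
-/

set_option autoImplicit false

namespace Pool.Agent.Lib.MP391708.U.R

open Finset Filter Topology Pool.Agent.Lib.MP391708.QPA Pool.Agent.Lib.MP391708.U
open Pool.Agent.Lib.MP_1446ad_nt.SM (tau uu vv kc SpecKLB SpecDEC)
open scoped Classical

noncomputable section

/-! ## Definitions -/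

/-- The tent `max(0, 1 - |y|/L)`. -/
def tri (L : ℕ) (y : ℤ) : ℝ := max 0 (1 - |(y : ℝ)| / L)

/-- The Fejér kernel `(1/L) |∑_{j<L} e(j t)|²`. -/
def fej (L : ℕ) (t : ℝ) : ℝ := ‖∑ j ∈ range L, ex ((j : ℝ) * t)‖ ^ 2 / L

/-- The roots `0 ≤ ν < m` of `ν² ≡ -a (mod m)`; `rs a h m` is by definition `∑ ν ∈ rt a m, ex (h * ν / m)`. -/
def rt (a : ℤ) (m : ℕ) : Finset ℕ := (range m).filter (fun ν : ℕ => (m : ℤ) ∣ (ν : ℤ) ^ 2 + a)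

/-- The cover weight. -/
def Wt (X Y m ν : ℕ) : ℝ :=
  ∑ x ∈ Ioo (-(X : ℤ)) X, ∑ y ∈ Ioo (-(Y : ℤ)) Y,
    if (m : ℤ) ∣ y + ν * x then tri X x * tri Y y else 0

/-- `min(L, P²/(L y²))`, and `L` for `y = 0`. -/
def mnf (L P : ℕ) (y : ℤ) : ℝ :=
  if y = 0 then (L : ℝ) else min (L : ℝ) ((P : ℝ) ^ 2 / (L * (y : ℝ) ^ 2))

/-- The majorant of CO1. -/
def cov (a : ℤ) (X Y P m : ℕ) : ℝ :=
  ∑ β ∈ (Icc (-(P : ℤ)) P).filter (fun β : ℤ => β ≠ 0),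
    ∑ η ∈ (Icc (-(P : ℤ)) P).filter
      (fun η : ℤ => (m : ℤ) ∣ η ^ 2 + a * β ^ 2 ∧ (Int.gcd β m : ℤ) ∣ η),
      (Int.gcd β m : ℝ) * mnf Y P β * mnf X P η

/-- `T` bounds the divisor function and `1 + log` up to `B`. -/
def TB (T : ℝ) (B : ℕ) : Prop := 1 ≤ T ∧ ∀ n : ℕ, 0 < n → n ≤ B → tau n ≤ T ∧ 1 + Real.log n ≤ T

/-- `e(b s̄/x)` for `gcd(s,x) = 1`, otherwise 0. -/
def kf (x : ℕ) (b s : ℤ) : ℂ :=
  if Int.gcd s x = 1 then ex ((b : ℝ) * (((s : ZMod x)⁻¹).val : ℝ) / x) else 0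

/-- The bound for complete sums modulo `x`. -/
def KB (x : ℕ) (b : ℤ) : ℝ := tau x * √(uu x : ℝ) * (vv x : ℝ) * √|(b : ℝ)|

/-- `m` as a function of `(α, β, s, x)`: `α * mf = (β x - α s)² + a x²` if `α ∣ β² + a`. -/
def mf (a α β s x : ℤ) : ℤ := α * s ^ 2 - 2 * β * s * x + ((β ^ 2 + a) / α) * x ^ 2

/-- The sum over the triples `(m, ν, u)`. -/
def Th (a b : ℤ) (q P J x Y : ℕ) : ℂ :=
  ∑ m ∈ (Ioc P J).filter (fun m => q ∣ m), ∑ ν ∈ rt a m,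
    ∑ u ∈ (Icc (-((x : ℤ) + 1)) (x + 1)).filter
      (fun u : ℤ => Int.gcd u x = 1 ∧ |(m : ℤ) * u - ν * x| ≤ Y),
      ex ((b : ℝ) * u / x)

/-- The set of the `s`. -/
def Sset (a α β : ℤ) (q P J x Y : ℕ) : Finset ℤ :=
  (Icc (-((Y : ℤ) + x)) (Y + x)).filter
    (fun s : ℤ => (P : ℤ) < mf a α β s x ∧ mf a α β s x ≤ J ∧ (q : ℤ) ∣ mf a α β s x ∧
      |β * x - α * s| ≤ Y)

/-- The weighted sum. -/
def Us (a b : ℤ) (q P J X Y : ℕ) : ℂ :=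
  ∑ m ∈ (Ioc P J).filter (fun m => q ∣ m), ∑ ν ∈ rt a m,
    ex ((b : ℝ) * ν / m) * (Wt X Y m ν : ℂ)

/-- The positive part of the weighted sum with the phase `b u/x` in place of `b ν/m`. -/
def Vt (a b : ℤ) (q P J X Y : ℕ) : ℂ :=
  ∑ m ∈ (Ioc P J).filter (fun m => q ∣ m), ∑ ν ∈ rt a m, ∑ x ∈ Ioo 0 X,
    ∑ u ∈ Icc (-((x : ℤ) + 1)) (x + 1),
      ((tri X x * tri Y ((m : ℤ) * u - ν * x) : ℝ) : ℂ) * ex ((b : ℝ) * u / x)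

/-! ## Small facts, proved here -/

theorem TB.mono {T : ℝ} {B B' : ℕ} (h : TB T B) (hB : B' ≤ B) : TB T B' :=
  ⟨h.1, fun n h0 hn => h.2 n h0 (hn.trans hB)⟩

/-- `y² + a x² ≠ 0` for `x ≠ 0` if `-a` is not a square. -/
theorem nsq {a x y : ℤ} (ha : ¬ IsSquare (-a)) (hx : x ≠ 0) : y ^ 2 + a * x ^ 2 ≠ 0 := by
  intro h
  have h1 : y ^ 2 = (-a) * x ^ 2 := by linarith
  have h2 : x ^ 2 ∣ y ^ 2 := ⟨-a, by rw [h1]; ring⟩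
  have h3 : x ∣ y := (Int.pow_dvd_pow_iff (by norm_num)).1 h2
  obtain ⟨z, rfl⟩ := h3
  apply ha
  refine ⟨z, ?_⟩
  have h4 : x ^ 2 * (z * z) = x ^ 2 * (-a) := by rw [mul_comm (x ^ 2) (-a), ← h1]; ring
  exact (mul_left_cancel₀ (pow_ne_zero 2 hx) h4).symm

theorem rs_eq (a h : ℤ) (m : ℕ) : rs a h m = ∑ ν ∈ rt a m, ex ((h : ℝ) * ν / m) := rfl

theorem ex_zero : ex 0 = 1 := by simp [ex]

theorem ex_add (s t : ℝ) : ex (s + t) = ex s * ex t := by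
  unfold ex; rw [← Complex.exp_add]; congr 1; push_cast; ring

theorem ex_int (n : ℤ) : ex (n : ℝ) = 1 := by
  unfold ex
  have := Complex.exp_int_mul_two_pi_mul_I n
  rw [← this]; congr 1; push_cast; ring

theorem norm_ex (t : ℝ) : ‖ex t‖ = 1 := by
  unfold ex
  have : (2 * Real.pi * Complex.I * (t : ℂ)) = ((2 * Real.pi * t : ℝ) : ℂ) * Complex.I := by
    push_cast; ring
  rw [this, Complex.norm_exp_ofReal_mul_I]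

/-! ## Part A: the cover -/

/-- **FTR** (80 lines). Fourier transform of the tent.
Proof. `‖z‖² = z * conj z`, `conj (ex t) = ex (-t)`: `L * fej L t = ∑_{i,j < L} ex((i - j) t)`, and for `|y| < L` there are
`L - |y|` pairs `(i,j)` with `i - j = y`. -/
def SpecFTR : Prop := ∀ (L : ℕ) (t : ℝ), 1 ≤ L →
  ∑ y ∈ Ioo (-(L : ℤ)) L, (tri L y : ℂ) * ex ((y : ℝ) * t) = (fej L t : ℂ)

/-- **FCG** (80 lines; from FTR). The tent in a residue class.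
Proof. For an integer `z`: `1_{m ∣ z} = (1/m) ∑_{k<m} ex(k z/m)` (geometric sum of an `m`-th root of unity). Put `z = y - r`,
exchange the sums, use FTR with `t = k/m`. -/
def SpecFCG : Prop := ∀ (L m : ℕ) (r : ℤ), 1 ≤ L → 1 ≤ m →
  (((∑ y ∈ Ioo (-(L : ℤ)) L, if (m : ℤ) ∣ y - r then tri L y else 0 : ℝ)) : ℂ) =
    (1 / (m : ℂ)) * ∑ k ∈ range m, (fej L ((k : ℝ) / m) : ℂ) * ex (-((k : ℝ) * r) / m)

/-- **WTI** (60 lines; from FTR, FCG).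
Proof. For given `x` use FCG with `L = Y`, `r = - ν x`: the sum over `y` (without `tri X x`) is
`(1/m) ∑_k fej Y (k/m) ex(k ν x/m)`. Multiply by `tri X x`, sum over `x`, use FTR with `t = k ν/m`. -/
def SpecWTI : Prop := ∀ (X Y m ν : ℕ), 1 ≤ X → 1 ≤ Y → 1 ≤ m →
  Wt X Y m ν = (1 / (m : ℝ)) * ∑ k ∈ range m, fej Y ((k : ℝ) / m) * fej X ((k : ℝ) * ν / m)

/-- **FBD** (120 lines). Bounds for the Fejér kernel.
Proof. The first two are trivial (`‖∑‖ ≤ L`). The third: `j z/m - j y/m` is an integer. The fourth: with `θ = y/m`,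
`0 < |θ| ≤ 1/2`: `‖∑_{j<L} ex(jθ)‖ = ‖ex(Lθ) - 1‖/‖ex θ - 1‖ ≤ 2/‖ex θ - 1‖`, and `‖ex θ - 1‖ = 2 |sin(π θ)| ≥ 4 |θ|` (Jordan,
`Real.mul_le_sin`). So `fej L θ ≤ (1/(2|θ|))²/L`. -/
def SpecFBD : Prop := ∀ L : ℕ, 1 ≤ L →
  (∀ t : ℝ, 0 ≤ fej L t ∧ fej L t ≤ L) ∧ fej L 0 = L ∧
  (∀ (m : ℕ) (z y : ℤ), 1 ≤ m → (m : ℤ) ∣ z - y → fej L ((z : ℝ) / m) = fej L ((y : ℝ) / m)) ∧
  (∀ (m : ℕ) (y : ℤ), 1 ≤ m → y ≠ 0 → 2 * |y| ≤ m →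
    fej L ((y : ℝ) / m) ≤ (m : ℝ) ^ 2 / (4 * L * (y : ℝ) ^ 2))

/-- **CO1** (200 lines; from FBD). One modulus.
Proof. `P < m ≤ 2P`. For `0 < k < m` let `β` be the representative of `k` modulo `m` with `2|β| ≤ m` (`β = k` or `k - m`), so
`β ≠ 0`, `|β| ≤ P`, and `k` is determined by `β`. For `ν ∈ rt a m` let `η` be a representative of `k ν` with `2|η| ≤ m`, so
`|η| ≤ P`. By FBD (third and fourth, and `fej ≤ L`) `fej Y (k/m) ≤ mnf Y P β`, `fej X (k ν/m) ≤ mnf X P η`, since `m²/4 ≤ P²`.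
Moreover `m ∣ β ν - η`, hence `gcd(β,m) ∣ η` and `η² ≡ β² ν² ≡ - a β² (mod m)`. For given `(β, η)` there are at most
`gcd(β,m)` numbers `0 ≤ ν < m` with `m ∣ β ν - η` (they are congruent modulo `m/gcd(β,m)`). All summands are `≥ 0`. -/
def SpecCO1 : Prop := ∀ (a : ℤ) (X Y P m : ℕ), 1 ≤ X → 1 ≤ Y → P < m → m ≤ 2 * P →
  ∑ ν ∈ rt a m, ∑ k ∈ Ioo 0 m, fej Y ((k : ℝ) / m) * fej X ((k : ℝ) * ν / m) ≤ cov a X Y P m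

/-- **MNS** (120 lines). Sums of `mnf`.
Proof. With `z = P/(gL)` and `β = ± g j`: the sum is `2 L ∑_{1 ≤ j ≤ P/g} min(1, z²/j²)`, and
`∑_{j≥1} min(1, z²/j²) ≤ 3 z min(1,z)`: for `z < 1` it is `≤ z² ∑ 1/j² ≤ 2 z²`; for `z ≥ 1` with `n = ⌊z⌋ ≥ 1` it is
`≤ n + z² ∑_{j>n} 1/j² ≤ n + z²/n ≤ z + 2z` (`∑_{j>n} 1/j² ≤ 1/n` telescoping, `n ≥ z/2`). And `2 L 3 z min(1,z)` is the
right side. -/
def SpecMNS : Prop := ∀ (L P g : ℕ), 1 ≤ L → 1 ≤ P → 1 ≤ g →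
  ∑ β ∈ (Icc (-(P : ℤ)) P).filter (fun β : ℤ => β ≠ 0 ∧ (g : ℤ) ∣ β), mnf L P β ≤
    6 * ((P : ℝ) / g) * min 1 ((P : ℝ) / (g * L))

/-- **CO2** (200 lines; from MNS). The sum over the moduli.
Proof. Put `g = gcd(β,m)`, `1 ≤ g ≤ P` (`β ≠ 0`, `|β| ≤ P`); `g ∣ β`, `g ∣ η`. Exchange the sums: the left side is at most
`∑_{1≤g≤P} g ∑_{β ≠ 0, g ∣ β} ∑_{g ∣ η} mnf Y P β mnf X P η #{m ∈ (P,2P] : m ∣ η² + a β²}`. By `nsq` the number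
`η² + a β²` is not 0, its absolute value is at most `P² (|a|+1)`, so the number of `m` is at most `T`. By MNS the sum over
`β` is `≤ 6 (P/g) min(1, P/(gY))`, the sum over `η` is `≤ X + 6 P/g` (`mnf X P 0 = X`). So the left side is
`≤ 6 P T ∑_{g ≤ P} min(1, P/(gY)) (X + 6P/g) ≤ 6 P T ∑_{g≤P} (P X/(g Y) + 6 P/g) ≤ 6 P T (7 P) (1 + log P) ≤ 42 T² P²`
(`X ≤ Y`). -/
def SpecCO2 : Prop := ∀ (T : ℝ) (a : ℤ) (X Y P : ℕ), ¬ IsSquare (-a) → 1 ≤ X → X ≤ Y → 1 ≤ P →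
  TB T (4 * P ^ 2 * (a.natAbs + 1)) →
  ∑ m ∈ Ioc P (2 * P), cov a X Y P m ≤ 50 * T ^ 2 * (P : ℝ) ^ 2

/-- **EXC** (80 lines; from WTI, FBD, CO1, CO2). The cover is exact on average.
Proof. By WTI, and `fej Y 0 fej X 0 = X Y` for `k = 0`: `m Wt/(XY) - 1 = (1/(XY)) ∑_{0<k<m} fej Y (k/m) fej X (k ν/m) ≥ 0`. Sum
over `ν` (CO1) and `m` (CO2). -/
def SpecEXC : Prop := ∀ (T : ℝ) (a : ℤ) (X Y P : ℕ), ¬ IsSquare (-a) → 1 ≤ X → X ≤ Y → 1 ≤ P →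
  TB T (4 * P ^ 2 * (a.natAbs + 1)) →
  ∑ m ∈ Ioc P (2 * P), ∑ ν ∈ rt a m, |(m : ℝ) * Wt X Y m ν / (X * Y) - 1| ≤
    50 * T ^ 2 * (P : ℝ) ^ 2 / (X * Y)

/-- **RCT** (120 lines). Counting roots.
Proof. `∑_{m≤M} #rt = #{(ν,m) : 0 ≤ ν < m ≤ M, m ∣ ν² + a}`; for given `ν < M` the number `ν² + a` is not 0 (`nsq` with
`x = 1`) and at most `M² + |a|` in absolute value, so it has at most `T` divisors `m`: total `≤ T M`. Second: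
`∑_ν ∑_{m > ν} 1/m ≤ ∑_{ν<M} T/(ν+1) ≤ T (1 + log M) ≤ T²`. (`M = 0`: both sums are empty.) -/
def SpecRCT : Prop := ∀ (T : ℝ) (a : ℤ) (M : ℕ), ¬ IsSquare (-a) → TB T (M ^ 2 + a.natAbs) →
  ∑ m ∈ Ioc 0 M, ((rt a m).card : ℝ) ≤ T * M ∧
  ∑ m ∈ Ioc 0 M, ((rt a m).card : ℝ) / m ≤ T ^ 2

/-- **TOT** (60 lines; from EXC, RCT). The total weight.
Proof. `Wt = (XY/m)(1 + e)` with `∑∑ |e| ≤ 50 T² P²/(XY)` by EXC, `1/m ≤ 1/P`, and `∑_{m ≤ 2P} #rt ≤ 2 P T` by RCT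
(`M = 2P`, `4P² + |a| ≤ 4 P² (|a|+1)`). So the sum is `≤ (XY/P)(2 P T + 50 T² P²/(XY)) = 2 T X Y + 50 T² P ≤ 52 T² X Y`. -/
def SpecTOT : Prop := ∀ (T : ℝ) (a : ℤ) (X Y P : ℕ), ¬ IsSquare (-a) → 1 ≤ X → X ≤ Y → 1 ≤ P →
  P ≤ X * Y → TB T (4 * P ^ 2 * (a.natAbs + 1)) →
  ∑ m ∈ Ioc P (2 * P), ∑ ν ∈ rt a m, Wt X Y m ν ≤ 60 * T ^ 2 * ((X : ℝ) * Y)

/-! ## Part B: the transformation -/

/-- **BJ** (150 lines). The algebra. `m` and `α` may be negative, so BJ can be applied in both directions: the situation is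
symmetric under `(m, ν, u, y) ↔ (α, β, s, -y)`.
Proof. Let `l = (ν² + a)/m`, an integer. From `y = m u - ν x`: `α = m u² - 2 ν u x + l x²` (multiply by `m`). As `gcd(u,x) = 1`
there are `s₀, p₀` with `u s₀ + x p₀ = -1`. For any `s, p` with `u s + x p = -1` put
`β = - m u p - ν (1 + 2 u s) + l s x`. Then (a) `β x - α s = y`: `y + α s = m u (1 + u s) - ν x (1 + 2 u s) + l s x²` and
`1 + u s = - x p`. (b) with `γ = m p² + 2 ν p s + l s²`: `β² + a = α γ`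
(the discriminant identity: `(m, -2ν, l)` transformed by the matrix with columns `(u,x)`, `(p,-s)` of determinant
`-us - xp = 1`; in Lean: write `a = m l - ν²` and use `linear_combination (..) * (u s + x p + 1)`; or: from (a) and
`m α = y² + a x²`, multiply by `x²` and cancel: `x² (β² + a) = (y + α s)² + a x² = α (m + 2 y s + α s²)` and
`x² γ = m + 2 y s + α s²` since `x p = -1 - u s`). (c) `m = α s² - 2 β s x + γ x²`: by the same identity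
`x² γ = m + 2ys + αs²`, `α s² - 2 β s x + x² γ = m + 2 s (α s + y - β x) = m`. So `mf a α β s x = m`. Replacing `(s,p)` by `(s + j x, p - j u)` replaces `β` by
`β + j α`; choose `j` with `0 ≤ β < |α|` (`Int.emod`). `gcd(s,x) = 1` and `x ∣ u s + 1` are clear. Uniqueness: from
`x ∣ u (s - s')`, `gcd(u,x) = 1`: `s - s' = j x`, then `(β - β') x = α (s - s') = α j x`, so `α ∣ β - β'`, `|β - β'| < |α|`,
so `β = β'`, and `s = s'` from `α (s - s') = 0`. -/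
def SpecBJ : Prop := ∀ a m ν x u y α : ℤ, m ≠ 0 → α ≠ 0 → 0 < x → m ∣ ν ^ 2 + a →
  Int.gcd u x = 1 → y = m * u - ν * x → m * α = y ^ 2 + a * x ^ 2 →
  ∃ β s : ℤ, 0 ≤ β ∧ β < |α| ∧ y = β * x - α * s ∧ x ∣ u * s + 1 ∧ α ∣ β ^ 2 + a ∧
    Int.gcd s x = 1 ∧ m = mf a α β s x ∧
    ∀ β' s' : ℤ, 0 ≤ β' → β' < |α| → y = β' * x - α * s' → x ∣ u * s' + 1 → β' = β ∧ s' = s

/-- **THE** (300 lines; from BJ). The transformation of `Th`.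
Proof. Left index set: `(m,ν,u)`, `P < m ≤ J`, `q ∣ m`, `ν ∈ rt a m`, `|u| ≤ x+1`, `gcd(u,x) = 1`, `y := m u - ν x`,
`|y| ≤ Y`. Right index set: `(α,β,s)`, `0 < |α| ≤ Z`, `0 ≤ β < |α|`, `α ∣ β² + a`, `|s| ≤ Y + x`, `P < mf ≤ J`, `q ∣ mf`,
`y := β x - α s`, `|y| ≤ Y`, and `gcd(s,x) = 1` (the other `s` have `kf = 0`: filter them out). MAP `→`: `m ∣ y² + a x²`
(`y ≡ - ν x`), `α := (y² + a x²)/m`, not 0 by `nsq`; `|α| P < |α| m ≤ Y² + |a| x² < P (Z+1)`, so `|α| ≤ Z`; `(β,s)` from BJ;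
`|s| = |β x - y|/|α| ≤ (|α| x + Y)/|α| ≤ x + Y`. MAP `←`: `m := mf a α β s x`, a natural number `> P`, with
`α m = y² + a x²`; BJ for `(m,ν,u,y,α)` replaced by `(α, β, s, -y, m)` gives `(ν,u)`: `0 ≤ ν < m`, `- y = ν x - m u`,
`x ∣ s u + 1`, `m ∣ ν² + a`, `gcd(u,x) = 1`, `α = mf a m ν u x`; `|u| = |y + ν x|/m < 1 + x` as `|y| ≤ Y < P < m`. The two maps are inverse to each other by
the uniqueness in BJ (both pairs satisfy: same `x`, same `y`, `x ∣ u s + 1`, `m α = y² + a x²`). The summands agree: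
`s` is invertible modulo `x` with inverse `-u`, so the `val` is `≡ -u (mod x)` and `ex(-b val/x) = ex(b u/x)`. In Lean:
`Finset.sum_bij'` or `Finset.sum_nbij'` on the sigma types / products (extend the ranges of `ν`, `β` to fixed ranges
`range (J+1)`, `range (Z+1)` by filters, if you like that better), or prove injectivity and surjectivity of the map `→`. -/
def SpecTHE : Prop := ∀ (a b : ℤ) (q P J x Y Z : ℕ), ¬ IsSquare (-a) → 1 ≤ x → Y < P →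
  Y ^ 2 + a.natAbs * x ^ 2 < P * (Z + 1) →
  Th a b q P J x Y = ∑ α ∈ (Icc (-(Z : ℤ)) Z).filter (fun α : ℤ => α ≠ 0),
    ∑ β ∈ rt a α.natAbs, ∑ s ∈ Sset a α β q P J x Y, kf x (-b) s

/-! ## Part C: incomplete Kloosterman sums -/

/-- **KFH** (150 lines; from the landed SM theorems KLB, DEC: take (hK : SpecKLB) (hD : SpecDEC)). Complete sums.
Proof. The units `s` of `ZMod x` correspond to the pairs `(s⁻¹, s)` with product 1; `ex(t/x) = ZMod.stdAddChar (t : ZMod x)` for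
integers `t` (`ZMod.stdAddChar_coe`). So the sum is `kc x 1 b (-k)`. KLB with `u = uu x`, `v = vv x` (DEC: `u v = x`, coprime,
`u` squarefree) gives the bound `tau x √u v √gcd(b,u) √gcd(1,u)`, and `gcd(b,u) ≤ |b|` for `b ≠ 0`. (`kc (u * v)`: rewrite
`u * v = x` by `subst` or `simp only`, the instance `NeZero` is a proposition.) -/
def SpecKFH : Prop := ∀ (x : ℕ) (b k : ℤ), 1 ≤ x → b ≠ 0 →
  ‖∑ s ∈ range x, kf x b s * ex (-((k : ℝ) * s) / x)‖ ≤ KB x b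

/-- **GSM** (200 lines; from FBD). Geometric sums in a progression, on average.
Proof. `g = gcd(q,x)`, `x = g x'`, `q = g q'`, `gcd(q',x') = 1`; `k q/x = k q'/x'`. When `k` runs over `range x`, the residue of
`k q'` modulo `x'` takes every value exactly `g` times. So the sum is `g ∑_{j<x'} ‖∑_{t<K} ex(j t/x')‖`. `j = 0` gives `g K`. For
`0 < j < x'` let `y = j` or `j - x'` with `2|y| ≤ x'`: FBD with `L = K` (`K ≥ 1`; `K = 0` is trivial): `‖∑‖² = K fej K (j/x') ≤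
x'²/(4 y²)`, so `‖∑‖ ≤ x'/(2|y|)`; and `∑_{0<j<x'} 1/(2|y|) ≤ ∑_{1≤y≤x'/2} 1/y ≤ 1 + log x'`. Total
`g K + g x' (1 + log x') ≤ g K + x (1 + log x)`. -/
def SpecGSM : Prop := ∀ (x q K : ℕ), 1 ≤ x → 1 ≤ q →
  ∑ k ∈ range x, ‖∑ t ∈ range K, ex ((k : ℝ) * (q * t) / x)‖ ≤
    (Nat.gcd q x : ℝ) * K + x * (1 + Real.log x)

/-- **KIN** (150 lines; from KFH, GSM). Incomplete sums.
Proof. `kf x b` has period `x`, so `kf x b s = (1/x) ∑_{k<x} F(k) ex(k s/x)`, `F(k) = ∑_{r<x} kf x b r ex(-k r/x)`,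
`‖F(k)‖ ≤ KB x b`. If the set is not empty, its elements are `s₁ + q t`, `t ∈ range K`, `s₁` the smallest, `K ≥ 1`,
`q (K-1) ≤ B - A`. So the left side is at most `(KB/x) ∑_{k<x} ‖∑_{t<K} ex(k q t/x)‖ ≤ (KB/x)(g K + x (1 + log x))`,
`g = gcd(q,x) ≤ x`, and `g K ≤ q (K-1) + g ≤ (B - A) + x`. -/
def SpecKIN : Prop := ∀ (x q : ℕ) (b s₀ A B : ℤ), 1 ≤ x → 1 ≤ q → b ≠ 0 → A ≤ B →
  ‖∑ s ∈ (Icc A B).filter (fun s : ℤ => (q : ℤ) ∣ s - s₀), kf x b s‖ ≤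
    KB x b * (((B : ℝ) - A) / x + 2 + Real.log x)

/-- **SIN** (250 lines; from KIN). The sum over `s`.
Proof. Put `y(s) = β x - α s`; `α mf = y² + a x²`. If `s₁ < s₂ < s₃` and `s₁, s₃` satisfy `P < mf ≤ J`, `|y| ≤ Y`,
`-(Y+x) ≤ s ≤ Y+x` and `y(s₁), y(s₃)` are both `≥ 0` (or both `< 0`), then `s₂` satisfies the same: `y` is monotone in `s`, so
`y(s₂)` and `y(s₂)²` lie between the values at `s₁` and `s₃`, hence also `α mf(s₂) = y(s₂)² + a x²` and `mf(s₂)`. So the set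
without the condition `q ∣ mf` is the disjoint union of two sets `E` of consecutive integers (`y ≥ 0`, `y < 0`), each empty
or equal to `Icc A B` with `A, B ∈ E` (min and max), `|α| (B - A) = |y(A) - y(B)| ≤ Y`. The condition `q ∣ mf(s)` depends only on `s`
modulo `q`: `s ≡ r (mod q)` implies `mf(s) ≡ mf(r) (mod q)`. So the sum over `E` with `q ∣ mf` is the sum over at most `q` residues
`r ∈ range q` of the sums of KIN. Total `≤ 2 q KB x b ((Y/|α|)/x + 2 + log x)`. (KB and the bracket are `≥ 0`.) -/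
def SpecSIN : Prop := ∀ (a b α β : ℤ) (q P J x Y : ℕ), b ≠ 0 → α ≠ 0 → α ∣ β ^ 2 + a →
  1 ≤ x → 1 ≤ q →
  ‖∑ s ∈ Sset a α β q P J x Y, kf x b s‖ ≤
    2 * q * KB x b * ((Y : ℝ) / (|(α : ℝ)| * x) + 2 + Real.log x)

/-- **THB** (120 lines; from THE, SIN, RCT). The bound for `Th`.
Proof. THE and SIN (with `-b`, `KB x (-b) = KB x b`; `β ∈ rt a |α|` means `α ∣ β² + a`):
`‖Th‖ ≤ 2 q KB ∑_{0<|α|≤Z} #rt(a,|α|) (Y/(|α| x) + 2 + log x)`. By RCT with `M = Z` (each `n = |α|` twice):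
`∑ #rt/|α| ≤ 2 T²`, `∑ #rt ≤ 2 T Z`; `2 + log x ≤ 1 + T ≤ 2 T`. So `‖Th‖ ≤ 2 q KB (2 T² Y/x + 4 T² Z)`. -/
def SpecTHB : Prop := ∀ (T : ℝ) (a b : ℤ) (q P J x Y Z : ℕ), ¬ IsSquare (-a) → b ≠ 0 → 1 ≤ q →
  1 ≤ x → Y < P → Y ^ 2 + a.natAbs * x ^ 2 < P * (Z + 1) → TB T (Z ^ 2 + a.natAbs + x) →
  ‖Th a b q P J x Y‖ ≤ 8 * q * KB x b * T ^ 2 * ((Y : ℝ) / x + Z)

/-- **KAV** (200 lines; from the landed SM theorem DEC: (hD : SpecDEC)). The bound on average.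
Proof. `x = uu vv`, so `√(uu) vv = √x √(vv)`. By DEC `vv = d² b`, `b ∣ d`, so `√(vv) = d √b`, `d² b ∣ x`, `d ≤ Z`. First: the sum is at most
`√Z ∑_{d≤Z} ∑_{b ∣ d} d √b #{x ≤ Z : d² b ∣ x} ≤ √Z ∑_d ∑_{b∣d} d √b Z/(d² b) ≤ Z √Z ∑_{d≤Z} τ(d)/d ≤ Z √Z T (1 + log Z)`.
Second: `√(uu) vv/x = √(vv)/√x`; for given `d, b` and `x = d² b j` the summand is `d √b/(d √b √j) = 1/√j`, and
`∑_{j ≤ Z/(d² b)} 1/√j ≤ 2 √(Z/(d² b)) ≤ 2 √Z/d`; sum over `b ∣ d`, `d ≤ Z`: `≤ 2 √Z T (1 + log Z)`. (`Z = 0` is trivial. Compare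
the proof of SM/AVG.lean.) -/
def SpecKAV : Prop := ∀ (T : ℝ) (Z : ℕ), TB T Z →
  ∑ x ∈ Ioc 0 Z, √(uu x : ℝ) * (vv x : ℝ) ≤ T ^ 2 * ((Z : ℝ) * √(Z : ℝ)) ∧
  ∑ x ∈ Ioc 0 Z, √(uu x : ℝ) * (vv x : ℝ) / x ≤ 2 * T ^ 2 * √(Z : ℝ)

/-! ## Part D: the weighted sum -/

/-- **UDA** (200 lines; from RCT, TOT). Positive `x`, and the phase.
Proof. Fix `(m,ν)`, `P < m ≤ J ≤ 2P`. In `Wt` the terms with `x = 0` need `m ∣ y`, `|y| < Y ≤ P < m`, so `y = 0`: they give 1. The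
terms with `x < 0` equal those with `x > 0` (`(x,y) ↦ (-x,-y)`). For `x > 0` the `y ∈ (-Y,Y)` with `m ∣ y + ν x` are the
`y = m u - ν x` with `|m u - ν x| < Y`, one `u` for each `y`, `|u| ≤ (Y + ν x)/m < 1 + x`, and `tri Y y = 0` for the other
`u ∈ [-(x+1), x+1]`. So `Wt = 1 + 2 ∑_{0<x<X} ∑_u tri X x tri Y (m u - ν x)`. Hence
`Us = A + 2 Vt + 2 E`, where `‖A‖ ≤ ∑_{m≤2P} #rt ≤ 2 P T` (RCT with `M = 2P`) and
`E = ∑∑∑∑ tri tri (ex(b ν/m) - ex(b u/x))`. For the terms with `tri Y (m u - ν x) ≠ 0`: `|b ν/m - b u/x| = |b| |y|/(m x) ≤ |b| Y/P`,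
`‖ex s - ex t‖ ≤ 2 π |s - t| ≤ 7 |s - t|`. So `2‖E‖ ≤ 7 |b| (Y/P) ∑∑ Wt ≤ 7 |b| (Y/P) 60 T² X Y` by TOT (enlarge the set of `m`
to `(P,2P]`; `Wt ≥ 0`). -/
def SpecUDA : Prop := ∀ (T : ℝ) (a b : ℤ) (q P J X Y : ℕ), ¬ IsSquare (-a) → 1 ≤ X → X ≤ Y →
  Y ≤ P → P ≤ X * Y → J ≤ 2 * P → TB T (4 * P ^ 2 * (a.natAbs + 1)) →
  ‖Us a b q P J X Y‖ ≤ 2 * P * T + 420 * T ^ 2 * |(b : ℝ)| * (X * (Y : ℝ) ^ 2) / P +
    2 * ‖Vt a b q P J X Y‖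

/-- **UDB** (150 lines). Grouping by the gcd.
Proof. Fix `(m,ν)`, `m > P > V`. For `u` in the left set put `g = gcd(u,x)` (`≥ 1` as `x ≥ 1`), `u = g u₁`, `x = g x₁`; then
`gcd(u₁,x₁) = 1`, `|m u₁ - ν x₁| ≤ V/g`, i.e. `≤ ⌊V/g⌋`, `|u₁| < 1 + x₁` since `m |u₁| ≤ V + ν x₁ < m + m x₁`, and
`ex(b u/x) = ex(b u₁/x₁)`. Conversely `g ∣ x` and `u₁` in the set of `Th .. (x/g) (V/g)` give `u = g u₁` with gcd `g`,
`|m u - ν x| ≤ g ⌊V/g⌋ ≤ V`, `|u| < 1 + x` for the same reason. Exchange the sums over `g` and `(m,ν)`. -/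
def SpecUDB : Prop := ∀ (a b : ℤ) (q P J x V : ℕ), 1 ≤ x → V < P →
  ∑ m ∈ (Ioc P J).filter (fun m => q ∣ m), ∑ ν ∈ rt a m,
    ∑ u ∈ (Icc (-((x : ℤ) + 1)) (x + 1)).filter (fun u : ℤ => |(m : ℤ) * u - ν * x| ≤ V),
      ex ((b : ℝ) * u / x) =
  ∑ g ∈ x.divisors, Th a b q P J (x / g) (V / g)

/-- **UDC** (120 lines; from UDB). The bound for `Vt`.
Proof. For `Y ≥ 1`: `tri Y z = (1/Y) #{V ∈ range Y : |z| ≤ V}`. So `Vt = (1/Y) ∑_{V<Y} ∑_{0<x<X} tri X x (left side of UDB)`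
`= (1/Y) ∑_{V<Y} ∑_{0<x<X} tri X x ∑_{g∣x} Th a b q P J (x/g) (V/g)`, with `0 ≤ tri ≤ 1`, `g (x/g) = x < X`,
`g (V/g) ≤ V < Y`. So the norm is at most `∑_{0<x<X} ∑_{g∣x} Bd g (x/g) ≤ ∑_{1≤g≤X} ∑_{1≤x₁≤X/g} Bd g x₁`. -/
def SpecUDC : Prop := ∀ (a b : ℤ) (q P J X Y : ℕ) (Bd : ℕ → ℕ → ℝ), 1 ≤ X → 1 ≤ Y → Y ≤ P →
  (∀ g x : ℕ, 0 ≤ Bd g x) →
  (∀ g x V : ℕ, 1 ≤ g → 1 ≤ x → g * x < X → g * V < Y → ‖Th a b q P J x V‖ ≤ Bd g x) →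
  ‖Vt a b q P J X Y‖ ≤ ∑ g ∈ Ioc 0 X, ∑ x ∈ Ioc 0 (X / g), Bd g x

/-- The right side of UBD. -/
def ubd (T : ℝ) (b : ℤ) (q P X Y : ℕ) : ℝ :=
  2 * P * T + 420 * T ^ 2 * |(b : ℝ)| * (X * (Y : ℝ) ^ 2) / P +
    200 * q * T ^ 6 * √|(b : ℝ)| * (Y * √(X : ℝ) + (Y : ℝ) ^ 2 * (X * √(X : ℝ)) / P)

/-- **UBD** (200 lines; from THB, KAV, UDA, UDC). The bound for `Us`.
Proof. `Bd g x := 8 q (T √uu(x) vv(x) √|b|) T² (Y/(g x) + 2 (Y/g)²/P)` for `x ≤ P`, (for other `x` put anything `≥ 0`, e.g. the same formula). For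
`g x < X`, `g V < Y`: THB with `Y := V` (`V ≤ g V < Y ≤ P`) and `Z := (V² + |a| x²)/P` (division of natural numbers), so that
`V² + |a| x² < P (Z+1)` and `Z ≤ (V² + |a| x²)/P ≤ ((Y/g)² + |a| (X/g)²)/P ≤ 2 (Y/g)²/P`; `tau x ≤ T`; THB needs
`TB T (Z² + |a| + x)`: `Z ≤ 2 Y²/P ≤ 2P`, `x ≤ X ≤ Y ≤ P`, `|a| ≥ 1` (0 is a square), so
`Z² + |a| + x ≤ 4P² + |a| + P ≤ 4P²(|a|+1)`. By KAV with `Z = X/g` (natural division; `X/g ≤` the real quotient):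
`∑_{x ≤ X/g} Bd g x ≤ 8 q T³ √|b| ((Y/g) 2 T² √(X/g) + 2 (Y/g)² T² (X/g) √(X/g)/P) ≤ 16 q T⁵ √|b| (1/g)(Y √X + Y² X √X/P)`;
`∑_{g≤X} 1/g ≤ 1 + log X ≤ T`. UDC and UDA: the last term is `2 * 16 q T⁶ ..`, at most the 200 of `ubd`. -/
def SpecUBD : Prop := ∀ (T : ℝ) (a b : ℤ) (q P J X Y : ℕ), ¬ IsSquare (-a) → b ≠ 0 → 1 ≤ q →
  1 ≤ X → X ≤ Y → Y ≤ P → P ≤ X * Y → J ≤ 2 * P → a.natAbs * X ^ 2 ≤ Y ^ 2 →
  TB T (4 * P ^ 2 * (a.natAbs + 1)) →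
  ‖Us a b q P J X Y‖ ≤ ubd T b q P X Y

/-- **SBD** (150 lines; from EXC, UBD). One block, with free parameters.
Proof. `∑_m rs = ∑_m ∑_ν ex(hν/m) (1 - m Wt/(XY)) + (1/(XY)) ∑_m m c_m`, `c_m = ∑_ν ex(hν/m) Wt` for `q ∣ m`, `c_m = 0` otherwise. The first
part is `≤ 50 T² P²/(XY)` by EXC. Abel: `∑_{P<m≤J} m c_m = J U(J) - ∑_{P<j<J} U(j)` with `U(j) = Us a h q P j X Y`, so it is
`≤ (J + (J - P)) max ‖U‖ ≤ 3 P ubd`. (If `J ≤ P` the sum is empty.) -/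
def SpecSBD : Prop := ∀ (T : ℝ) (a h : ℤ) (q P J X Y : ℕ), ¬ IsSquare (-a) → h ≠ 0 → 1 ≤ q →
  1 ≤ X → X ≤ Y → Y ≤ P → P ≤ X * Y → J ≤ 2 * P → a.natAbs * X ^ 2 ≤ Y ^ 2 →
  TB T (4 * P ^ 2 * (a.natAbs + 1)) →
  ‖∑ m ∈ (Ioc P J).filter (fun m => q ∣ m), rs a h m‖ ≤
    50 * T ^ 2 * (P : ℝ) ^ 2 / (X * Y) + 3 * P / (X * Y) * ubd T h q P X Y

/-- **DYB** (200 lines; from SBD). The choice of `X` and `Y`.
Proof. `E = √(R P/D) ≥ 4 R ≥ 1` (`16 R D ≤ P`, so `R P/D ≥ 16 R²`). `X = ⌈E⌉`, so `E ≤ X ≤ 2E`; `Y = D X`. Then `X ≤ Y`,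
`|a| X² ≤ D² X² = Y²`, `X Y = D X² ≥ D E² = R P ≥ P`, `Y ≤ 2 D E = 2 √(D R P) ≤ 2 √(P²/16) = P/2`. Terms of SBD:
`50 T² P²/(XY) ≤ 50 T² P/R`; `3P/(XY) 2PT ≤ 6 T P/R`; `3P/(XY) 420 T² |h| X Y²/P = 1260 T² |h| Y ≤ 2520 T² |h| D E`;
`3P/(XY) 200 q T⁶ √|h| Y √X = 600 q T⁶ √|h| P/√X ≤ 600 q T⁶ √|h| P/√E`;
`3P/(XY) 200 q T⁶ √|h| Y² X √X/P = 600 q T⁶ √|h| Y √X ≤ 600 q T⁶ √|h| 2 D E √(2E) ≤ 1800 q T⁶ √|h| D E √E`. -/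
def SpecDYB : Prop := ∀ (T R : ℝ) (a h : ℤ) (q P J D : ℕ), ¬ IsSquare (-a) → h ≠ 0 → 1 ≤ q →
  1 ≤ D → a.natAbs ≤ D ^ 2 → 1 ≤ R → 16 * R * D ≤ P → J ≤ 2 * P →
  TB T (4 * P ^ 2 * (a.natAbs + 1)) →
  ‖∑ m ∈ (Ioc P J).filter (fun m => q ∣ m), rs a h m‖ ≤
    56 * T ^ 2 * P / R + 2520 * T ^ 2 * |(h : ℝ)| * (D * √(R * P / D)) +
    1800 * q * T ^ 6 * √|(h : ℝ)| *
      (P / √(√(R * P / D)) + D * √(R * P / D) * √(√(R * P / D)))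

/-- **TBN** (60 lines). `T = N^(1/1000)`.
Proof. `Pool.Agent.Lib.MP_391708_nt.Div.card_divisors_le_rpow` with `d = 1/8000`: `τ(n) ≤ C n^d ≤ C N^(4 d) = C N^(1/2000) ≤
N^(1/1000)` for large `N`; `1 + log n ≤ 1 + 4 log N ≤ N^(1/1000)` for large `N`. -/
def SpecTBN : Prop := ∃ N₀ : ℕ, ∀ N : ℕ, N₀ ≤ N → ∀ B : ℕ, (B : ℝ) ≤ (N : ℝ) ^ (4 : ℝ) →
  TB ((N : ℝ) ^ (1 / 1000 : ℝ)) B

/-- **DYA** (200 lines; from DYB, TBN). One block, numerically.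
Proof. `R = N^(1/50)`, `T = N^(1/1000)`, `D = ⌈√|a|⌉`, `1 ≤ D ≤ N^(0.55) + 1 ≤ 2 N^(0.55)` (`a ≠ 0`). `16 R D ≤ 32 N^(0.57) ≤ P`. `4P²(|a|+1) ≤
8 N^(2.01) N^(1.1) ≤ N⁴`. `E = √(R P/D)`: `E² ≥ N^(0.02) (N^(0.99)/2)/(2 N^(0.55)) = N^(0.46)/4`, so `E ≥ N^(0.23)/2`,
`√E ≥ N^(0.115)/2`; `D E = √(D R P) ≤ √(2 N^(0.55+0.02+1.005)) ≤ 2 N^(0.7875)`; `(D E √E)⁴ = D⁴ E⁶ = D (R P)³ ≤ 2 N^(0.55 + 3.075)`,
so `D E √E ≤ 2 N^(0.90625)`. The terms of DYB: `56 T² P/R ≤ 56 N^(0.002+1.005-0.02) = 56 N^(0.987)`;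
`2520 T² |h| D E ≤ 5040 N^(0.002+0.005+0.7875)`; `1800 q T⁶ √|h| (..) ≤ 1800 N^(0.005+0.006+0.0025) (2 N^(1.005-0.115) + 2 N^(0.90625))
≤ 7200 N^(0.92)`. Each is at most `N^(0.989)/3` for large `N`. -/
def SpecDYA : Prop := ∃ N₀ : ℕ, ∀ N : ℕ, N₀ ≤ N → ∀ a : ℤ, ¬ IsSquare (-a) →
  |(a : ℝ)| ≤ (N : ℝ) ^ (11 / 10 : ℝ) → ∀ q : ℕ, 1 ≤ q → (q : ℝ) ≤ (N : ℝ) ^ (1 / 200 : ℝ) →
  ∀ h : ℤ, h ≠ 0 → |(h : ℝ)| ≤ (N : ℝ) ^ (1 / 200 : ℝ) → ∀ P J : ℕ,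
  (N : ℝ) ^ (99 / 100 : ℝ) ≤ 2 * P → (P : ℝ) ≤ (N : ℝ) ^ (1 + 1 / 200 : ℝ) → J ≤ 2 * P →
  ‖∑ m ∈ (Ioc P J).filter (fun m => q ∣ m), rs a h m‖ ≤ (N : ℝ) ^ (989 / 1000 : ℝ)

/-- **ROW** (150 lines; from DYA, TBN, RCT). The theorem.
Proof. `σ = 1/200`. Let `S(M) = ∑_{m ∈ (0,M], q ∣ m} rs a h m`, `T = N^(1/1000)`. CLAIM: for all `k` and all `M ≤ 2^k`,
`M ≤ N^(1+σ)`: `‖S(M)‖ ≤ T N^(99/100) + k N^(989/1000)`. If `M ≤ N^(99/100)`: trivially `‖S(M)‖ ≤ ∑_{m≤M} #rt ≤ T M` (RCT, TBN: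
`M² + |a| ≤ N⁴`). Otherwise induction on `k` (`k = 0`: `M ≤ 1 ≤ N^(99/100)`, the first case): `P = (M+1)/2` (natural division) satisfies `P ≤ 2^(k-1)`, `M ≤ 2P`,
`P ≤ M`, `2 P ≥ M ≥ N^(99/100)`; `S(M) = S(P) + ∑_{(P,M]}`, DYA with `J = M`. Take `k = ⌈log₂ N^(1+σ)⌉ ≤ 4 log N ≤ N^(1/1000)` (or
`k = Nat.clog 2 M ≤ 1 + 2 log M`). So
`‖S(M)‖ ≤ 2 N^(991/1000)`, and the sum over `(M₁,M₂]` is `S(M₂) - S(M₁)`, `≤ 4 N^(991/1000) ≤ N^(995/1000)` for large `N`. -/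
def SpecROW : Prop := SpecROOTW

end

end Pool.Agent.Lib.MP391708.U.R
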