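import Pool.Agent.Lib.MP_391708_nt.U.R.SpecR

/-!
# Project U, part R, module UBD: the bound for `Us`
-/

set_option autoImplicit false

namespace Pool.Agent.Lib.MP391708.U.R

open Finset Filter Topology Pool.Agent.Lib.MP391708.QPA Pool.Agent.Lib.MP391708.U
open Pool.Agent.Lib.MP_1446ad_nt.SM (tau uu vv kc SpecKLB SpecDEC)
open scoped Classical

noncomputable section

namespace UBDM

/-- the bound for the inner sums -/
def Bd (T : ℝ) (b : ℤ) (q P Y g x : ℕ) : ℝ :=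
  8 * q * (T * √(uu x : ℝ) * (vv x : ℝ) * √|(b : ℝ)|) * T ^ 2 *
    (((Y : ℝ) / g) / x + 2 * ((Y : ℝ) / g) ^ 2 / P)

lemma Bd_nonneg (T : ℝ) (hT : 1 ≤ T) (b : ℤ) (q P Y g x : ℕ) : 0 ≤ Bd T b q P Y g x := by
  unfold Bd
  positivity

/-- the size of `Z`, natural numbers -/
lemma Z_le (A P x V X Y : ℕ) (hA : 1 ≤ A) (hP : 1 ≤ P) (hx : x ≤ X) (hV : V ≤ Y) (hYP : Y ≤ P) (hXP : X ≤ P)
    (hAX : A * X ^ 2 ≤ Y ^ 2) :
    ((V ^ 2 + A * x ^ 2) / P) ^ 2 + A + x ≤ 4 * P ^ 2 * (A + 1) := by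
  have h1 : (V ^ 2 + A * x ^ 2) / P ≤ 2 * P := by
    apply Nat.div_le_of_le_mul
    have h2 : V ^ 2 ≤ P ^ 2 := Nat.pow_le_pow_left (hV.trans hYP) 2
    have h3 : A * x ^ 2 ≤ A * X ^ 2 := Nat.mul_le_mul_left A (Nat.pow_le_pow_left hx 2)
    have h4 : Y ^ 2 ≤ P ^ 2 := Nat.pow_le_pow_left hYP 2
    nlinarith
  have h5 : ((V ^ 2 + A * x ^ 2) / P) ^ 2 ≤ (2 * P) ^ 2 := Nat.pow_le_pow_left h1 2
  have h6 : x ≤ P := hx.trans hXP
  have h7 : A ≤ P ^ 2 * A := Nat.le_mul_of_pos_left A (by positivity)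
  have h8 : P ≤ P ^ 2 * A := by
    calc P = P * 1 * 1 := by ring
      _ ≤ P * P * A := Nat.mul_le_mul (Nat.mul_le_mul_left P hP) hA
      _ = P ^ 2 * A := by ring
  nlinarith

/-- the bound of `Z`, real numbers -/
lemma Z_real (A P g x V X Y : ℕ) (hP : 1 ≤ P) (hg : 1 ≤ g) (hx : g * x ≤ X) (hV : g * V ≤ Y)
    (hAX : A * X ^ 2 ≤ Y ^ 2) :
    (((V ^ 2 + A * x ^ 2) / P : ℕ) : ℝ) ≤ 2 * ((Y : ℝ) / g) ^ 2 / P := by
  have hP0 : (0 : ℝ) < P := by exact_mod_cast hP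
  have hg0 : (0 : ℝ) < g := by exact_mod_cast hg
  refine (Nat.cast_div_le (α := ℝ)).trans ?_
  apply div_le_div_of_nonneg_right _ hP0.le
  push_cast
  have h1 : (V : ℝ) ≤ Y / g := by
    rw [le_div_iff₀ hg0, mul_comm]
    exact_mod_cast hV
  have h2 : (V : ℝ) ^ 2 ≤ ((Y : ℝ) / g) ^ 2 := pow_le_pow_left₀ (Nat.cast_nonneg V) h1 2
  have h3 : (A : ℝ) * (x : ℝ) ^ 2 ≤ ((Y : ℝ) / g) ^ 2 := by
    rw [div_pow, le_div_iff₀ (by positivity)]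
    have h4 : A * x ^ 2 * g ^ 2 ≤ Y ^ 2 := by
      calc A * x ^ 2 * g ^ 2 = A * (g * x) ^ 2 := by ring
        _ ≤ A * X ^ 2 := Nat.mul_le_mul_left A (Nat.pow_le_pow_left hx 2)
        _ ≤ Y ^ 2 := hAX
    exact_mod_cast h4
  linarith

/-- the sum over `x` -/
lemma sum_x (hKAV : SpecKAV) (T : ℝ) (hT : 1 ≤ T) (b : ℤ) (q P Y g X : ℕ) (hP : 1 ≤ P) (hg : 1 ≤ g)
    (hTB : TB T X) :
    ∑ x ∈ Ioc 0 (X / g), Bd T b q P Y g x ≤
      16 * q * T ^ 5 * √|(b : ℝ)| * (Y * √(X : ℝ) + (Y : ℝ) ^ 2 * (X * √(X : ℝ)) / P) * (g : ℝ)⁻¹ := by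
  obtain ⟨h1, h2⟩ := hKAV T (X / g) (hTB.mono (Nat.div_le_self X g))
  have hP0 : (0 : ℝ) < P := by exact_mod_cast hP
  have hg1 : (1 : ℝ) ≤ g := by exact_mod_cast hg
  have hg0 : (0 : ℝ) < g := by linarith
  have e1 : ∑ x ∈ Ioc 0 (X / g), Bd T b q P Y g x =
      8 * q * T ^ 3 * √|(b : ℝ)| * (((Y : ℝ) / g) * ∑ x ∈ Ioc 0 (X / g), √(uu x : ℝ) * (vv x : ℝ) / x
        + 2 * ((Y : ℝ) / g) ^ 2 / P * ∑ x ∈ Ioc 0 (X / g), √(uu x : ℝ) * (vv x : ℝ)) := by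
    rw [Finset.mul_sum, Finset.mul_sum, ← Finset.sum_add_distrib, Finset.mul_sum]
    apply Finset.sum_congr rfl
    intro x _
    unfold Bd
    ring
  rw [e1]
  have hZ : (((X / g : ℕ)) : ℝ) ≤ X / g := Nat.cast_div_le
  have hZ1 : (((X / g : ℕ)) : ℝ) ≤ X := by exact_mod_cast Nat.div_le_self X g
  have hs : √(((X / g : ℕ)) : ℝ) ≤ √(X : ℝ) := Real.sqrt_le_sqrt hZ1
  have hY0 : (0 : ℝ) ≤ (Y : ℝ) / g := by positivity
  have k1 : ((Y : ℝ) / g) * ∑ x ∈ Ioc 0 (X / g), √(uu x : ℝ) * (vv x : ℝ) / x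
      ≤ ((Y : ℝ) / g) * (2 * T ^ 2 * √(X : ℝ)) := by
    apply mul_le_mul_of_nonneg_left _ hY0
    refine h2.trans ?_
    exact mul_le_mul_of_nonneg_left hs (by positivity)
  have k2 : 2 * ((Y : ℝ) / g) ^ 2 / P * ∑ x ∈ Ioc 0 (X / g), √(uu x : ℝ) * (vv x : ℝ)
      ≤ 2 * ((Y : ℝ) / g) ^ 2 / P * (T ^ 2 * ((X : ℝ) * √(X : ℝ))) := by
    apply mul_le_mul_of_nonneg_left _ (by positivity)
    refine h1.trans ?_
    apply mul_le_mul_of_nonneg_left _ (by positivity)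
    exact mul_le_mul hZ1 hs (Real.sqrt_nonneg _) (Nat.cast_nonneg X)
  have k3 : 2 * ((Y : ℝ) / g) ^ 2 / P * (T ^ 2 * ((X : ℝ) * √(X : ℝ)))
      ≤ 2 * T ^ 2 * ((Y : ℝ) ^ 2 * (X * √(X : ℝ)) / P) * (g : ℝ)⁻¹ := by
    have h5 : ((g : ℝ)⁻¹) ^ 2 ≤ (g : ℝ)⁻¹ := by
      have h6 : (g : ℝ)⁻¹ ≤ 1 := inv_le_one_of_one_le₀ hg1
      have h7 : 0 ≤ (g : ℝ)⁻¹ := by positivity
      nlinarith
    have e2 : 2 * ((Y : ℝ) / g) ^ 2 / P * (T ^ 2 * ((X : ℝ) * √(X : ℝ)))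
        = 2 * T ^ 2 * ((Y : ℝ) ^ 2 * (X * √(X : ℝ)) / P) * ((g : ℝ)⁻¹) ^ 2 := by
      field_simp
    rw [e2]
    exact mul_le_mul_of_nonneg_left h5 (by positivity)
  have k4 : ((Y : ℝ) / g) * (2 * T ^ 2 * √(X : ℝ)) = 2 * T ^ 2 * (Y * √(X : ℝ)) * (g : ℝ)⁻¹ := by
    rw [div_eq_mul_inv]
    ring
  have k5 := add_le_add (k1.trans (le_of_eq k4)) (k2.trans k3)
  refine (mul_le_mul_of_nonneg_left k5 (by positivity)).trans (le_of_eq ?_)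
  ring

/-- the harmonic sum -/
lemma harm (T : ℝ) (X : ℕ) (hX : 1 ≤ X) (hTB : TB T X) : ∑ g ∈ Ioc 0 X, (g : ℝ)⁻¹ ≤ T := by
  have h1 := harmonic_le_one_add_log X
  have h2 := (hTB.2 X (by omega) le_rfl).2
  have h3 : ((harmonic X : ℚ) : ℝ) = ∑ g ∈ Ioc 0 X, (g : ℝ)⁻¹ := by
    rw [harmonic_eq_sum_Icc]
    push_cast
    apply Finset.sum_congr _ (fun _ _ => rfl)
    ext i
    simp only [Finset.mem_Icc, Finset.mem_Ioc]
    omega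
  rw [← h3]
  exact h1.trans h2

end UBDM

open UBDM in
theorem specUBD (hTHB : SpecTHB) (hKAV : SpecKAV) (hUDA : SpecUDA) (hUDC : SpecUDC) : SpecUBD := by
  intro T a b q P J X Y ha hb hq hX hXY hYP hPXY hJ haX hTB
  have hP : 1 ≤ P := hX.trans (hXY.trans hYP)
  have hA : 1 ≤ a.natAbs := by
    rcases Nat.eq_zero_or_pos a.natAbs with h | h
    · exfalso
      apply ha
      rw [Int.natAbs_eq_zero.1 h]
      exact ⟨0, by simp⟩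
    · exact h
  have hT : 1 ≤ T := hTB.1
  have hXP : X ≤ P := hXY.trans hYP
  have hPB : P ≤ 4 * P ^ 2 * (a.natAbs + 1) := by
    calc P = P * 1 * 1 := by ring
      _ ≤ (4 * P) * P * (a.natAbs + 1) :=
          Nat.mul_le_mul (Nat.mul_le_mul (by omega) hP) (by omega)
      _ = 4 * P ^ 2 * (a.natAbs + 1) := by ring
  have hTBX : TB T X := hTB.mono (hXP.trans hPB)
  have h1 := hUDC a b q P J X Y (fun g x => Bd T b q P Y g x) hX (hX.trans hXY) hYP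
    (fun g x => Bd_nonneg T hT b q P Y g x) ?_
  · have h2 : ‖Vt a b q P J X Y‖ ≤ 16 * q * T ^ 5 * √|(b : ℝ)| *
        (Y * √(X : ℝ) + (Y : ℝ) ^ 2 * (X * √(X : ℝ)) / P) * T := by
      refine h1.trans ?_
      have h3 : ∑ g ∈ Ioc 0 X, ∑ x ∈ Ioc 0 (X / g), Bd T b q P Y g x ≤
          ∑ g ∈ Ioc 0 X, 16 * q * T ^ 5 * √|(b : ℝ)| *
            (Y * √(X : ℝ) + (Y : ℝ) ^ 2 * (X * √(X : ℝ)) / P) * (g : ℝ)⁻¹ := by
        apply Finset.sum_le_sum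
        intro g hg
        exact sum_x hKAV T hT b q P Y g X hP (by have := (Finset.mem_Ioc.1 hg).1; omega) hTBX
      refine h3.trans ?_
      rw [← Finset.mul_sum]
      exact mul_le_mul_of_nonneg_left (harm T X hX hTBX) (by positivity)
    have h4 := hUDA T a b q P J X Y ha hX hXY hYP hPXY hJ hTB
    refine h4.trans ?_
    unfold ubd
    apply add_le_add le_rfl
    have h5 : 0 ≤ q * T ^ 6 * √|(b : ℝ)| * (Y * √(X : ℝ) + (Y : ℝ) ^ 2 * (X * √(X : ℝ)) / P) := by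
      positivity
    have e3 : 16 * q * T ^ 5 * √|(b : ℝ)| *
        (Y * √(X : ℝ) + (Y : ℝ) ^ 2 * (X * √(X : ℝ)) / P) * T
        = 16 * (q * T ^ 6 * √|(b : ℝ)| * (Y * √(X : ℝ) + (Y : ℝ) ^ 2 * (X * √(X : ℝ)) / P)) := by ring
    have e4 : 200 * q * T ^ 6 * √|(b : ℝ)| * (Y * √(X : ℝ) + (Y : ℝ) ^ 2 * (X * √(X : ℝ)) / P)
        = 200 * (q * T ^ 6 * √|(b : ℝ)| * (Y * √(X : ℝ) + (Y : ℝ) ^ 2 * (X * √(X : ℝ)) / P)) := by ring
    rw [e3] at h2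
    rw [e4]
    linarith
  · intro g x V hg hx hgx hgV
    have hV1 : V ≤ g * V := Nat.le_mul_of_pos_left V hg
    have hx1 : x ≤ g * x := Nat.le_mul_of_pos_left x hg
    have hVP : V < P := by omega
    have hxX : x ≤ X := by omega
    have hZlt : V ^ 2 + a.natAbs * x ^ 2 < P * ((V ^ 2 + a.natAbs * x ^ 2) / P + 1) :=
      Nat.lt_mul_div_succ _ (by omega)
    have hTBZ : TB T (((V ^ 2 + a.natAbs * x ^ 2) / P) ^ 2 + a.natAbs + x) :=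
      hTB.mono (Z_le a.natAbs P x V X Y hA hP hxX (by omega) hYP hXP haX)
    have h5 := hTHB T a b q P J x V ((V ^ 2 + a.natAbs * x ^ 2) / P) ha hb hq hx hVP hZlt hTBZ
    refine h5.trans ?_
    unfold Bd KB
    have hx0 : (0 : ℝ) < x := by exact_mod_cast hx
    have hg0 : (0 : ℝ) < g := by exact_mod_cast hg
    have htau : tau x ≤ T := (hTBX.2 x hx hxX).1
    have htau0 : 0 ≤ tau x := by unfold tau; positivity
    have hZr := Z_real a.natAbs P g x V X Y hP hg hgx.le hgV.le haX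
    have hVr : (V : ℝ) ≤ (Y : ℝ) / g := by
      rw [le_div_iff₀ hg0, mul_comm]
      exact_mod_cast hgV.le
    have h6 : (V : ℝ) / x ≤ (Y : ℝ) / g / x := div_le_div_of_nonneg_right hVr hx0.le
    have h7 : 8 * q * (tau x * √(uu x : ℝ) * (vv x : ℝ) * √|(b : ℝ)|) * T ^ 2
        ≤ 8 * q * (T * √(uu x : ℝ) * (vv x : ℝ) * √|(b : ℝ)|) * T ^ 2 := by
      gcongr
    exact mul_le_mul h7 (add_le_add h6 hZr) (by positivity) (by positivity)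

end

end Pool.Agent.Lib.MP391708.U.R
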